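import Pool.Agent.Helper93_FL.BDefs

/-!
# The Boolean valued universe over an algebra of any universe: statements

The definitions `BSet`, `beq`, `bmem`, `Fml.val`, `nn`, `sb`, `om` of `Pool.Agent.Helper93_FL.BDefs`
are universe polymorphic; the statements of part A are stated here for a Boolean algebra
`B : Type u`.
-/

namespace Pool.Agent.CTD

open Pool.Agent.FL

universe u

/-- The model existence theorem. -/
def ModelStatement : Prop :=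
  ∀ (B : Type u) [CompleteBooleanAlgebra B] (N : Set (BSet B)) (G : Set B),
    N.Countable → om B ∈ N → (∀ n, nn B n ∈ N) →
    (∀ b ∈ G, ∀ c, b ≤ c → c ∈ G) → (∀ b ∈ G, ∀ c ∈ G, b ⊓ c ∈ G) → ⊥ ∉ G →
    (∀ (φ : Fml) (s : ℕ → BSet B), (∀ i, s i ∈ N) → φ.val s ∈ G ∨ (φ.val s)ᶜ ∈ G) →
    (∀ (φ : Fml) (s : ℕ → BSet B) (i : ℕ), (∀ j, s j ∈ N) →
      (⨆ a : BSet B, φ.val (Function.update s i a)) ∈ G →
      ∃ a ∈ N, φ.val (Function.update s i a) ∈ G) →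
    (∀ a ∈ N, bmem a (om B) ∈ G → ∃ n, beq a (nn B n) ∈ G) →
    ∃ (M : Type) (E : M → M → Prop) (π : BSet B → M), IsZFC E ∧ OmegaStd E ∧
      (∀ m : M, ∃ a ∈ N, π a = m) ∧
      (∀ a ∈ N, ∀ b ∈ N, (π a = π b ↔ beq a b ∈ G)) ∧
      (∀ a ∈ N, ∀ b ∈ N, (E (π a) (π b) ↔ bmem a b ∈ G)) ∧
      (∀ n, IsNum E n (π (nn B n)))

/-- A1: equality is a congruence for all formulas. -/
def A1Stmt : Prop :=
  ∀ (B : Type u) [CompleteBooleanAlgebra B],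
    (∀ x : BSet B, beq x x = ⊤) ∧ (∀ x y : BSet B, beq x y = beq y x) ∧
    (∀ x y z : BSet B, beq x y ⊓ beq y z ≤ beq x z) ∧
    (∀ x y z : BSet B, beq x y ⊓ bmem x z ≤ bmem y z) ∧
    (∀ x y z : BSet B, beq y z ⊓ bmem x y ≤ bmem x z) ∧
    (∀ (φ : Fml) (s : ℕ → BSet B) (i : ℕ) (a a' : BSet B),
      beq a a' ⊓ φ.val (Function.update s i a) ≤ φ.val (Function.update s i a')) ∧
    (∀ a b : BSet B, (⨅ c : BSet B, ((bmem c a ⇨ bmem c b) ⊓ (bmem c b ⇨ bmem c a))) ≤ beq a b) ∧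
    (∀ (α : Type u) (A : α → BSet B) (b : α → B) (f : BSet B → B),
      (∀ a a', beq a a' ⊓ f a ≤ f a') →
      (⨆ a : BSet B, bmem a (.mk α A b) ⊓ f a) = ⨆ i, b i ⊓ f (A i))

/-- A2a: foundation, pairing, union, power set. -/
def A2aStmt : Prop :=
  ∀ (B : Type u) [CompleteBooleanAlgebra B],
    (∀ a : BSet B, (⨆ c : BSet B, bmem c a) ≤
      ⨆ c : BSet B, bmem c a ⊓ ⨅ d : BSet B, (bmem d c ⇨ (bmem d a)ᶜ)) ∧
    (∀ a b : BSet B, ∃ c : BSet B, ∀ d, bmem d c = beq d a ⊔ beq d b) ∧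
    (∀ a : BSet B, ∃ b : BSet B, ∀ d, bmem d b = ⨆ c : BSet B, bmem c a ⊓ bmem d c) ∧
    (∀ a : BSet B, ∃ b : BSet B, ∀ d, bmem d b = ⨅ c : BSet B, (bmem c d ⇨ bmem c a))

/-- A2b: separation and replacement. -/
def A2bStmt : Prop :=
  ∀ (B : Type u) [CompleteBooleanAlgebra B],
    (∀ (f : BSet B → B), (∀ x x', beq x x' ⊓ f x ≤ f x') → ∀ a : BSet B,
      ∃ b : BSet B, ∀ c, bmem c b = bmem c a ⊓ f c) ∧
    (∀ (f : BSet B → BSet B → B), (∀ x x' y, beq x x' ⊓ f x y ≤ f x' y) →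
      (∀ x y y', beq y y' ⊓ f x y ≤ f x y') → ∀ a : BSet B,
      ∃ b : BSet B, ∀ x, bmem x a ⊓ (⨆ y : BSet B, f x y) ≤ ⨆ y : BSet B, bmem y b ⊓ f x y)

/-- A2c: choice. -/
def A2cStmt : Prop :=
  ∀ (B : Type u) [CompleteBooleanAlgebra B] (a : BSet B), ∃ c : BSet B,
    (⨅ x : BSet B, (bmem x a ⇨ ⨆ y : BSet B, bmem y x)) ⊓
    (⨅ x : BSet B, ⨅ x' : BSet B, ((bmem x a ⊓ bmem x' a ⊓ ⨆ y : BSet B, bmem y x ⊓ bmem y x') ⇨
      beq x x')) ≤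
    ⨅ x : BSet B, (bmem x a ⇨ ⨆ y : BSet B, (bmem y x ⊓ bmem y c ⊓
      ⨅ z : BSet B, ((bmem z x ⊓ bmem z c) ⇨ beq z y)))

/-- A3: natural numbers. -/
def A3Stmt : Prop :=
  ∀ (B : Type u) [CompleteBooleanAlgebra B],
    (∀ x : BSet B, bmem x (nn B 0) = ⊥) ∧
    (∀ (x : BSet B) (n : ℕ), bmem x (nn B (n + 1)) = bmem x (nn B n) ⊔ beq x (nn B n)) ∧
    (∀ n m : ℕ, n ≠ m → beq (nn B n) (nn B m) = ⊥) ∧
    (∀ (b : ℕ → B) (n : ℕ), bmem (nn B n) (sb b) = b n) ∧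
    (∀ (b : ℕ → B) (x : BSet B), bmem x (sb b) = ⨆ n, b n ⊓ beq x (nn B n))

/-- A dense embedding of a preorder into a complete Boolean algebra. -/
structure IsDenseEmb {P B : Type u} [Preorder P] [CompleteBooleanAlgebra B] (io : P → B) :
    Prop where
  ne_bot : ∀ p, io p ≠ ⊥
  mono : ∀ p q, p ≤ q → io p ≤ io q
  dense : ∀ p b, b ⊓ io p ≠ ⊥ → ∃ q ≤ p, io q ≤ b
  compat : ∀ p q, io p ⊓ io q ≠ ⊥ → ∃ r, r ≤ p ∧ r ≤ q
  exists_le : ∀ b, b ≠ ⊥ → ∃ q, io q ≤ b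

/-- A5: every preorder has a dense embedding in a complete Boolean algebra (regular open sets). -/
def ROStmt : Prop :=
  ∀ (P : Type u) [Preorder P], ∃ (B : Type u) (_ : CompleteBooleanAlgebra B) (io : P → B),
    IsDenseEmb io

end Pool.Agent.CTD
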