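import Mathlib
import Pool.Agent.Helper94_CTD.PStmts

/-!
# Definitions for the forcing part

The ground model is the universe `Type`, seen from `Type 1`: the type `Th` of the ordinals of the
bottom universe has an inaccessible cardinality, and small means `Small.{0}`.
-/

open Set

namespace Pool.Agent.CTD

/-! ## Ordinals, nodes and branches -/

/-- The ordinals of the bottom universe. -/
abbrev Th : Type 1 := Ordinal.{0}

/-- The first uncountable ordinal. -/
noncomputable abbrev o1 : Th := Ordinal.omega 1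

/-- The countable ordinals. -/
abbrev W1 : Type 1 := Set.Iio o1

/-- Branches. -/
abbrev Br : Type 1 := Th → Bool

/-- Nodes of the tree of binary sequences of ordinal length; the values from the length on are
`false`. -/
@[ext] structure Nd : Type 1 where
  /-- the length -/
  len : Th
  /-- the values -/
  fn : Th → Bool
  /-- the values from the length on are false -/
  zero : ∀ δ, len ≤ δ → fn δ = false

/-- The restriction of a branch to an ordinal. -/
noncomputable def brr (b : Br) (δ : Th) : Nd where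
  len := δ
  fn := fun x => if x < δ then b x else false
  zero := fun _ hx => if_neg (not_lt.2 hx)

/-- The restriction of a node. -/
noncomputable def Nd.res (t : Nd) (δ : Th) : Nd := brr t.fn δ

/-! ## Evaluations and conditions -/

/-- An evaluation attaches to every node a partial sequence of length `ω₁` of pairs of an ordinal
and a truth value. -/
abbrev Ev : Type 1 := Nd → W1 → Option (Th × Bool)

/-- `e` extends `p`. -/
def Ext (e p : Ev) : Prop := ∀ t ξ v, p t ξ = some v → e t ξ = some v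

/-- The conditions are the countable evaluations whose ordinals at a node are below the length of
the node. -/
structure IsCnd (p : Ev) : Prop where
  cnt : {x : Nd × W1 | p x.1 x.2 ≠ none}.Countable
  bd : ∀ t ξ v, p t ξ = some v → v.1 < t.len

/-- Conditions. -/
def Cnd : Type 1 := {p : Ev // IsCnd p}

instance : Preorder Cnd where
  le q p := Ext q.1 p.1
  le_refl _ := fun _ _ _ h => h
  le_trans _ _ _ h h' := fun t ξ v hv => h t ξ v (h' t ξ v hv)

/-- `γ` is an entry of the sequence attached to `t`. -/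
def ent (q : Ev) (t : Nd) (γ : Th) : Prop := ∃ ξ i, q t ξ = some (γ, i)

/-- `q` and `p` are equal off `A`. -/
def Off (A : Set Nd) (q p : Cnd) : Prop := ∀ t, t ∉ A → q.1 t = p.1 t

/-- The support of `p` is contained in `A`. -/
def Spt (A : Set Nd) (p : Cnd) : Prop := ∀ t, t ∉ A → ∀ ξ, p.1 t ξ = none

open Classical in
/-- The truth value of the first entry of the sequence `s` whose ordinal is bad; `false` if there is
none. -/
noncomputable def pick (s : W1 → Option (Th × Bool)) (Bad : Th → Prop) : Bool :=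
  decide (∃ ξ γ, s ξ = some (γ, true) ∧ Bad γ ∧ ∀ ξ' < ξ, ∀ v, s ξ' = some v → ¬ Bad v.1)

open Classical in
/-- The value of the branch `b` at the node `t`: if `t` is on the branch `b` it is `b (len t)`,
otherwise it is the truth value of the first entry `(γ, i)` of the sequence attached to `t` such that
the value of `b` at the restriction of `t` to `γ` is not `t γ`. -/
noncomputable def fv (e : Ev) (b : Br) (t : Nd) : Bool :=
  if ∀ x < t.len, b x = t.fn x then b t.len
  else pick (e t) (fun γ => ∃ _ : γ < t.len, fv e b (t.res γ) ≠ t.fn γ)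
termination_by t.len
decreasing_by assumption

/-- The condition `q` forces the property `A` (semantically: all evaluations extending `q` have it). -/
def Ent (q : Cnd) (A : Set Ev) : Prop := ∀ e, Ext e q.1 → e ∈ A

/-- The branches which are `false` from some countable ordinal on. -/
def D0 : Set Br := {b | ∃ δ < o1, ∀ x, δ ≤ x → b x = false}

/-! ## Closed off conditions -/

/-- `S` is closed under restrictions. -/
def RC (S : Set Nd) : Prop := ∀ t ∈ S, ∀ γ ≤ t.len, t.res γ ∈ S

/-- The exit length of `t` from `S`. -/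
noncomputable def exl (S : Set Nd) (t : Nd) : Th := sInf {δ | t.res δ ∉ S}

/-- The exit node of `t` from `S`. -/
noncomputable def exn (S : Set Nd) (t : Nd) : Nd := t.res (exl S t)

/-- The condition `q` is closed off for the countable set `F` outside `S`. -/
structure Clo (q : Ev) (S F : Set Nd) : Prop where
  cnt : F.Countable
  dom : ∀ t ∈ F, t ∉ S → ∃ θ : W1, ∀ ξ, q t ξ ≠ none ↔ ξ < θ
  sub : ∀ t ∈ F, t ∉ S → ∀ γ, ent q t γ → t.res γ ∈ F
  same : ∀ t ∈ F, t ∉ S → ∀ t' ∈ F, t' ∉ S → exn S t = exn S t' →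
    ∀ γ < exl S t, ent q t γ → ent q t' γ
  diff : ∀ t ∈ F, t ∉ S → ∀ t' ∈ F, t' ∉ S → exn S t ≠ exn S t' →
    ∃ γ, γ < exl S t ∧ γ < exl S t' ∧ t.res γ = t'.res γ ∧ t.fn γ ≠ t'.fn γ ∧ ent q t γ

open Classical in
/-- The value at `t` computed from the values `π` on `S` by means of the sequences of `q`. -/
noncomputable def dec (q : Ev) (S : Set Nd) (π : Nd → Bool) (t : Nd) : Bool :=
  if t ∈ S then π t
  else pick (q t) (fun γ => ∃ _ : γ < t.len, dec q S π (t.res γ) ≠ t.fn γ)
termination_by t.len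
decreasing_by assumption

/-- The entries below the exit node `r`, for the nodes of `F` with exit node `r`. -/
def Gam (q : Ev) (S F : Set Nd) (r : Nd) : Set Th :=
  {γ | γ < r.len ∧ ∃ t ∈ F, t ∉ S ∧ exn S t = r ∧ ent q t γ}

/-- The patterns which follow `r` at all entries. -/
def vr (q : Ev) (S F : Set Nd) (r : Nd) : Set (Nd → Bool) :=
  {π | ∀ γ ∈ Gam q S F r, π (r.res γ) = r.fn γ}

/-- The patterns which leave `r` at some element of `Γ`. -/
def ur (Γ : Set Th) (r : Nd) : Set (Nd → Bool) := {π | ∃ γ ∈ Γ, π (r.res γ) ≠ r.fn γ}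

/-! ## Countably supported sets of patterns -/

/-- The set of patterns `Z` depends only on the values on `D`. -/
def Dep (D : Set Nd) (Z : Set (Nd → Bool)) : Prop :=
  ∀ π π' : Nd → Bool, (∀ t ∈ D, π t = π' t) → (π ∈ Z ↔ π' ∈ Z)

/-- `Z` depends on countably many values in `S`. -/
def Cd (S : Set Nd) (Z : Set (Nd → Bool)) : Prop := ∃ D ⊆ S, D.Countable ∧ Dep D Z

/-- The patterns equal to `φ` on the finite set `F`. -/
def Zf (F : Finset Nd) (φ : Nd → Bool) : Set (Nd → Bool) := {π | ∀ t ∈ F, π t = φ t}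

/-! ## The enumeration of the nodes -/

/-- There are as many nodes as ordinals (proved in the module `A3`). -/
def A3Nd : Prop := Nonempty (Nd ≃ Th)

open Classical in
/-- An enumeration of the nodes; it is injective by the module `A3`. -/
noncomputable def ix : Nd → Th := if h : Nonempty (Nd ≃ Th) then h.some else fun t => t.len

open Classical in
/-- The inverse of the enumeration. -/
noncomputable def xi : Th → Nd :=
  if h : Nonempty (Nd ≃ Th) then h.some.symm else fun δ => brr (fun _ => false) δ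

/-- The nodes with index below `ζ`. -/
def T (ζ : Th) : Set Nd := {t | ix t < ζ}

/-! ## Boolean values -/

section val

variable {B : Type 1} [CompleteBooleanAlgebra B] (io : Cnd → B)

/-- The Boolean value of a set of evaluations. -/
noncomputable def val (A : Set Ev) : B := ⨆ q : {q : Cnd // Ent q A}, io q.1

/-- The Boolean value of the set of patterns `Z` at the branch `b`. -/
noncomputable def cv (Z : Set (Nd → Bool)) (b : Br) : B := val io {e | fv e b ∈ Z}

/-- The points `f_b` of the space. -/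
noncomputable def Fb (b : Br) (α : Th) : B := cv io {π | π (xi α) = true} b

/-- `b` is the supremum of the conditions below it with support in `S`. -/
def Good (S : Set Nd) (b : B) : Prop := b ≤ ⨆ s : {s : Cnd // Spt S s ∧ io s ≤ b}, io s.1

end val

section B

variable {B : Type 1} [CompleteBooleanAlgebra B]

/-- Agreement on a finite set. -/
noncomputable def agr {T : Type*} (K : Finset T) (z z' : T → B) : B := ⨅ t ∈ K, bihimp (z t) (z' t)

/-- `z` belongs to the closure of the points `F b`. -/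
noncomputable def IsX {T I : Type*} (F : I → T → B) (z : T → B) : B :=
  ⨅ K : Finset T, ⨆ b : I, agr K z (F b)

/-- A Boolean valued ultrafilter. -/
structure UF {I : Type*} (μ : (I → B) → B) : Prop where
  inf : ∀ Φ Ψ, μ (fun i => Φ i ⊓ Ψ i) = μ Φ ⊓ μ Ψ
  compl : ∀ Φ, μ (fun i => (Φ i)ᶜ) = (μ Φ)ᶜ
  const : ∀ c, μ (fun _ => c) = c

/-- The closure point conditions for the sequence of ultrafilters `μ`. -/
structure CP (io : Cnd → B) (μ : Th → (Br → B) → B) (ζ : Th) : Prop where
  res : RC (T ζ)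
  good : ∀ β < ζ, ∀ Z, Cd (T ζ) Z → Good io (T ζ) (μ β (cv io Z))
  refl1 : ∀ Z, Cd (T ζ) Z → (⨆ β, μ β (cv io Z)) ≤ ⨆ β, ⨆ _ : β < ζ, μ β (cv io Z)
  refl2 : ∀ Z, Cd (T ζ) Z → ∀ β1 < ζ,
    (⨆ β, ⨆ t : Nd, μ β (cv io Z) ⊓
      symmDiff (μ β (cv io {π | π t = true})) (μ β1 (cv io {π | π t = true}))) ≤
    ⨆ β, ⨆ _ : β < ζ, ⨆ t : Nd, ⨆ _ : t ∈ T ζ, μ β (cv io Z) ⊓
      symmDiff (μ β (cv io {π | π t = true})) (μ β1 (cv io {π | π t = true}))

/-- There is no Boolean valued injection from `P` to `Q`. -/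
def NoInj (B : Type 1) [CompleteBooleanAlgebra B] (P Q : Th → Prop) : Prop :=
  ∀ y : Th → Th → B, (⨅ ξ, ⨅ _ : P ξ, ⨆ η, ⨆ _ : Q η, y ξ η) ⊓
    (⨅ ξ, ⨅ _ : P ξ, ⨅ ξ', ⨅ _ : P ξ', ⨅ _ : ξ ≠ ξ', ⨅ η, ⨅ _ : Q η, (y ξ η ⊓ y ξ' η)ᶜ) = ⊥

/-- The summary of the forcing part: what is needed for the construction of the model. -/
structure Sys (B : Type 1) [CompleteBooleanAlgebra B] (F : Br → Th → B) (α0 : Th) (d : Th → Br)
    (J : Th → Th → Th → B) : Prop where
  nt : (⊥ : B) ≠ ⊤
  p1 : ∀ b b', b ≠ b' → ∃ α, bihimp (F b α) (F b' α) = ⊥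
  p2 : ∀ b (K : Finset Th), (⨆ i, ⨆ _ : i < α0, agr K (F b) (F (d i))) = ⊤
  dinj : ∀ i < α0, ∀ j < α0, d i = d j → i = j
  j1 : ∀ α, ∀ β < α, (⨆ ξ, ⨆ _ : ξ < o1, J α β ξ) = ⊤
  j2 : ∀ α β ξ ξ', ξ ≠ ξ' → J α β ξ ⊓ J α β ξ' = ⊥
  j3 : ∀ α β β' ξ, β ≠ β' → J α β ξ ⊓ J α β' ξ = ⊥
  p4 : NoInj B (fun ξ => ξ < o1) (fun n => n < Ordinal.omega0)
  p5 : NoInj B (fun _ => True) (fun ξ => ξ < o1)
  p6 : ∀ y : Br → Th → B, ∃ b b', b ≠ b' ∧ ∀ ξ < o1, y b ξ = y b' ξ
  p7 : ∀ y : Th → Th → B, (⨅ β, IsX F (y β)) ≤ ⨆ α : Th, ⨆ z : Th → B, IsX F z ⊓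
    (⨅ K : Finset Th, ⨆ β, ⨆ _ : β < α, agr K z (y β)) ⊓
    (⨅ K : Finset Th, ⨆ β, ⨆ _ : α ≤ β, agr K z (y β))

end B

end Pool.Agent.CTD
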