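import Mathlib
import Pool.Agent.Helper93_FL.Public

/-!
# Compact subspaces of the Cantor cube of weight `ω₂` inside models of set theory

Definitions used in the statement of the main theorem.  Formulas, models of ZFC (`IsZFC`), natural
numbers of a model (`IsNum`) and standardness (`OmegaStd`) are in `Pool.Agent.Helper93_FL.Public`.
-/

namespace Pool.Agent.CTD

open Pool.Agent.FL

variable {M : Type} (E : M → M → Prop)

/-- `x` is a subset of `a`. -/
def Sub (x a : M) : Prop := ∀ y, E y x → E y a

/-- `p` is the Kuratowski ordered pair `{{x}, {x, y}}`. -/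
def IsPair (p x y : M) : Prop :=
  ∀ z, E z p ↔ ((∀ u, E u z ↔ u = x) ∨ (∀ u, E u z ↔ u = x ∨ u = y))

/-- The pair `(x, y)` belongs to `f`. -/
def App (f x y : M) : Prop := ∃ p, E p f ∧ IsPair E p x y

/-- `f` is a function from `a` to `b`. -/
def IsFun (f a b : M) : Prop :=
  (∀ p, E p f → ∃ x y, E x a ∧ E y b ∧ IsPair E p x y) ∧ ∀ x, E x a → ∃! y, App E f x y

/-- There is an injection from `a` to `b`. -/
def Inj (a b : M) : Prop :=
  ∃ f, IsFun E f a b ∧ ∀ x x' y, App E f x y → App E f x' y → x = x'

/-- `a` is an ordinal: a transitive set of transitive sets. -/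
def IsOrd (a : M) : Prop :=
  (∀ x, E x a → Sub E x a) ∧ ∀ x, E x a → ∀ y, E y x → Sub E y x

/-- `w` is the set of natural numbers. -/
def IsOmega (w : M) : Prop := ∀ x, E x w ↔ ∃ n, IsNum E n x

/-- `w1` is the first uncountable ordinal: an ordinal which cannot be injected in the set of natural
numbers, although all its elements can. -/
def IsAleph1 (w1 : M) : Prop :=
  IsOrd E w1 ∧ ∃ w, IsOmega E w ∧ ¬ Inj E w1 w ∧ ∀ x, E x w1 → Inj E x w

/-- `w2` is the first ordinal which cannot be injected in `w1`. -/
def IsAleph2 (w1 w2 : M) : Prop := IsOrd E w2 ∧ ¬ Inj E w2 w1 ∧ ∀ x, E x w2 → Inj E x w1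

/-- The set `x` is in the closure of the class `C` of subsets of `a`, in the Cantor cube of the
subsets of `a`: on every finite subset of `a` it agrees with a member of `C`. -/
def InCl (a : M) (C : M → Prop) (x : M) : Prop :=
  Sub E x a ∧ ∀ K : Finset M, (∀ t ∈ K, E t a) → ∃ y, C y ∧ ∀ t ∈ K, (E t x ↔ E t y)

/-- In the structure `(M, E)` the set `X` is a closed subspace of the Cantor cube of the subsets of
`w2` (which is `ω₂`), has a dense subset of cardinality at most `w1` (which is `ω₁`), has no free
sequence of length `ω₂`, and its cardinality is not at most the cardinality of the power set of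
`ω₁`. -/
structure IsExample (w1 w2 X : M) : Prop where
  /-- `w1` is `ω₁` -/
  aleph1 : IsAleph1 E w1
  /-- `w2` is `ω₂` -/
  aleph2 : IsAleph2 E w1 w2
  /-- the elements of `X` are subsets of `ω₂` -/
  sub : ∀ x, E x X → Sub E x w2
  /-- `X` is closed -/
  closed : ∀ x, InCl E w2 (fun y => E y X) x → E x X
  /-- the density of `X` is at most `ω₁` -/
  density : ∃ D, Sub E D X ∧ Inj E D w1 ∧ ∀ x, E x X → InCl E w2 (fun y => E y D) x
  /-- there is no free sequence of length `ω₂` in `X`: for every function `g` from `ω₂` to `X` there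
  are `α` in `ω₂` and a point `z` of `X` in the closures of the set of the `g β` with `β < α` and of
  the set of the `g β` with `β ≥ α` -/
  free : ∀ g, IsFun E g w2 X → ∃ α z, E α w2 ∧ E z X ∧
    InCl E w2 (fun y => ∃ β, E β w2 ∧ E β α ∧ App E g β y) z ∧
    InCl E w2 (fun y => ∃ β, E β w2 ∧ ¬ E β α ∧ App E g β y) z
  /-- the cardinality of `X` is not at most `2 ^ ω₁` -/
  card : ∀ Q, (∀ y, E y Q ↔ Sub E y w1) → ¬ Inj E X Q

end Pool.Agent.CTD
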