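import Mathlib
import Pool.Agent.Helper94_CTD.Public
import Pool.Agent.Helper94_CTD.Defs

/-!
# Definitions for the model part
-/

open Set

namespace Pool.Agent.CTD

open Pool.Agent.FL

/-! ## Countable hulls -/

/-- Filters of a Boolean algebra. -/
structure Flt {B : Type*} [CompleteBooleanAlgebra B] (G : Set B) : Prop where
  up : ∀ b ∈ G, ∀ c, b ≤ c → c ∈ G
  inf : ∀ b ∈ G, ∀ c ∈ G, b ⊓ c ∈ G
  bot : ⊥ ∉ G
  top : ⊤ ∈ G

/-- `H` and `G` decide all suprema of the family `V` with parameters in `H`, with witnesses in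
`H`. -/
def Gen {ι W B : Type*} [CompleteBooleanAlgebra B] (V : ι → List W → W → B) (H : Set W)
    (G : Set B) : Prop :=
  ∀ i l, (∀ x ∈ l, x ∈ H) → (⨆ w, V i l w)ᶜ ∈ G ∨ ∃ w ∈ H, V i l w ∈ G

/-- What the countable hull collects: names, ordinals, branches, functions from the ordinals to `B`
and finite sets of ordinals. -/
structure Wd (B : Type 1) : Type 2 where
  /-- a name -/
  nm : BSet B
  /-- an ordinal -/
  th : Th
  /-- a branch -/
  br : Br
  /-- a function -/
  zz : Th → B
  /-- a finite set of ordinals -/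
  fs : Finset Th

section names

variable {B : Type 1} [CompleteBooleanAlgebra B]

/-- the name `a` occurs in the hull -/
def HN (H : Set (Wd B)) (a : BSet B) : Prop := ∃ w ∈ H, w.nm = a
/-- the ordinal `α` occurs in the hull -/
def HT (H : Set (Wd B)) (α : Th) : Prop := ∃ w ∈ H, w.th = α
/-- the branch `b` occurs in the hull -/
def HB (H : Set (Wd B)) (b : Br) : Prop := ∃ w ∈ H, w.br = b
/-- the function `z` occurs in the hull -/
def HZ (H : Set (Wd B)) (z : Th → B) : Prop := ∃ w ∈ H, w.zz = z
/-- the finite set `K` occurs in the hull -/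
def HF (H : Set (Wd B)) (K : Finset Th) : Prop := ∃ w ∈ H, w.fs = K

/-! ## Names -/

/-- The name of the ordinal `α`. -/
noncomputable def chk (α : Th) : BSet B := .mk (Set.Iio α) (fun β => chk β.1) (fun _ => ⊤)
termination_by α
decreasing_by exact β.2

/-- The name of the set of all ordinals of the bottom universe: it will be `ω₂`. -/
noncomputable def W2n : BSet B := .mk Th chk (fun _ => ⊤)

/-- The name of a subset of `ω₂`. -/
noncomputable def pt (z : Th → B) : BSet B := .mk Th chk z

/-- The name of the space. -/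
noncomputable def Xn (F : Br → Th → B) : BSet B := .mk (Th → B) pt (IsX F)

open Classical in
/-- The name of the dense set. -/
noncomputable def Dn (F : Br → Th → B) (α0 : Th) (d : Th → Br) : BSet B :=
  .mk Th (fun i => pt (F (d i))) (fun i => if i < α0 then ⊤ else ⊥)

/-- The name of the unordered pair. -/
def upr (a b : BSet B) : BSet B := .mk (ULift Bool) (fun i => if i.down then a else b) (fun _ => ⊤)

/-- The name of the ordered pair. -/
def opr (a b : BSet B) : BSet B := upr (upr a a) (upr a b)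

/-- The name of a relation between the `A i` and the ordinals. -/
noncomputable def fnm (A : Th → BSet B) (R : Th → Th → B) : BSet B :=
  .mk (Th × Th) (fun p => opr (A p.1) (chk p.2)) (fun p => R p.1 p.2)

/-! ## The model -/

/-- The basic properties of the model `(M, E)` obtained from `H` and `G`. -/
structure Base (H : Set (Wd B)) (G : Set B) {M : Type} (E : M → M → Prop) (π : BSet B → M) :
    Prop where
  flt : Flt G
  zfc : IsZFC E
  std : OmegaStd E
  surj : ∀ m : M, ∃ a, HN H a ∧ π a = m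
  eqv : ∀ a b, HN H a → HN H b → (π a = π b ↔ beq a b ∈ G)
  mem : ∀ a b, HN H a → HN H b → (E (π a) (π b) ↔ bmem a b ∈ G)
  dece : ∀ a b, HN H a → HN H b → beq a b ∈ G ∨ (beq a b)ᶜ ∈ G
  decm : ∀ a b, HN H a → HN H b → bmem a b ∈ G ∨ (bmem a b)ᶜ ∈ G
  chk : ∀ α, HT H α → HN H (chk α)
  w2 : HN H W2n
  o1 : HT H o1
  om : HT H Ordinal.omega0
  memW2 : ∀ m, E m (π W2n) ↔ ∃ α, HT H α ∧ m = π (CTD.chk α)
  memchk : ∀ β, HT H β → ∀ m, E m (π (CTD.chk β)) ↔ ∃ α, HT H α ∧ α < β ∧ m = π (CTD.chk α)
  inj : ∀ α β, HT H α → HT H β → π (CTD.chk α) = π (CTD.chk β) → α = β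
  omega : IsOmega E (π (CTD.chk Ordinal.omega0))
  opr : ∀ a b, HN H a → HN H b → HN H (opr a b)
  pair : ∀ a b, HN H a → HN H b → IsPair E (π (CTD.opr a b)) (π a) (π b)

/-- The trace of a name on the ordinals. -/
noncomputable def tr (a : BSet B) (α : Th) : B := bmem (chk α) a

/-- The properties of the space in the model. -/
structure XBase (F : Br → Th → B) (H : Set (Wd B)) (G : Set B) {M : Type} (E : M → M → Prop)
    (π : BSet B → M) : Prop where
  xn : HN H (Xn F)
  mem : ∀ a, HN H a → (E (π a) (π (Xn F)) ↔ Sub E (π a) (π W2n) ∧ IsX F (tr a) ∈ G)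
  pt : ∀ z, HZ H z → HN H (pt z)
  ptF : ∀ b, HB H b → HN H (CTD.pt (F b))
  memF : ∀ b, HB H b → E (π (CTD.pt (F b))) (π (Xn F))
  dec : ∀ a, HN H a → IsX F (tr a) ∈ G ∨ (IsX F (tr a))ᶜ ∈ G

end names

/-- `C` holds for all hulls which are generic for some countable family. -/
def Mod (B : Type 1) [CompleteBooleanAlgebra B]
    (C : ∀ (_ : Set (Wd B)) (_ : Set B) (M : Type) (_ : M → M → Prop) (_ : BSet B → M), Prop) :
    Prop :=
  ∃ V : ℕ → List (Wd B) → Wd B → B, ∀ H G (M : Type) (E : M → M → Prop) π,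
    Base H G E π → Gen V H G → C H G M E π

end Pool.Agent.CTD
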