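import Mathlib
import Pool.Agent.Helper94_CTD.EDefs

/-!
# Statements of the modules of the model part
-/

open Set

namespace Pool.Agent.CTD

open Pool.Agent.FL

/-- E0: countable hulls. -/
def E0Hu : Prop := ∀ (W : Type 2) [Nonempty W] (B : Type 1) [CompleteBooleanAlgebra B]
  (V : ℕ → List W → W → B), (⊥ : B) ≠ ⊤ →
  ∃ (H : Set W) (G : Set B), H.Countable ∧ H.Nonempty ∧ Flt G ∧ Gen V H G

/-- E1: values of the names. -/
def E1Nm : Prop := ∀ (B : Type 1) [CompleteBooleanAlgebra B],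
  (∀ (x : BSet B) α, bmem x (chk α) = ⨆ β, ⨆ _ : β < α, beq x (chk β)) ∧
  (∀ x : BSet B, bmem x W2n = ⨆ β, beq x (chk β)) ∧
  (∀ α β, α ≠ β → beq (chk α : BSet B) (chk β) = ⊥) ∧
  (∀ (x : BSet B) z, bmem x (pt z) = ⨆ α, z α ⊓ beq x (chk α)) ∧
  (∀ (z : Th → B) α, bmem (chk α) (pt z) = z α) ∧
  (∀ x a b : BSet B, bmem x (upr a b) = beq x a ⊔ beq x b) ∧
  (∀ (x : BSet B) A R, bmem x (fnm A R) = ⨆ i, ⨆ ξ, R i ξ ⊓ beq x (opr (A i) (chk ξ))) ∧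
  (∀ (x : BSet B) F, bmem x (Xn F) = ⨆ z, IsX F z ⊓ beq x (pt z)) ∧
  (∀ (x : BSet B) F α0 d, bmem x (Dn F α0 d) = ⨆ i, ⨆ _ : i < α0, beq x (pt (F (d i)))) ∧
  (∀ (a : BSet B) F, bmem a (Xn F) =
    IsX F (tr a) ⊓ ⨅ x : BSet B, (bmem x a ⇨ bmem x W2n)) ∧
  (∀ z z' : Th → B, beq (pt z) (pt z') = ⨅ α, bihimp (z α) (z' α)) ∧
  (∀ α : Th, bmem (chk α) (W2n : BSet B) = ⊤)

/-- E2: the basic properties of the model. -/
def E2Ba : Prop := ∀ (B : Type 1) [CompleteBooleanAlgebra B],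
  ∃ V : ℕ → List (Wd B) → Wd B → B, ∀ H G, H.Countable → H.Nonempty → Flt G → Gen V H G →
    ∃ (M : Type) (E : M → M → Prop) (π : BSet B → M), Base H G E π

section

variable {B : Type 1} [CompleteBooleanAlgebra B]

/-- E3: consequences of `Base` on pairs and agreement. -/
def E3De : Prop := ∀ (B : Type 1) [CompleteBooleanAlgebra B] (H : Set (Wd B)) (G : Set B) (M : Type)
  (E : M → M → Prop) (π : BSet B → M), Base H G E π →
  (∀ p p' x y, IsPair E p x y → IsPair E p' x y → p = p') ∧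
  (∀ p x y x' y', IsPair E p x y → IsPair E p x' y' → x = x' ∧ y = y') ∧
  (∀ a x y, HN H a → HN H x → HN H y → (App E (π a) (π x) (π y) ↔ bmem (opr x y) a ∈ G)) ∧
  (∀ a a' (K : Finset Th), HN H a → HN H a' → (∀ α ∈ K, HT H α) →
    (agr K (tr a) (tr a') ∈ G ↔ ∀ α ∈ K, (E (π (chk α)) (π a) ↔ E (π (chk α)) (π a')))) ∧
  (∀ a b : M, (∀ x, E x a ↔ E x b) → a = b)

/-- E4: the properties of the names of relations. -/
def E4Fn : Prop := ∀ (B : Type 1) [CompleteBooleanAlgebra B] (A : Th → BSet B)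
  (R : Th → Th → Th → B), Mod B fun H G _ E π => ∀ α, HT H α →
    (∀ β, HT H β → HN H (A β)) ∧ HN H (fnm A (R α)) ∧
    (∀ x y, App E (π (fnm A (R α))) x y ↔
      ∃ β ξ, HT H β ∧ HT H ξ ∧ x = π (A β) ∧ y = π (chk ξ) ∧ R α β ξ ∈ G) ∧
    ∀ p, E p (π (fnm A (R α))) → ∃ β ξ, HT H β ∧ HT H ξ ∧ IsPair E p (π (A β)) (π (chk ξ)) ∧
      R α β ξ ∈ G

/-- E5: injections from names. -/
def E5In : Prop := ∀ (B : Type 1) [CompleteBooleanAlgebra B] (A : Th → BSet B)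
  (R : Th → Th → Th → B) (κ : Th), Mod B fun H _ _ E π => ∀ α, HT H α →
    (∀ β < α, (⨆ ξ, ⨆ _ : ξ < κ, R α β ξ) = ⊤) →
    (∀ β ξ, R α β ξ ≠ ⊥ → β < α ∧ ξ < κ) →
    (∀ β ξ ξ', ξ ≠ ξ' → R α β ξ ⊓ R α β ξ' = ⊥) →
    (∀ β β' ξ, β ≠ β' → R α β ξ ⊓ R α β' ξ = ⊥) →
    (∀ β < α, ∀ β' < α, β ≠ β' → beq (A β) (A β') = ⊥) →
    ∀ a b, (∀ m, E m a ↔ ∃ β, HT H β ∧ β < α ∧ m = π (A β)) →
      (∀ m, E m b ↔ ∃ ξ, HT H ξ ∧ ξ < κ ∧ m = π (chk ξ)) → Inj E a b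

/-- E6: no injections. -/
def E6No : Prop := ∀ (B : Type 1) [CompleteBooleanAlgebra B] (P Q : Th → Prop), NoInj B P Q →
  Mod B fun H _ _ E π => ∀ a b, (∀ m, E m a ↔ ∃ α, HT H α ∧ P α ∧ m = π (chk α)) →
    (∀ m, E m b ↔ ∃ ξ, HT H ξ ∧ Q ξ ∧ m = π (chk ξ)) → ¬ Inj E a b

/-- E7: the properties of the space in the model. -/
def E7Xb : Prop := ∀ (B : Type 1) [CompleteBooleanAlgebra B] (F : Br → Th → B),
  Mod B fun H G _ E π => XBase F H G E π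

/-- E8: `w1` is `ω₁` and `w2` is `ω₂`. -/
def E8Al : Prop := ∀ (B : Type 1) [CompleteBooleanAlgebra B] (F : Br → Th → B) (α0 : Th)
  (d : Th → Br) (J : Th → Th → Th → B), Sys B F α0 d J →
  Mod B fun _ _ _ E π => IsAleph1 E (π (chk o1)) ∧ IsAleph2 E (π (chk o1)) (π W2n)

/-- E9: the space is closed. -/
def E9Cl : Prop := ∀ (B : Type 1) [CompleteBooleanAlgebra B] (F : Br → Th → B),
  Mod B fun _ _ _ E π => (∀ x, E x (π (Xn F)) → Sub E x (π W2n)) ∧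
    ∀ x, InCl E (π W2n) (fun y => E y (π (Xn F))) x → E x (π (Xn F))

/-- E10: the density of the space. -/
def E10Dn : Prop := ∀ (B : Type 1) [CompleteBooleanAlgebra B] (F : Br → Th → B) (α0 : Th)
  (d : Th → Br) (J : Th → Th → Th → B), Sys B F α0 d J →
  Mod B fun _ _ _ E π => ∃ D, Sub E D (π (Xn F)) ∧ Inj E D (π (chk o1)) ∧
    ∀ x, E x (π (Xn F)) → InCl E (π W2n) (fun y => E y D) x

/-- E11: there is no free sequence. -/
def E11Fr : Prop := ∀ (B : Type 1) [CompleteBooleanAlgebra B] (F : Br → Th → B) (α0 : Th)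
  (d : Th → Br) (J : Th → Th → Th → B), Sys B F α0 d J →
  Mod B fun _ _ _ E π => ∀ g, IsFun E g (π W2n) (π (Xn F)) → ∃ α z, E α (π W2n) ∧
    E z (π (Xn F)) ∧
    InCl E (π W2n) (fun y => ∃ β, E β (π W2n) ∧ E β α ∧ App E g β y) z ∧
    InCl E (π W2n) (fun y => ∃ β, E β (π W2n) ∧ ¬ E β α ∧ App E g β y) z

/-- E12: the cardinality of the space. -/
def E12Ca : Prop := ∀ (B : Type 1) [CompleteBooleanAlgebra B] (F : Br → Th → B) (α0 : Th)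
  (d : Th → Br) (J : Th → Th → Th → B), Sys B F α0 d J →
  Mod B fun _ _ _ E π => ∀ Q, (∀ y, E y Q ↔ Sub E y (π (chk o1))) → ¬ Inj E (π (Xn F)) Q

end

end Pool.Agent.CTD
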