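import Pool.Agent.Helper94_CTD.PA2a

/-!
# Module A2b (helper76): separation and collection in the Boolean valued universe
-/

namespace Pool.Agent.CTD.P76

open Pool.Agent.FL

universe u

variable {B : Type u} [CompleteBooleanAlgebra B]

theorem separation (F : Fx B) (f : BSet B → B) (hf : ∀ x x', beq x x' ⊓ f x ≤ f x')
    (a : BSet B) : ∃ b : BSet B, ∀ c, bmem c b = bmem c a ⊓ f c := by
  refine ⟨BSet.mk (idx a) (elt a) (fun i => wt a i ⊓ f (elt a i)), fun c => ?_⟩
  show (⨆ i : idx a, (wt a i ⊓ f (elt a i)) ⊓ beq c (elt a i)) = _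
  rw [bmem_eq c a, iSup_inf_eq]
  congr 1
  funext i
  apply le_antisymm
  · refine le_inf (le_inf (inf_le_left.trans inf_le_left) inf_le_right) ?_
    refine le_trans (le_inf ?_ (inf_le_left.trans inf_le_right)) (hf (elt a i) c)
    exact F.sym inf_le_right
  · refine le_inf (le_inf (inf_le_left.trans inf_le_left) ?_) (inf_le_left.trans inf_le_right)
    exact le_trans (le_inf (inf_le_left.trans inf_le_right) inf_le_right) (hf c (elt a i))

theorem collection (F : Fx B) (f : BSet B → BSet B → B)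
    (hf : ∀ x x' y, beq x x' ⊓ f x y ≤ f x' y) (a : BSet B) :
    ∃ b : BSet B, ∀ x, bmem x a ⊓ (⨆ y : BSet B, f x y) ≤ ⨆ y : BSet B, bmem y b ⊓ f x y := by
  classical
  let y0 : idx a × B → BSet B := fun p =>
    if h : ∃ y, f (elt a p.1) y = p.2 then h.choose else a
  refine ⟨BSet.mk (idx a × B) y0 (fun _ => ⊤), fun x => ?_⟩
  have h1 : bmem x a ⊓ (⨆ y : BSet B, f x y) ≤ bmem x a := inf_le_left
  conv_rhs at h1 => rw [bmem_eq]
  refine sup_elim h1 fun i r h2 h3 => ?_
  have h4 : r ≤ ⨆ y : BSet B, f x y := h2.trans inf_le_right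
  have h5 : r ≤ beq x (elt a i) := h3.trans inf_le_right
  refine sup_elim h4 fun y r' h6 h7 => ?_
  have h8 : r' ≤ f (elt a i) y := (le_inf (h6.trans h5) h7).trans (hf x (elt a i) y)
  have hex : ∃ y', f (elt a i) y' = f (elt a i) y := ⟨y, rfl⟩
  have h9 : y0 (i, f (elt a i) y) = hex.choose := dif_pos hex
  have h10 : f (elt a i) (y0 (i, f (elt a i) y)) = f (elt a i) y := by
    rw [h9]
    exact hex.choose_spec
  have h11 : r' ≤ f x (y0 (i, f (elt a i) y)) := by
    refine (le_inf (F.sym (h6.trans h5)) ?_).trans (hf (elt a i) x _)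
    rw [h10]
    exact h8
  have h12 : (⊤ : B) ≤ bmem (y0 (i, f (elt a i) y)) (BSet.mk (idx a × B) y0 (fun _ => ⊤)) :=
    F.elt_mem (BSet.mk (idx a × B) y0 (fun _ => ⊤)) (i, f (elt a i) y)
  exact (le_inf (le_top.trans h12) h11).trans (le_iSup (fun y : BSet B =>
    bmem y (BSet.mk (idx a × B) y0 (fun _ => ⊤)) ⊓ f x y) (y0 (i, f (elt a i) y)))

theorem a2b (h1 : A1Stmt.{u}) : A2bStmt.{u} := by
  intro B _
  have F := fx h1 B
  exact ⟨fun f hf a => separation F f hf a, fun f hf _ a => collection F f hf a⟩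

end Pool.Agent.CTD.P76
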