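import Pool.Agent.Helper94_CTD.PA2a

/-!
# Module A2c (helper76): the axiom of choice in the Boolean valued universe
-/

namespace Pool.Agent.CTD.P76

open Pool.Agent.FL

universe u

variable {B : Type u} [CompleteBooleanAlgebra B]

/-- the least index argument -/
theorem least {W : Type u} (lt : W → W → Prop) (hwf : WellFounded lt) (t : W → B) :
    (⨆ w, t w) ≤ ⨆ w, t w ⊓ ⨅ w', ⨅ (_ : lt w' w), (t w')ᶜ := by
  refine iSup_le fun w => ?_
  induction w using hwf.induction with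
  | _ w ih =>
    refine em_elim (⨅ w', ⨅ (_ : lt w' w), (t w')ᶜ) ?_ ?_
    · intro r' h1 h2
      exact (le_inf h1 h2).trans (le_iSup (fun w => t w ⊓ ⨅ w', ⨅ (_ : lt w' w), (t w')ᶜ) w)
    · intro r' _ h2
      rw [compl_iInf] at h2
      refine sup_elim h2 fun w' r'' _ h3 => ?_
      rw [compl_iInf] at h3
      refine sup_elim h3 fun hw' r3 _ h4 => ?_
      rw [compl_compl] at h4
      exact h4.trans (ih w' hw')

theorem choice (F : Fx B) (a : BSet B) : ∃ c : BSet B,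
    (⨅ x : BSet B, (bmem x a ⇨ ⨆ y : BSet B, bmem y x)) ⊓
    (⨅ x : BSet B, ⨅ x' : BSet B, ((bmem x a ⊓ bmem x' a ⊓ ⨆ y : BSet B, bmem y x ⊓ bmem y x') ⇨
      beq x x')) ≤
    ⨅ x : BSet B, (bmem x a ⇨ ⨆ y : BSet B, (bmem y x ⊓ bmem y c ⊓
      ⨅ z : BSet B, ((bmem z x ⊓ bmem z c) ⇨ beq z y))) := by
  classical
  let W : Type u := Σ i : idx a, idx (elt a i)
  obtain ⟨lt, hlt⟩ : ∃ lt : W → W → Prop, IsWellOrder W lt := ⟨WellOrderingRel, inferInstance⟩
  have hwf : WellFounded lt := hlt.wf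
  let e : W → BSet B := fun w => elt (elt a w.1) w.2
  let v : W → B := fun w => wt a w.1 ⊓ wt (elt a w.1) w.2 ⊓
    ⨅ w', ⨅ (_ : lt w' w), (wt a w'.1 ⊓ wt (elt a w'.1) w'.2 ⊓
      beq (elt a w'.1) (elt a w.1))ᶜ
  refine ⟨BSet.mk W e v, ?_⟩
  set c : BSet B := BSet.mk W e v with hc
  have hcmem : ∀ z, bmem z c = ⨆ w, v w ⊓ beq z (e w) := fun z => rfl
  refine le_iInf fun x => himp_intro fun r h1 h2 => ?_
  have hD1 : r ≤ ⨅ x : BSet B, (bmem x a ⇨ ⨆ y : BSet B, bmem y x) := h1.trans inf_le_left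
  have hD2 : r ≤ ⨅ x : BSet B, ⨅ x' : BSet B, ((bmem x a ⊓ bmem x' a ⊓
    ⨆ y : BSet B, bmem y x ⊓ bmem y x') ⇨ beq x x') := h1.trans inf_le_right
  have hxa : r ≤ bmem x a := h2
  rw [bmem_eq] at h2
  refine sup_elim h2 fun i r1 hr1 h3 => ?_
  have hbi : r1 ≤ wt a i := h3.trans inf_le_left
  have hxi : r1 ≤ beq x (elt a i) := h3.trans inf_le_right
  have hne : r1 ≤ ⨆ y : BSet B, bmem y (elt a i) := by
    refine himp_elim ((hr1.trans hD1).trans (iInf_le _ (elt a i))) ?_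
    exact hbi.trans (F.elt_mem a i)
  -- the index set
  let t : W → B := fun w => wt a w.1 ⊓ wt (elt a w.1) w.2 ⊓ beq (elt a w.1) x
  have ht : r1 ≤ ⨆ w, t w := by
    refine sup_elim hne fun y r2 hr2 h4 => ?_
    rw [bmem_eq] at h4
    refine sup_elim h4 fun k r3 hr3 h5 => ?_
    refine le_trans ?_ (le_iSup t ⟨i, k⟩)
    refine le_inf (le_inf ?_ ?_) ?_
    · exact hr3.trans (hr2.trans hbi)
    · exact h5.trans inf_le_left
    · exact F.sym (hr3.trans (hr2.trans hxi))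
  refine sup_elim (ht.trans (least lt hwf t)) fun w r2 hr2 h4 => ?_
  have htw : r2 ≤ t w := h4.trans inf_le_left
  have hmin : ∀ w', lt w' w → r2 ≤ (t w')ᶜ := fun w' hw' =>
    (h4.trans inf_le_right).trans ((iInf_le _ w').trans (iInf_le _ hw'))
  have hw1 : r2 ≤ wt a w.1 := htw.trans (inf_le_left.trans inf_le_left)
  have hw2 : r2 ≤ wt (elt a w.1) w.2 := htw.trans (inf_le_left.trans inf_le_right)
  have hw3 : r2 ≤ beq (elt a w.1) x := htw.trans inf_le_right
  refine le_trans ?_ (le_iSup (fun y : BSet B => (bmem y x ⊓ bmem y c ⊓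
      ⨅ z : BSet B, ((bmem z x ⊓ bmem z c) ⇨ beq z y))) (e w))
  have hvw : r2 ≤ v w := by
    refine le_inf (le_inf hw1 hw2) ?_
    refine le_iInf fun w' => le_iInf fun hw' => ?_
    refine compl_intro fun r3 hr3 h5 => ?_
    refine compl_elim (hr3.trans (hmin w' hw')) ?_
    refine le_inf (h5.trans inf_le_left) ?_
    exact F.tr (h5.trans inf_le_right) (hr3.trans hw3)
  refine le_inf (le_inf ?_ ?_) ?_
  · exact F.mem_r hw3 (hw2.trans (F.elt_mem (elt a w.1) w.2))
  · exact hvw.trans (F.elt_mem c w)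
  · refine le_iInf fun z => himp_intro fun r3 hr3 h5 => ?_
    have hzx : r3 ≤ bmem z x := h5.trans inf_le_left
    have hzc : r3 ≤ bmem z c := h5.trans inf_le_right
    rw [hcmem] at hzc
    refine sup_elim hzc fun w' r4 hr4 h6 => ?_
    have hv' : r4 ≤ v w' := h6.trans inf_le_left
    have hze : r4 ≤ beq z (e w') := h6.trans inf_le_right
    have hw1' : r4 ≤ wt a w'.1 := hv'.trans (inf_le_left.trans inf_le_left)
    have hw2' : r4 ≤ wt (elt a w'.1) w'.2 := hv'.trans (inf_le_left.trans inf_le_right)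
    have hmin' : ∀ w'', lt w'' w' → r4 ≤ (wt a w''.1 ⊓ wt (elt a w''.1) w''.2 ⊓
        beq (elt a w''.1) (elt a w'.1))ᶜ := fun w'' hw'' =>
      (hv'.trans inf_le_right).trans ((iInf_le _ w'').trans (iInf_le _ hw''))
    have hr : r4 ≤ r := hr4.trans (hr3.trans (hr2.trans hr1))
    have hz' : r4 ≤ bmem z (elt a w'.1) :=
      F.mem_l (F.sym hze) (hw2'.trans (F.elt_mem (elt a w'.1) w'.2))
    have heq : r4 ≤ beq x (elt a w'.1) := by
      refine himp_elim ((hr.trans hD2).trans ((iInf_le _ x).trans (iInf_le _ (elt a w'.1)))) ?_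
      refine le_inf (le_inf (hr.trans hxa) (hw1'.trans (F.elt_mem a w'.1))) ?_
      exact (le_inf (hr4.trans hzx) hz').trans
        (le_iSup (fun y : BSet B => bmem y x ⊓ bmem y (elt a w'.1)) z)
    rcases trichotomous_of lt w' w with h7 | h7 | h7
    · refine compl_elim (hr4.trans (hr3.trans (hmin w' h7))) ?_
      exact le_inf (le_inf hw1' hw2') (F.sym heq)
    · rw [← h7]
      exact hze
    · refine compl_elim (hmin' w h7) ?_
      refine le_inf (le_inf (hr4.trans (hr3.trans hw1)) (hr4.trans (hr3.trans hw2))) ?_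
      exact F.tr (hr4.trans (hr3.trans hw3)) heq

theorem a2c (h1 : A1Stmt.{u}) : A2cStmt.{u} := by
  intro B _ a
  exact choice (fx h1 B) a

end Pool.Agent.CTD.P76
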