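import Pool.Agent.Helper94_CTD.PStmts

/-!
# The model existence theorem (module A4)
-/

namespace Pool.Agent.CTD.P9

open Pool.Agent.FL

universe u

open Function

/-! ### Derived connectives -/

/-- negation -/
def fneg (φ : Fml) : Fml := .imp φ .bot
/-- conjunction -/
def fand (φ ψ : Fml) : Fml := fneg (.imp φ (fneg ψ))
/-- disjunction -/
def for' (φ ψ : Fml) : Fml := .imp (fneg φ) ψ
/-- equivalence -/
def fiff (φ ψ : Fml) : Fml := fand (.imp φ ψ) (.imp ψ φ)
/-- existential quantifier -/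
def fex (i : ℕ) (φ : Fml) : Fml := fneg (.all i (fneg φ))

section sat

variable {M : Type*} (E : M → M → Prop)

theorem sat_mem (i j : ℕ) (s : ℕ → M) : (Fml.mem i j).sat E s ↔ E (s i) (s j) := Iff.rfl
theorem sat_eq (i j : ℕ) (s : ℕ → M) : (Fml.eq i j).sat E s ↔ s i = s j := Iff.rfl
theorem sat_bot (s : ℕ → M) : (Fml.bot).sat E s ↔ False := Iff.rfl
theorem sat_imp (φ ψ : Fml) (s : ℕ → M) :
    (Fml.imp φ ψ).sat E s ↔ (φ.sat E s → ψ.sat E s) := Iff.rfl
theorem sat_all (i : ℕ) (φ : Fml) (s : ℕ → M) :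
    (Fml.all i φ).sat E s ↔ ∀ a, φ.sat E (update s i a) := Iff.rfl
theorem sat_neg (φ : Fml) (s : ℕ → M) : (fneg φ).sat E s ↔ ¬ φ.sat E s := Iff.rfl
theorem sat_and (φ ψ : Fml) (s : ℕ → M) :
    (fand φ ψ).sat E s ↔ φ.sat E s ∧ ψ.sat E s := by
  unfold fand; rw [sat_neg, sat_imp, sat_neg]; tauto
theorem sat_or (φ ψ : Fml) (s : ℕ → M) :
    (for' φ ψ).sat E s ↔ φ.sat E s ∨ ψ.sat E s := by
  unfold for'; rw [sat_imp, sat_neg]; tauto
theorem sat_iff (φ ψ : Fml) (s : ℕ → M) :
    (fiff φ ψ).sat E s ↔ (φ.sat E s ↔ ψ.sat E s) := by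
  unfold fiff; rw [sat_and, sat_imp, sat_imp]; tauto
theorem sat_ex (i : ℕ) (φ : Fml) (s : ℕ → M) :
    (fex i φ).sat E s ↔ ∃ a, φ.sat E (update s i a) := by
  unfold fex; rw [sat_neg, sat_all]; simp only [sat_neg]; push Not; rfl

end sat

section val

variable {B : Type*} [CompleteBooleanAlgebra B]

theorem val_mem (i j : ℕ) (s : ℕ → BSet B) : (Fml.mem i j).val s = bmem (s i) (s j) := rfl
theorem val_eq (i j : ℕ) (s : ℕ → BSet B) : (Fml.eq i j).val s = beq (s i) (s j) := rfl
theorem val_bot (s : ℕ → BSet B) : (Fml.bot).val s = ⊥ := rfl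
theorem val_imp (φ ψ : Fml) (s : ℕ → BSet B) : (Fml.imp φ ψ).val s = (φ.val s ⇨ ψ.val s) := rfl
theorem val_all (i : ℕ) (φ : Fml) (s : ℕ → BSet B) :
    (Fml.all i φ).val s = ⨅ a : BSet B, φ.val (update s i a) := rfl
theorem val_neg (φ : Fml) (s : ℕ → BSet B) : (fneg φ).val s = (φ.val s)ᶜ := by
  unfold fneg; rw [val_imp, val_bot, himp_bot]
theorem val_and (φ ψ : Fml) (s : ℕ → BSet B) : (fand φ ψ).val s = φ.val s ⊓ ψ.val s := by
  unfold fand; rw [val_neg, val_imp, val_neg, himp_eq, compl_sup, compl_compl, compl_compl,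
    inf_comm]
theorem val_or (φ ψ : Fml) (s : ℕ → BSet B) : (for' φ ψ).val s = φ.val s ⊔ ψ.val s := by
  unfold for'; rw [val_imp, val_neg, himp_eq, compl_compl, sup_comm]
theorem val_iff (φ ψ : Fml) (s : ℕ → BSet B) :
    (fiff φ ψ).val s = (φ.val s ⇨ ψ.val s) ⊓ (ψ.val s ⇨ φ.val s) := by
  unfold fiff; rw [val_and, val_imp, val_imp]
theorem val_ex (i : ℕ) (φ : Fml) (s : ℕ → BSet B) :
    (fex i φ).val s = ⨆ a : BSet B, φ.val (update s i a) := by
  unfold fex; rw [val_neg, val_all, compl_iInf]; simp only [val_neg, compl_compl]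

end val

/-! ### Bound on the variables of a formula -/

/-- a bound for the variables -/
def bd : Fml → ℕ
  | .mem i j => max i j + 1
  | .eq i j => max i j + 1
  | .bot => 0
  | .imp φ ψ => max (bd φ) (bd ψ)
  | .all i φ => max (i + 1) (bd φ)

theorem sat_bd {M : Type*} (E : M → M → Prop) (φ : Fml) : ∀ (s t : ℕ → M),
    (∀ i < bd φ, s i = t i) → (φ.sat E s ↔ φ.sat E t) := by
  induction φ with
  | mem i j =>
    intro s t h
    rw [sat_mem, sat_mem, h i (by simp only [bd]; omega), h j (by simp only [bd]; omega)]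
  | eq i j =>
    intro s t h
    rw [sat_eq, sat_eq, h i (by simp only [bd]; omega), h j (by simp only [bd]; omega)]
  | bot => intro s t h; rfl
  | imp φ ψ h1 h2 =>
    intro s t h
    rw [sat_imp, sat_imp, h1 s t fun i hi => h i (by simp only [bd]; omega),
      h2 s t fun i hi => h i (by simp only [bd]; omega)]
  | all k φ h1 =>
    intro s t h
    rw [sat_all, sat_all]
    refine forall_congr' fun a => h1 _ _ fun i hi => ?_
    by_cases hk : i = k
    · subst hk; simp
    · rw [update_of_ne hk, update_of_ne hk]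
      exact h i (by simp only [bd]; omega)

theorem val_bd {B : Type*} [CompleteBooleanAlgebra B] (φ : Fml) : ∀ (s t : ℕ → BSet B),
    (∀ i < bd φ, s i = t i) → φ.val s = φ.val t := by
  induction φ with
  | mem i j =>
    intro s t h
    rw [val_mem, val_mem, h i (by simp only [bd]; omega), h j (by simp only [bd]; omega)]
  | eq i j =>
    intro s t h
    rw [val_eq, val_eq, h i (by simp only [bd]; omega), h j (by simp only [bd]; omega)]
  | bot => intro s t h; rfl
  | imp φ ψ h1 h2 =>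
    intro s t h
    rw [val_imp, val_imp, h1 s t fun i hi => h i (by simp only [bd]; omega),
      h2 s t fun i hi => h i (by simp only [bd]; omega)]
  | all k φ h1 =>
    intro s t h
    rw [val_all, val_all]
    refine iInf_congr fun a => h1 _ _ fun i hi => ?_
    by_cases hk : i = k
    · subst hk; simp
    · rw [update_of_ne hk, update_of_ne hk]
      exact h i (by simp only [bd]; omega)

/-! ### The setup -/

/-- The data of a truth set together with the quotient. -/
structure Setup {B : Type u} [CompleteBooleanAlgebra B] (N : Set (BSet B)) (G : Set B)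
    {M : Type} (E : M → M → Prop) (π : BSet B → M) : Prop where
  up : ∀ b ∈ G, ∀ c, b ≤ c → c ∈ G
  inf : ∀ b ∈ G, ∀ c ∈ G, b ⊓ c ∈ G
  bot : ⊥ ∉ G
  dec : ∀ (φ : Fml) (s : ℕ → BSet B), (∀ i, s i ∈ N) → φ.val s ∈ G ∨ (φ.val s)ᶜ ∈ G
  wit : ∀ (φ : Fml) (s : ℕ → BSet B) (i : ℕ), (∀ j, s j ∈ N) →
      (⨆ a : BSet B, φ.val (Function.update s i a)) ∈ G →
      ∃ a ∈ N, φ.val (Function.update s i a) ∈ G
  surj : ∀ m : M, ∃ a ∈ N, π a = m
  eqv : ∀ a ∈ N, ∀ b ∈ N, (π a = π b ↔ beq a b ∈ G)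
  mem : ∀ a ∈ N, ∀ b ∈ N, (E (π a) (π b) ↔ bmem a b ∈ G)

namespace Setup

variable {B : Type u} [CompleteBooleanAlgebra B] {N : Set (BSet B)} {G : Set B}
  {M : Type} {E : M → M → Prop} {π : BSet B → M} (S : Setup N G E π)

include S

theorem los (φ : Fml) : ∀ (s : ℕ → BSet B), (∀ i, s i ∈ N) →
    (φ.sat E (fun i => π (s i)) ↔ φ.val s ∈ G) := by
  induction φ with
  | mem i j => intro s hs; exact S.mem _ (hs i) _ (hs j)
  | eq i j => intro s hs; exact S.eqv _ (hs i) _ (hs j)
  | bot => intro s hs; exact ⟨fun h => h.elim, fun h => S.bot h⟩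
  | imp φ ψ h1 h2 =>
    intro s hs
    rw [sat_imp, val_imp, h1 s hs, h2 s hs]
    constructor
    · intro h
      rcases S.dec φ s hs with h3 | h3
      · exact S.up _ (h h3) _ le_himp
      · refine S.up _ h3 _ ?_
        rw [himp_eq]; exact le_sup_right
    · intro h h3
      refine S.up _ (S.inf _ h _ h3) _ ?_
      rw [inf_comm, inf_himp]; exact inf_le_right
  | all k φ h1 =>
    intro s hs
    have hup : ∀ a ∈ N, ∀ i, update s k a i ∈ N := by
      intro a ha i
      by_cases hk : i = k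
      · subst hk; simpa using ha
      · rw [update_of_ne hk]; exact hs i
    have hpi : ∀ a, update (fun i => π (s i)) k (π a) = fun i => π (update s k a i) := by
      intro a
      funext i
      by_cases hk : i = k
      · subst hk; simp
      · rw [update_of_ne hk, update_of_ne hk]
    rw [sat_all, val_all]
    constructor
    · intro h
      rcases S.dec (.all k φ) s hs with h3 | h3
      · exact h3
      · exfalso
        have h4 : (⨆ a : BSet B, (fneg φ).val (update s k a)) ∈ G := by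
          rw [val_all, compl_iInf] at h3
          simpa only [val_neg] using h3
        obtain ⟨a, ha, h5⟩ := S.wit (fneg φ) s k hs h4
        rw [val_neg] at h5
        have h6 := h (π a)
        rw [hpi, h1 _ (hup a ha)] at h6
        have h7 := S.inf _ h6 _ h5
        rw [inf_compl_self] at h7
        exact S.bot h7
    · intro h m
      obtain ⟨a, ha, rfl⟩ := S.surj m
      rw [hpi, h1 _ (hup a ha)]
      exact S.up _ h _ (iInf_le _ a)

theorem lift (t : ℕ → M) : ∃ s : ℕ → BSet B, (∀ i, s i ∈ N) ∧ t = fun i => π (s i) := by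
  choose f hf hf2 using S.surj
  exact ⟨fun i => f (t i), fun i => hf _, by funext i; rw [hf2]⟩

theorem top_mem (t : ℕ → M) : (⊤ : B) ∈ G := by
  obtain ⟨s, hs, -⟩ := S.lift t
  rcases S.dec .bot s hs with h | h
  · exact (S.bot h).elim
  · exact S.up _ h _ le_top

theorem of_top (φ : Fml) (h : ∀ s : ℕ → BSet B, φ.val s = ⊤) (t : ℕ → M) : φ.sat E t := by
  obtain ⟨s, hs, rfl⟩ := S.lift t
  rw [S.los φ s hs, h s]
  exact S.top_mem (fun i => π (s i))

theorem or_mem {a b : B} (ha : a ∈ G ∨ aᶜ ∈ G) (h : a ⊔ b ∈ G) : a ∈ G ∨ b ∈ G := by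
  rcases ha with h1 | h1
  · exact Or.inl h1
  · refine Or.inr (S.up _ (S.inf _ h _ h1) _ ?_)
    rw [inf_sup_right, inf_compl_self, bot_sup_eq]
    exact inf_le_left

/-! ### The axioms -/

theorem ext (h1 : A1Stmt.{u}) (a b : M) (h : ∀ c, E c a ↔ E c b) : a = b := by
  have h2 := S.of_top (.imp (.all 2 (fiff (.mem 2 0) (.mem 2 1))) (.eq 0 1)) (fun s => by
    rw [val_imp, himp_eq_top_iff, val_all, val_eq]
    simp only [val_iff, val_mem]
    have := (h1 B).2.2.2.2.2.2.1 (s 0) (s 1)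
    simpa [update_apply] using this) (fun n => if n = 0 then a else b)
  rw [sat_imp, sat_all, sat_eq] at h2
  simp only [sat_iff, sat_mem] at h2
  simp at h2
  exact h2 h

theorem found (h2 : A2aStmt.{u}) (a : M) (h : ∃ c, E c a) : ∃ c, E c a ∧ ∀ d, E d c → ¬ E d a := by
  have h3 := S.of_top (.imp (fex 1 (.mem 1 0)) (fex 1 (fand (.mem 1 0)
    (.all 2 (.imp (.mem 2 1) (fneg (.mem 2 0))))))) (fun s => by
    rw [val_imp, himp_eq_top_iff, val_ex, val_ex]
    simp only [val_and, val_mem, val_all, val_imp, val_neg]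
    have := (h2 B).1 (s 0)
    simpa [update_apply] using this) (fun _ => a)
  rw [sat_imp, sat_ex, sat_ex] at h3
  simp only [sat_and, sat_mem, sat_all, sat_imp, sat_neg] at h3
  simp [update_apply] at h3
  obtain ⟨c, hc⟩ := h
  exact h3 c hc

theorem pair (h2 : A2aStmt.{u}) (a b : M) : ∃ c, ∀ d, E d c ↔ d = a ∨ d = b := by
  have h3 := S.of_top (fex 2 (.all 3 (fiff (.mem 3 2) (for' (.eq 3 0) (.eq 3 1))))) (fun s => by
    obtain ⟨c, hc⟩ := (h2 B).2.1 (s 0) (s 1)
    rw [val_ex, eq_top_iff]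
    refine le_iSup_of_le c ?_
    simp only [val_all, val_iff, val_or, val_mem, val_eq]
    refine le_iInf fun d => ?_
    simp [update_apply, hc d]) (fun n => if n = 0 then a else b)
  rw [sat_ex] at h3
  simp only [sat_all, sat_iff, sat_or, sat_mem, sat_eq] at h3
  simpa [update_apply] using h3

theorem union (h2 : A2aStmt.{u}) (a : M) : ∃ b, ∀ d, E d b ↔ ∃ c, E c a ∧ E d c := by
  have h3 := S.of_top (fex 1 (.all 2 (fiff (.mem 2 1) (fex 3 (fand (.mem 3 0) (.mem 2 3))))))
    (fun s => by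
    obtain ⟨c, hc⟩ := (h2 B).2.2.1 (s 0)
    rw [val_ex, eq_top_iff]
    refine le_iSup_of_le c ?_
    simp only [val_all, val_iff, val_ex, val_and, val_mem]
    refine le_iInf fun d => ?_
    simp [update_apply, hc d]) (fun _ => a)
  rw [sat_ex] at h3
  simp only [sat_all, sat_iff, sat_ex, sat_and, sat_mem] at h3
  simpa [update_apply] using h3

theorem power (h2 : A2aStmt.{u}) (a : M) : ∃ b, ∀ d, E d b ↔ ∀ c, E c d → E c a := by
  have h3 := S.of_top (fex 1 (.all 2 (fiff (.mem 2 1) (.all 3 (.imp (.mem 3 2) (.mem 3 0))))))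
    (fun s => by
    obtain ⟨c, hc⟩ := (h2 B).2.2.2 (s 0)
    rw [val_ex, eq_top_iff]
    refine le_iSup_of_le c ?_
    simp only [val_all, val_iff, val_imp, val_mem]
    refine le_iInf fun d => ?_
    simp [update_apply, hc d]) (fun _ => a)
  rw [sat_ex] at h3
  simp only [sat_all, sat_iff, sat_imp, sat_mem] at h3
  simpa [update_apply] using h3

theorem choice (h2 : A2cStmt.{u}) (a : M) (h4 : ∀ x, E x a → ∃ y, E y x)
    (h5 : ∀ x x', E x a → E x' a → (∃ y, E y x ∧ E y x') → x = x') :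
    ∃ c, ∀ x, E x a → ∃! y, E y x ∧ E y c := by
  have h3 := S.of_top (.imp (fand (.all 1 (.imp (.mem 1 0) (fex 2 (.mem 2 1))))
      (.all 1 (.all 2 (.imp (fand (fand (.mem 1 0) (.mem 2 0)) (fex 3 (fand (.mem 3 1) (.mem 3 2))))
        (.eq 1 2)))))
      (fex 4 (.all 1 (.imp (.mem 1 0) (fex 2 (fand (fand (.mem 2 1) (.mem 2 4))
        (.all 3 (.imp (fand (.mem 3 1) (.mem 3 4)) (.eq 3 2)))))))))
    (fun s => by
    obtain ⟨c, hc⟩ := h2 B (s 0)
    rw [val_imp, himp_eq_top_iff, val_ex]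
    refine le_iSup_of_le c ?_
    simp only [val_all, val_imp, val_ex, val_and, val_mem, val_eq]
    simpa [update_apply] using hc) (fun _ => a)
  rw [sat_imp, sat_ex] at h3
  simp only [sat_all, sat_imp, sat_ex, sat_and, sat_mem, sat_eq] at h3
  simp [update_apply] at h3
  obtain ⟨c, hc⟩ := h3 h4 (fun x x' hx hx' y hy hy' => h5 x x' hx hx' ⟨y, hy, hy'⟩)
  refine ⟨c, fun x hx => ?_⟩
  obtain ⟨y, ⟨hy1, hy2⟩, hy3⟩ := hc x hx
  exact ⟨y, ⟨hy1, hy2⟩, fun z hz => hy3 z hz.1 hz.2⟩

theorem sep (h1 : A1Stmt.{u}) (h2 : A2bStmt.{u}) (φ : Fml) (t : ℕ → M) (a : M) : ∃ b, ∀ c,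
    E c b ↔ E c a ∧ φ.sat E (Function.update t 0 c) := by
  set k := bd φ + 1 with hk
  have hk0 : k ≠ 0 := by omega
  have h3 := S.of_top (fex (k + 1) (.all 0 (fiff (.mem 0 (k + 1)) (fand (.mem 0 k) φ))))
    (fun s => by
    obtain ⟨b, hb⟩ := (h2 B).1 (fun x => φ.val (update s 0 x))
      (fun x x' => (h1 B).2.2.2.2.2.1 φ s 0 x x') (s k)
    rw [val_ex, eq_top_iff]
    refine le_iSup_of_le b ?_
    simp only [val_all, val_iff, val_and, val_mem]
    refine le_iInf fun c => ?_
    have e1 : φ.val (update (update s (k + 1) b) 0 c) = φ.val (update s 0 c) := by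
      apply val_bd
      intro i hi
      by_cases h0 : i = 0
      · subst h0; simp
      · rw [update_of_ne h0, update_of_ne h0, update_of_ne (by omega)]
    have e2 : update (update s (k + 1) b) 0 c k = s k := by
      rw [update_of_ne hk0, update_of_ne (by omega)]
    have e3 : update (update s (k + 1) b) 0 c (k + 1) = b := by
      rw [update_of_ne (by omega), update_self]
    rw [e1, e2, e3, update_self, hb c, himp_self, inf_top_eq]) (update t k a)
  rw [sat_ex] at h3
  obtain ⟨b, hb⟩ := h3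
  refine ⟨b, fun c => ?_⟩
  have h4 := hb c
  rw [sat_iff, sat_and, sat_mem, sat_mem] at h4
  have e1 : φ.sat E (update (update (update t k a) (k + 1) b) 0 c) ↔ φ.sat E (update t 0 c) := by
    apply sat_bd
    intro i hi
    by_cases h0 : i = 0
    · subst h0; simp
    · rw [update_of_ne h0, update_of_ne h0, update_of_ne (by omega), update_of_ne (by omega)]
  have e2 : update (update (update t k a) (k + 1) b) 0 c k = a := by
    rw [update_of_ne hk0, update_of_ne (by omega), update_self]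
  have e3 : update (update (update t k a) (k + 1) b) 0 c (k + 1) = b := by
    rw [update_of_ne (by omega), update_self]
  rw [e1, e2, e3, update_self] at h4
  exact h4

theorem coll (h1 : A1Stmt.{u}) (h2 : A2bStmt.{u}) (φ : Fml) (t : ℕ → M) (a : M) : ∃ b, ∀ x, E x a →
    ∀ y, φ.sat E (update (update t 0 x) 1 y) →
      ∃ y, E y b ∧ φ.sat E (update (update t 0 x) 1 y) := by
  set k := bd φ + 2 with hk
  have h3 := S.of_top (fex (k + 1) (.all 0 (.imp (fand (.mem 0 k) (fex 1 φ))
      (fex 1 (fand (.mem 1 (k + 1)) φ)))))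
    (fun s => by
    obtain ⟨b, hb⟩ := (h2 B).2 (fun x y => φ.val (update (update s 0 x) 1 y))
      (fun x x' y => by
        have := (h1 B).2.2.2.2.2.1 φ (update s 1 y) 0 x x'
        rwa [update_comm (by norm_num : (1:ℕ) ≠ 0), update_comm (by norm_num : (1:ℕ) ≠ 0)] at this)
      (fun x y y' => (h1 B).2.2.2.2.2.1 φ (update s 0 x) 1 y y') (s k)
    rw [val_ex, eq_top_iff]
    refine le_iSup_of_le b ?_
    simp only [val_all, val_imp, val_and, val_mem, val_ex]
    refine le_iInf fun x => ?_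
    have e1 : ∀ y, φ.val (update (update (update s (k + 1) b) 0 x) 1 y) =
        φ.val (update (update s 0 x) 1 y) := by
      intro y
      apply val_bd
      intro i hi
      by_cases h1 : i = 1
      · subst h1; simp
      · rw [update_of_ne h1, update_of_ne h1]
        by_cases h0 : i = 0
        · subst h0; simp
        · rw [update_of_ne h0, update_of_ne h0, update_of_ne (by omega)]
    have e2 : update (update s (k + 1) b) 0 x k = s k := by
      rw [update_of_ne (by omega), update_of_ne (by omega)]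
    have e3 : ∀ y, update (update (update s (k + 1) b) 0 x) 1 y (k + 1) = b := by
      intro y
      rw [update_of_ne (by omega), update_of_ne (by omega), update_self]
    simp only [e1, e2, e3, update_self]
    rw [le_himp_iff, top_inf_eq]
    exact hb x) (update t k a)
  rw [sat_ex] at h3
  obtain ⟨b, hb⟩ := h3
  refine ⟨b, fun x hx y hy => ?_⟩
  have h4 := hb x
  rw [sat_imp, sat_and, sat_ex, sat_ex, sat_mem] at h4
  simp only [sat_and, sat_mem] at h4
  have e1 : ∀ y, φ.sat E (update (update (update (update t k a) (k + 1) b) 0 x) 1 y) ↔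
      φ.sat E (update (update t 0 x) 1 y) := by
    intro y
    apply sat_bd
    intro i hi
    by_cases h1 : i = 1
    · subst h1; simp
    · rw [update_of_ne h1, update_of_ne h1]
      by_cases h0 : i = 0
      · subst h0; simp
      · rw [update_of_ne h0, update_of_ne h0, update_of_ne (by omega), update_of_ne (by omega)]
  have e2 : update (update (update t k a) (k + 1) b) 0 x k = a := by
    rw [update_of_ne (by omega), update_of_ne (by omega), update_self]
  have e3 : ∀ y, update (update (update (update t k a) (k + 1) b) 0 x) 1 y (k + 1) = b := by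
    intro y
    rw [update_of_ne (by omega), update_of_ne (by omega), update_self]
  simp only [e1, e2, e3, update_self] at h4
  exact h4 ⟨hx, y, hy⟩

theorem repl (h1 : A1Stmt.{u}) (h2 : A2bStmt.{u}) (φ : Fml) (t : ℕ → M) (a : M)
    (h : ∀ x, E x a → ∃! y, φ.sat E (update (update t 0 x) 1 y)) :
    ∃ b, ∀ y, E y b ↔ ∃ x, E x a ∧ φ.sat E (update (update t 0 x) 1 y) := by
  obtain ⟨b0, hb0⟩ := S.coll h1 h2 φ t a
  set k := bd φ + 2 with hk
  obtain ⟨b, hb⟩ := S.sep h1 h2 (fex (k + 1) (fand (.eq (k + 1) 0) (fex 0 (fand (.mem 0 k)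
    (fex 1 (fand (.eq 1 (k + 1)) φ)))))) (update t k a) b0
  refine ⟨b, fun y => ?_⟩
  rw [hb y, sat_ex]
  simp only [sat_and, sat_eq, sat_ex, sat_mem]
  have e0 : ∀ z, update (update (update t k a) 0 y) (k + 1) z (k + 1) = z := by simp
  have e0' : ∀ z, update (update (update t k a) 0 y) (k + 1) z 0 = y := by
    intro z
    rw [update_of_ne (by omega), update_self]
  have e1 : ∀ z x w, φ.sat E
      (update (update (update (update (update t k a) 0 y) (k + 1) z) 0 x) 1 w) ↔
      φ.sat E (update (update t 0 x) 1 w) := by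
    intro z x w
    apply sat_bd
    intro i hi
    by_cases h1 : i = 1
    · subst h1; simp
    · rw [update_of_ne h1, update_of_ne h1]
      by_cases h0 : i = 0
      · subst h0; simp
      · rw [update_of_ne h0, update_of_ne h0, update_of_ne (by omega), update_of_ne h0,
          update_of_ne (by omega)]
  have e2 : ∀ z x, update (update (update (update t k a) 0 y) (k + 1) z) 0 x k = a := by
    intro z x
    rw [update_of_ne (by omega), update_of_ne (by omega), update_of_ne (by omega), update_self]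
  have e3 : ∀ z x w, update (update (update (update (update t k a) 0 y) (k + 1) z) 0 x) 1 w
      (k + 1) = z := by
    intro z x w
    rw [update_of_ne (by omega), update_of_ne (by omega), update_self]
  simp only [e0, e0', e1, e2, e3, update_self]
  constructor
  · rintro ⟨-, z, rfl, x, hx, w, rfl, hw⟩
    exact ⟨x, hx, hw⟩
  · rintro ⟨x, hx, hy⟩
    refine ⟨?_, y, rfl, x, hx, y, rfl, hy⟩
    obtain ⟨y', hy', hy2⟩ := hb0 x hx y hy
    rwa [(h x hx).unique hy hy2]

theorem e_zero (h3 : A3Stmt.{u}) (hnn : ∀ n, nn B n ∈ N) (m : M) : ¬ E m (π (nn B 0)) := by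
  obtain ⟨a, ha, rfl⟩ := S.surj m
  rw [S.mem a ha _ (hnn 0), (h3 B).1 a]
  exact S.bot

theorem e_succ (h3 : A3Stmt.{u}) (hnn : ∀ n, nn B n ∈ N) (n : ℕ) (m : M) :
    E m (π (nn B (n + 1))) ↔ E m (π (nn B n)) ∨ m = π (nn B n) := by
  obtain ⟨a, ha, rfl⟩ := S.surj m
  rw [S.mem a ha _ (hnn _), S.mem a ha _ (hnn _), S.eqv a ha _ (hnn _), (h3 B).2.1 a n]
  constructor
  · intro h
    refine S.or_mem ?_ h
    exact S.dec (.mem 0 1) (fun i => if i = 0 then a else nn B n) (fun i => by
      by_cases hi : i = 0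
      · simpa [hi] using ha
      · simpa [hi] using hnn n)
  · rintro (h | h)
    · exact S.up _ h _ le_sup_left
    · exact S.up _ h _ le_sup_right

theorem isNum_nn (h3 : A3Stmt.{u}) (hnn : ∀ n, nn B n ∈ N) (n : ℕ) : IsNum E n (π (nn B n)) := by
  induction n with
  | zero => exact S.e_zero h3 hnn
  | succ n ih => exact ⟨_, ih, S.e_succ h3 hnn n⟩

theorem isNum_eq (h1 : A1Stmt.{u}) (h3 : A3Stmt.{u}) (hnn : ∀ n, nn B n ∈ N) (n : ℕ) :
    ∀ x, IsNum E n x → x = π (nn B n) := by
  induction n with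
  | zero =>
    intro x hx
    refine S.ext h1 _ _ fun c => ?_
    exact ⟨fun h => (hx c h).elim, fun h => (S.e_zero h3 hnn c h).elim⟩
  | succ n ih =>
    rintro x ⟨y, hy, hx⟩
    obtain rfl := ih y hy
    refine S.ext h1 _ _ fun c => ?_
    rw [hx c, S.e_succ h3 hnn n]

theorem e_om (h3 : A3Stmt.{u}) (hom : om B ∈ N) (hnn : ∀ n, nn B n ∈ N)
    (hst : ∀ a ∈ N, bmem a (om B) ∈ G → ∃ n, beq a (nn B n) ∈ G) (m : M) :
    E m (π (om B)) ↔ ∃ n, m = π (nn B n) := by
  obtain ⟨a, ha, rfl⟩ := S.surj m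
  rw [S.mem a ha _ hom]
  constructor
  · intro h
    obtain ⟨n, hn⟩ := hst a ha h
    exact ⟨n, (S.eqv a ha _ (hnn n)).2 hn⟩
  · rintro ⟨n, hn⟩
    have h4 := (S.eqv a ha _ (hnn n)).1 hn
    refine S.up _ h4 _ ?_
    show beq a (nn B n) ≤ bmem a (sb fun _ => ⊤)
    rw [(h3 B).2.2.2.2]
    refine le_iSup_of_le n ?_
    rw [top_inf_eq]

theorem infinity (h3 : A3Stmt.{u}) (hom : om B ∈ N) (hnn : ∀ n, nn B n ∈ N)
    (hst : ∀ a ∈ N, bmem a (om B) ∈ G → ∃ n, beq a (nn B n) ∈ G) :
    ∃ w : M, (∃ e, E e w ∧ ∀ d, ¬ E d e) ∧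
    ∀ x, E x w → ∃ y, E y w ∧ ∀ d, E d y ↔ E d x ∨ d = x := by
  refine ⟨π (om B), ⟨π (nn B 0), (S.e_om h3 hom hnn hst _).2 ⟨0, rfl⟩, S.e_zero h3 hnn⟩, ?_⟩
  intro x hx
  obtain ⟨n, rfl⟩ := (S.e_om h3 hom hnn hst _).1 hx
  exact ⟨π (nn B (n + 1)), (S.e_om h3 hom hnn hst _).2 ⟨n + 1, rfl⟩, S.e_succ h3 hnn n⟩

theorem isZFC (h1 : A1Stmt.{u}) (h2a : A2aStmt.{u}) (h2b : A2bStmt.{u}) (h2c : A2cStmt.{u}) (h3 : A3Stmt.{u})
    (hom : om B ∈ N) (hnn : ∀ n, nn B n ∈ N)
    (hst : ∀ a ∈ N, bmem a (om B) ∈ G → ∃ n, beq a (nn B n) ∈ G) : IsZFC E where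
  ext := S.ext h1
  found := S.found h2a
  pair := S.pair h2a
  union := S.union h2a
  power := S.power h2a
  infinity := S.infinity h3 hom hnn hst
  sep := S.sep h1 h2b
  repl := S.repl h1 h2b
  choice := S.choice h2c

end Setup

/-- Module A4: the model existence theorem. -/
theorem a4 (h1 : A1Stmt.{u}) (h2a : A2aStmt.{u}) (h2b : A2bStmt.{u}) (h2c : A2cStmt.{u}) (h3 : A3Stmt.{u}) :
    ModelStatement.{u} := by
  intro B _ N G hN hom hnn hup hinf hbot hdec hwit hst
  obtain ⟨e, he⟩ := hN.exists_eq_range ⟨_, hom⟩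
  have heN : ∀ i, e i ∈ N := fun i => by rw [he]; exact ⟨i, rfl⟩
  have hsymm := (h1 B).2.1
  have htrans := (h1 B).2.2.1
  have htop : (⊤ : B) ∈ G := by
    rcases hdec .bot (fun _ => om B) (fun _ => hom) with h | h
    · exact (hbot h).elim
    · exact hup _ h _ le_top
  let St : Setoid ℕ :=
    { r := fun i j => beq (e i) (e j) ∈ G
      iseqv :=
        { refl := fun i => by rw [(h1 B).1]; exact htop
          symm := fun {i j} h => by rw [hsymm]; exact h
          trans := fun {i j k} h h' => hup _ (hinf _ h _ h') _ (htrans _ _ _) } }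
  classical
  let ix : BSet B → ℕ := fun a => if h : ∃ i, e i = a then h.choose else 0
  have hix : ∀ a ∈ N, e (ix a) = a := by
    intro a ha
    have h : ∃ i, e i = a := by rw [he] at ha; exact ha
    simp only [ix, dif_pos h]
    exact h.choose_spec
  let π : BSet B → Quotient St := fun a => Quotient.mk St (ix a)
  let E : Quotient St → Quotient St → Prop := fun m m' =>
    ∃ i j, Quotient.mk St i = m ∧ Quotient.mk St j = m' ∧ bmem (e i) (e j) ∈ G
  have hE : ∀ i j, E (Quotient.mk St i) (Quotient.mk St j) ↔ bmem (e i) (e j) ∈ G := by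
    intro i j
    constructor
    · rintro ⟨i', j', hi, hj, h⟩
      have hi2 : beq (e i') (e i) ∈ G := Quotient.exact hi
      have hj2 : beq (e j') (e j) ∈ G := Quotient.exact hj
      have h3 := hup _ (hinf _ hi2 _ h) _ ((h1 B).2.2.2.1 _ _ _)
      exact hup _ (hinf _ hj2 _ h3) _ ((h1 B).2.2.2.2.1 _ _ _)
    · intro h
      exact ⟨i, j, rfl, rfl, h⟩
  have S : Setup N G E π :=
    { up := hup
      inf := hinf
      bot := hbot
      dec := hdec
      wit := hwit
      surj := by
        intro m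
        obtain ⟨i, rfl⟩ := Quotient.exists_rep m
        refine ⟨e i, heN i, Quotient.sound ?_⟩
        show beq (e (ix (e i))) (e i) ∈ G
        rw [hix _ (heN i), (h1 B).1]
        exact htop
      eqv := by
        intro a ha b hb
        have h3 : π a = π b ↔ beq (e (ix a)) (e (ix b)) ∈ G :=
          ⟨fun h => Quotient.exact h, fun h => Quotient.sound h⟩
        rw [h3, hix a ha, hix b hb]
      mem := by
        intro a ha b hb
        show E (Quotient.mk St (ix a)) (Quotient.mk St (ix b)) ↔ _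
        rw [hE, hix a ha, hix b hb] }
  refine ⟨Quotient St, E, π, S.isZFC h1 h2a h2b h2c h3 hom hnn hst, ⟨π (om B), fun x => ?_⟩,
    S.surj, S.eqv, S.mem, S.isNum_nn h3 hnn⟩
  rw [S.e_om h3 hom hnn hst]
  constructor
  · rintro ⟨n, rfl⟩
    exact ⟨n, S.isNum_nn h3 hnn n⟩
  · rintro ⟨n, hn⟩
    exact ⟨n, S.isNum_eq h1 h3 hnn n x hn⟩

end Pool.Agent.CTD.P9
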