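import Pool.Agent.Helper94_CTD.PStmts

/-!
# Module A5 (helper76): the regular open algebra of a preorder
-/

namespace Pool.Agent.CTD.P5

open Pool.Agent.FL

universe u

open Heyting Heyting.Regular

noncomputable section

/-- the regular elements of a frame are a complete Boolean algebra -/
@[reducible] def roCBA (α : Type u) [Order.Frame α] : CompleteBooleanAlgebra (Regular α) :=
  { (inferInstance : BooleanAlgebra (Regular α)) with
    sSup := fun s => toRegular (sSup ((fun a : Regular α => (a : α)) '' s))
    sInf := fun s => toRegular (sInf ((fun a : Regular α => (a : α)) '' s))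
    isLUB_sSup := by
      intro s
      refine ⟨?_, ?_⟩
      · intro a ha
        rw [← coe_le_coe, coe_toRegular]
        have h1 : (a : α) ≤ sSup ((fun a : Regular α => (a : α)) '' s) := le_sSup ⟨a, ha, rfl⟩
        exact h1.trans le_compl_compl
      · intro b hb
        refine (gi.gc _ _).2 ?_
        refine sSup_le ?_
        rintro _ ⟨a, ha, rfl⟩
        exact hb ha
    isGLB_sInf := by
      intro s
      refine ⟨?_, ?_⟩
      · intro a ha
        refine (gi.gc _ _).2 ?_
        exact sInf_le ⟨a, ha, rfl⟩
      · intro b hb
        rw [← coe_le_coe, coe_toRegular]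
        refine le_trans (le_sInf ?_) le_compl_compl
        rintro _ ⟨a, ha, rfl⟩
        exact hb ha }

theorem mem_compl {P : Type u} [Preorder P] (U : LowerSet P) (p : P) :
    p ∈ (Uᶜ : LowerSet P) ↔ ∀ q ≤ p, q ∉ U := by
  constructor
  · intro hp q hq hU
    have h1 : q ∈ (Uᶜ : LowerSet P) := (Uᶜ : LowerSet P).lower hq hp
    have h2 : (Uᶜ : LowerSet P) ⊓ U = ⊥ := compl_inf_self U
    have h3 : q ∈ (Uᶜ : LowerSet P) ⊓ U := ⟨h1, hU⟩
    rw [h2] at h3
    exact h3
  · intro h
    have h1 : LowerSet.Iic p ≤ Uᶜ := by
      rw [le_compl_iff_disjoint_right, disjoint_iff]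
      apply SetLike.ext
      intro q
      constructor
      · rintro ⟨h2, h3⟩
        exact absurd h3 (h q h2)
      · intro h2
        exact absurd h2 (by simp)
    exact h1 (show p ∈ LowerSet.Iic p from le_refl p)

theorem a5 : ROStmt.{u} := by
  intro P _
  let _ : CompleteBooleanAlgebra (Regular (LowerSet P)) := roCBA (LowerSet P)
  refine ⟨Regular (LowerSet P), roCBA (LowerSet P), fun p => toRegular (LowerSet.Iic p),
    ?_, ?_, ?_, ?_, ?_⟩
  · intro p h
    have h1 : p ∈ ((toRegular (LowerSet.Iic p) : Regular (LowerSet P)) : LowerSet P) :=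
      (show LowerSet.Iic p ≤ (LowerSet.Iic p)ᶜᶜ from le_compl_compl)
        (show p ∈ LowerSet.Iic p from le_refl p)
    have h2 : (toRegular (LowerSet.Iic p) : Regular (LowerSet P)) = ⊥ := h
    rw [h2] at h1
    exact h1
  · intro p q hpq
    exact toRegular.monotone (fun r (hr : r ≤ p) => le_trans hr hpq)
  · intro p b hne
    by_contra hcon
    push Not at hcon
    apply hne
    have h0 : ((b ⊓ toRegular (LowerSet.Iic p) : Regular (LowerSet P)) : LowerSet P) = ⊥ := by
      rw [coe_inf]
      apply SetLike.ext
      intro r
      constructor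
      · rintro ⟨h2, h3⟩
        exfalso
        have h4 : r ∈ ((LowerSet.Iic p)ᶜᶜ : LowerSet P) := h3
        rw [mem_compl] at h4
        have h5 := h4 r le_rfl
        rw [mem_compl] at h5
        push Not at h5
        obtain ⟨t, ht, htp⟩ := h5
        apply hcon t htp
        refine (gi.gc _ _).2 ?_
        intro u hu
        exact (b : LowerSet P).lower (le_trans hu ht) h2
      · intro h2
        exact absurd h2 (by simp)
    exact coe_injective h0
  · intro p q hne
    by_contra hcon
    push Not at hcon
    apply hne
    have h0 : ((toRegular (LowerSet.Iic p) ⊓ toRegular (LowerSet.Iic q) : Regular (LowerSet P)) :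
        LowerSet P) = ⊥ := by
      rw [coe_inf]
      apply SetLike.ext
      intro r
      constructor
      · rintro ⟨h2, h3⟩
        exfalso
        have h4 : r ∈ ((LowerSet.Iic p)ᶜᶜ : LowerSet P) := h2
        rw [mem_compl] at h4
        have h5 := h4 r le_rfl
        rw [mem_compl] at h5
        push Not at h5
        obtain ⟨t, ht, htp⟩ := h5
        have h6 : r ∈ ((LowerSet.Iic q)ᶜᶜ : LowerSet P) := h3
        rw [mem_compl] at h6
        have h7 := h6 t ht
        rw [mem_compl] at h7
        push Not at h7
        obtain ⟨t', ht', htq⟩ := h7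
        exact hcon t' (le_trans ht' htp) htq
      · intro h2
        exact absurd h2 (by simp)
    exact coe_injective h0
  · intro b hne
    by_contra hcon
    push Not at hcon
    apply hne
    have h0 : ((b : Regular (LowerSet P)) : LowerSet P) = ⊥ := by
      apply SetLike.ext
      intro r
      constructor
      · intro h2
        exfalso
        apply hcon r
        refine (gi.gc _ _).2 ?_
        intro u hu
        exact (b : LowerSet P).lower hu h2
      · intro h2
        exact absurd h2 (by simp)
    exact coe_injective h0

end

end Pool.Agent.CTD.P5
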