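import Pool.Agent.Helper94_CTD.PA1
import Pool.Agent.Helper94_CTD.PA2b
import Pool.Agent.Helper94_CTD.PA2c
import Pool.Agent.Helper94_CTD.PA3
import Pool.Agent.Helper94_CTD.PA4
import Pool.Agent.Helper94_CTD.PA5

/-!
# The Boolean valued universe over an algebra of any universe: summary
-/

namespace Pool.Agent.CTD

universe u

theorem pa1 : A1Stmt.{u} := P9.a1
theorem pa2a : A2aStmt.{u} := P76.a2a pa1
theorem pa2b : A2bStmt.{u} := P76.a2b pa1
theorem pa2c : A2cStmt.{u} := P76.a2c pa1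
theorem pa3 : A3Stmt.{u} := P57.a3 pa1
theorem pmodel : ModelStatement.{u} := P9.a4 pa1 pa2a pa2b pa2c pa3
theorem pro : ROStmt.{u} := P5.a5

end Pool.Agent.CTD
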