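import Mathlib
import Pool.Agent.Helper94_CTD.Defs

/-!
# Basic facts about nodes, picks, values and conditions
-/

open Set

namespace Pool.Agent.CTD

/-! ## Restrictions -/

@[simp] theorem brr_len (b : Br) (δ : Th) : (brr b δ).len = δ := rfl
theorem brr_fn (b : Br) {δ x : Th} (h : x < δ) : (brr b δ).fn x = b x := if_pos h
theorem brr_fn' (b : Br) {δ x : Th} (h : δ ≤ x) : (brr b δ).fn x = false := if_neg (not_lt.2 h)
@[simp] theorem res_len (t : Nd) (δ : Th) : (t.res δ).len = δ := rfl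
theorem res_fn (t : Nd) {δ x : Th} (h : x < δ) : (t.res δ).fn x = t.fn x := if_pos h

theorem Nd.ext' {t t' : Nd} (h : t.len = t'.len) (h' : ∀ x < t.len, t.fn x = t'.fn x) : t = t' := by
  refine Nd.ext h ?_
  funext x
  by_cases hx : x < t.len
  · exact h' x hx
  · rw [t.zero x (not_lt.1 hx), t'.zero x (by rw [← h]; exact not_lt.1 hx)]

theorem res_self (t : Nd) : t.res t.len = t := Nd.ext' rfl (fun _ hx => res_fn t hx)

theorem res_res (t : Nd) {γ δ : Th} (h : γ ≤ δ) : (t.res δ).res γ = t.res γ :=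
  Nd.ext' rfl (fun x hx => by
    rw [res_len] at hx
    rw [res_fn _ hx, res_fn _ hx, res_fn _ (hx.trans_le h)])

theorem brr_res (b : Br) {γ δ : Th} (h : γ ≤ δ) : (brr b δ).res γ = brr b γ :=
  Nd.ext' rfl (fun x hx => by
    rw [res_len] at hx
    rw [res_fn _ hx, brr_fn _ hx, brr_fn _ (hx.trans_le h)])

/-- two nodes with the same restriction to `δ` have the same values below `δ` -/
theorem fn_eq_of_res {t t' : Nd} {δ x : Th} (h : t.res δ = t'.res δ) (hx : x < δ) :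
    t.fn x = t'.fn x := by
  rw [← res_fn t hx, ← res_fn t' hx, h]

theorem res_eq_of_fn {t t' : Nd} {δ : Th} (h : ∀ x < δ, t.fn x = t'.fn x) : t.res δ = t'.res δ :=
  Nd.ext' rfl (fun x hx => by
    rw [res_len] at hx
    rw [res_fn _ hx, res_fn _ hx, h x hx])

theorem res_eq_of_le {t t' : Nd} {γ δ : Th} (h : t.res δ = t'.res δ) (hx : γ ≤ δ) :
    t.res γ = t'.res γ := res_eq_of_fn (fun _ hy => fn_eq_of_res h (hy.trans_le hx))

/-! ## The function `pick` -/

theorem pick_eq {s : W1 → Option (Th × Bool)} {Bad : Th → Prop} {ξ : W1} {γ : Th} {i : Bool}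
    (h : s ξ = some (γ, i)) (hb : Bad γ) (hf : ∀ ξ' < ξ, ∀ v, s ξ' = some v → ¬ Bad v.1) :
    pick s Bad = i := by
  classical
  unfold pick
  cases i with
  | true => exact decide_eq_true ⟨ξ, γ, h, hb, hf⟩
  | false =>
    refine decide_eq_false ?_
    rintro ⟨ξ', γ', h', hb', hf'⟩
    rcases lt_trichotomy ξ' ξ with hl | hl | hl
    · exact hf ξ' hl _ h' hb'
    · subst hl
      rw [h] at h'
      exact absurd (congrArg Prod.snd (Option.some.inj h')) (by simp)
    · exact hf' ξ hl _ h hb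

theorem pick_none {s : W1 → Option (Th × Bool)} {Bad : Th → Prop}
    (h : ∀ ξ v, s ξ = some v → ¬ Bad v.1) : pick s Bad = false := by
  classical
  unfold pick
  refine decide_eq_false ?_
  rintro ⟨ξ', γ', h', hb', -⟩
  exact h _ _ h' hb'

/-- there is a first bad entry if there is a bad entry -/
theorem exists_first {s : W1 → Option (Th × Bool)} {Bad : Th → Prop}
    (h : ∃ ξ v, s ξ = some v ∧ Bad v.1) :
    ∃ ξ γ i, s ξ = some (γ, i) ∧ Bad γ ∧ ∀ ξ' < ξ, ∀ v, s ξ' = some v → ¬ Bad v.1 := by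
  obtain ⟨ξ, ⟨v, hv, hb⟩, hm⟩ := WellFounded.has_min (wellFounded_lt : WellFounded (· < · : W1 → W1 → Prop))
    {ξ | ∃ v, s ξ = some v ∧ Bad v.1} h
  exact ⟨ξ, v.1, v.2, hv, hb, fun ξ' hξ' v' hv' hb' => hm ξ' ⟨v', hv', hb'⟩ hξ'⟩

theorem pick_congr {s : W1 → Option (Th × Bool)} {Bad Bad' : Th → Prop}
    (h : ∀ ξ v, s ξ = some v → (Bad v.1 ↔ Bad' v.1)) : pick s Bad = pick s Bad' := by
  by_cases hb : ∃ ξ v, s ξ = some v ∧ Bad v.1
  · obtain ⟨ξ, γ, i, h1, h2, h3⟩ := exists_first hb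
    rw [pick_eq h1 h2 h3, pick_eq h1 ((h _ _ h1).1 h2)
      (fun ξ' hξ' v hv hv' => h3 ξ' hξ' v hv ((h _ _ hv).2 hv'))]
  · push Not at hb
    rw [pick_none hb, pick_none (fun ξ v hv hv' => hb ξ v hv ((h _ _ hv).2 hv'))]

/-- if `s'` extends `s`, whose domain is an initial segment which contains a bad entry, then the
picks are equal -/
theorem pick_ext {s s' : W1 → Option (Th × Bool)} {Bad : Th → Prop} {θ : W1}
    (hθ : ∀ ξ, s ξ ≠ none ↔ ξ < θ) (hs : ∀ ξ v, s ξ = some v → s' ξ = some v)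
    (hb : ∃ ξ v, s ξ = some v ∧ Bad v.1) : pick s' Bad = pick s Bad := by
  obtain ⟨ξ, γ, i, h1, h2, h3⟩ := exists_first hb
  rw [pick_eq h1 h2 h3]
  refine pick_eq (hs _ _ h1) h2 (fun ξ' hξ' v hv => ?_)
  have h4 : s ξ' ≠ none := (hθ ξ').2 (hξ'.trans ((hθ ξ).1 (by rw [h1]; exact Option.some_ne_none _)))
  obtain ⟨v', hv'⟩ := Option.ne_none_iff_exists'.1 h4
  have h5 := hs _ _ hv'
  rw [hv] at h5
  rw [Option.some.inj h5]
  exact h3 _ hξ' _ hv'

/-! ## The values -/

/-- the predicate used in the recursion -/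
def bad (f : Nd → Bool) (t : Nd) (γ : Th) : Prop := ∃ _ : γ < t.len, f (t.res γ) ≠ t.fn γ

theorem fv_on (e : Ev) (b : Br) (t : Nd) (h : ∀ x < t.len, b x = t.fn x) : fv e b t = b t.len := by
  rw [fv, if_pos h]

theorem fv_brr (e : Ev) (b : Br) (δ : Th) : fv e b (brr b δ) = b δ :=
  fv_on e b _ (fun _ hx => (brr_fn b hx).symm)

theorem fv_off (e : Ev) (b : Br) (t : Nd) (h : ¬ ∀ x < t.len, b x = t.fn x) :
    fv e b t = pick (e t) (bad (fv e b) t) := by
  rw [fv, if_neg h]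
  rfl

/-- if `b` is on `t` there is no bad ordinal -/
theorem not_bad_of_on (e : Ev) (b : Br) (t : Nd) (h : ∀ x < t.len, b x = t.fn x) (γ : Th) :
    ¬ bad (fv e b) t γ := by
  rintro ⟨h1, h2⟩
  apply h2
  rw [fv_on e b (t.res γ) (fun x hx => by
    rw [res_len] at hx
    rw [res_fn t hx, h x (hx.trans h1)]), res_len, h γ h1]

/-- if there is a bad entry then the value is given by `pick` -/
theorem fv_of_bad (e : Ev) (b : Br) (t : Nd) (γ : Th) (h : bad (fv e b) t γ) :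
    fv e b t = pick (e t) (bad (fv e b) t) :=
  fv_off e b t (fun h' => not_bad_of_on e b t h' γ h)

/-- if `b` leaves `t` at `γ` then `γ` is bad -/
theorem bad_of_leave (e : Ev) (b : Br) (t : Nd) (γ : Th) (hγ : γ < t.len)
    (h : ∀ x < γ, b x = t.fn x) (h' : b γ ≠ t.fn γ) : bad (fv e b) t γ := by
  refine ⟨hγ, ?_⟩
  rw [fv_on e b (t.res γ) (fun x hx => by
    rw [res_len] at hx
    rw [res_fn t hx, h x hx]), res_len]
  exact h'

/-- the values at nodes of length at most `δ` depend only on the values of the branch below -/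
theorem fv_congr (e : Ev) (b b' : Br) (δ : Th) (h : ∀ x < δ, b x = b' x) :
    ∀ t : Nd, t.len < δ → fv e b t = fv e b' t := by
  intro t
  induction hn : t.len using WellFoundedLT.induction generalizing t with
  | _ n ih =>
  intro hlt
  subst hn
  by_cases h1 : ∀ x < t.len, b x = t.fn x
  · rw [fv_on e b t h1, fv_on e b' t (fun x hx => by rw [← h x (hx.trans hlt), h1 x hx]), h _ hlt]
  · have h2 : ¬ ∀ x < t.len, b' x = t.fn x := fun h2 => h1 (fun x hx => by
      rw [h x (hx.trans hlt), h2 x hx])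
    rw [fv_off e b t h1, fv_off e b' t h2]
    refine pick_congr (fun ξ v _ => ?_)
    unfold bad
    refine exists_congr (fun hv => ?_)
    rw [ih v.1 hv (t.res v.1) rfl (hv.trans hlt)]

theorem dec_in (q : Ev) (S : Set Nd) (π : Nd → Bool) (t : Nd) (h : t ∈ S) :
    dec q S π t = π t := by
  rw [dec, if_pos h]

theorem dec_out (q : Ev) (S : Set Nd) (π : Nd → Bool) (t : Nd) (h : t ∉ S) :
    dec q S π t = pick (q t) (bad (dec q S π) t) := by
  rw [dec, if_neg h]
  rfl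

/-! ## Conditions -/

theorem le_def {q p : Cnd} : q ≤ p ↔ Ext q.1 p.1 := Iff.rfl

theorem Ext.refl (e : Ev) : Ext e e := fun _ _ _ h => h

theorem Ext.trans {e e' e'' : Ev} (h : Ext e e') (h' : Ext e' e'') : Ext e e'' :=
  fun t ξ v hv => h t ξ v (h' t ξ v hv)

theorem Ent.self {q : Cnd} {A : Set Ev} (h : Ent q A) : q.1 ∈ A := h _ (Ext.refl _)

theorem Ent.mono {q p : Cnd} {A : Set Ev} (h : Ent p A) (hq : q ≤ p) : Ent q A :=
  fun e he => h e (he.trans hq)

theorem Off.refl (A : Set Nd) (q : Cnd) : Off A q q := fun _ _ => rfl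

theorem Off.trans {A : Set Nd} {q p r : Cnd} (h : Off A q p) (h' : Off A p r) : Off A q r :=
  fun t ht => (h t ht).trans (h' t ht)

theorem Off.mono {A A' : Set Nd} {q p : Cnd} (h : Off A q p) (hA : A ⊆ A') : Off A' q p :=
  fun t ht => h t (fun h' => ht (hA h'))

theorem Spt.mono {A A' : Set Nd} {p : Cnd} (h : Spt A p) (hA : A ⊆ A') : Spt A' p :=
  fun t ht => h t (fun h' => ht (hA h'))

/-- the entries of a condition at a node form a countable set -/
theorem cnt_row (p : Cnd) (t : Nd) : {ξ : W1 | p.1 t ξ ≠ none}.Countable := by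
  have h : Function.Injective (fun ξ : W1 => (t, ξ)) := fun a b h => (Prod.mk.inj h).2
  exact (p.2.cnt.preimage h).mono (fun ξ hξ => hξ)

theorem cnt_supp (p : Cnd) : {t : Nd | ∃ ξ, p.1 t ξ ≠ none}.Countable := by
  refine (p.2.cnt.image Prod.fst).mono ?_
  rintro t ⟨ξ, hξ⟩
  exact ⟨(t, ξ), hξ, rfl⟩

theorem cnt_ent (p : Cnd) (t : Nd) : {γ : Th | ent p.1 t γ}.Countable := by
  refine ((cnt_row p t).image (fun ξ => ((p.1 t ξ).getD (0, false)).1)).mono ?_
  rintro γ ⟨ξ, i, h⟩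
  refine ⟨ξ, ?_, ?_⟩
  · show p.1 t ξ ≠ none
    rw [h]; exact Option.some_ne_none _
  · show ((p.1 t ξ).getD (0, false)).1 = γ
    rw [h]; rfl

/-! ## The countable ordinals -/

theorem W1_Iio (x : Th) (hx : x < o1) : (Set.Iio x).Countable := by
  rw [← Set.countable_coe_iff, ← Cardinal.mk_le_aleph0_iff, Cardinal.mk_Iio_ordinal,
    Cardinal.lift_le_aleph0]
  have h1 : x.card < Cardinal.aleph 1 := by
    rw [← Cardinal.lt_ord, Cardinal.ord_aleph]
    exact hx
  exact Cardinal.lt_aleph_one_iff.1 h1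

theorem bdd_W1 (C : Set W1) (hC : C.Countable) : ∃ θ : W1, ∀ x ∈ C, x < θ := by
  by_contra hcon
  push Not at hcon
  have h1 : (Set.Iio o1 : Set Th) ⊆ ⋃ x ∈ C, Set.Iic x.1 := by
    intro y hy
    obtain ⟨x, hx, hxy⟩ := hcon ⟨y, hy⟩
    exact mem_biUnion hx (show y ≤ x.1 from hxy)
  have h2 : (Set.Iio o1 : Set Th).Countable := by
    refine (hC.biUnion (fun x _ => ?_)).mono h1
    have : (Set.Iic x.1 : Set Th) = Set.Iio (Order.succ x.1) := by
      ext y
      simp
    rw [this]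
    apply W1_Iio
    have h3 := Cardinal.isSuccLimit_ord (Cardinal.aleph0_le_aleph 1)
    rw [Cardinal.ord_aleph] at h3
    exact h3.succ_lt x.2
  rw [← Set.countable_coe_iff, ← Cardinal.mk_le_aleph0_iff, Cardinal.mk_Iio_ordinal,
    Cardinal.lift_le_aleph0, Ordinal.card_omega] at h2
  exact absurd h2 (not_le.2 Cardinal.aleph0_lt_aleph_one)

theorem unc_W1 : ¬ (Set.univ : Set W1).Countable := fun h => by
  obtain ⟨θ, hθ⟩ := bdd_W1 _ h
  exact lt_irrefl _ (hθ θ (mem_univ _))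

theorem cnt_Iio_W1 (θ : W1) : (Set.Iio θ).Countable := by
  have h := (W1_Iio θ.1 θ.2).preimage (f := fun x : W1 => x.1) Subtype.val_injective
  exact h.mono (fun x hx => hx)

/-- a countable lower set of `W1` is an initial segment -/
theorem lower_W1 (C : Set W1) (hC : C.Countable) (hl : ∀ x ∈ C, ∀ y < x, y ∈ C) :
    ∃ θ : W1, ∀ ξ, ξ ∈ C ↔ ξ < θ := by
  obtain ⟨θ0, hθ0⟩ := bdd_W1 C hC
  obtain ⟨θ, hθ, hm⟩ := WellFounded.has_min
    (wellFounded_lt : WellFounded (· < · : W1 → W1 → Prop)) {ξ | ξ ∉ C}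
    ⟨θ0, fun h => lt_irrefl _ (hθ0 _ h)⟩
  refine ⟨θ, fun ξ => ⟨fun h => ?_, fun h => ?_⟩⟩
  · rcases lt_trichotomy ξ θ with h1 | h1 | h1
    · exact h1
    · subst h1; exact absurd h hθ
    · exact absurd (hl ξ h θ h1) hθ
  · by_contra h1
    exact hm ξ h1 h

end Pool.Agent.CTD
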