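import Mathlib
import Pool.Agent.Helper94_CTD.Basic

/-!
# Extending rows, limits of decreasing sequences of conditions, fusion
-/

open Set

namespace Pool.Agent.CTD

/-- Extending a row: the new row `s'` has an initial segment as its domain, all the new entries are
`(γ, i)` with `γ ∈ Γ`, and all of these occur. -/
theorem row (s : W1 → Option (Th × Bool)) (hs : {ξ | s ξ ≠ none}.Countable) (Γ : Set Th)
    (hΓ : Γ.Countable) (hne : Γ.Nonempty) (i : Bool) :
    ∃ (s' : W1 → Option (Th × Bool)) (θ : W1), (∀ ξ v, s ξ = some v → s' ξ = some v) ∧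
      (∀ ξ, s' ξ ≠ none ↔ ξ < θ) ∧ (∀ ξ v, s' ξ = some v → s ξ = some v ∨ (v.1 ∈ Γ ∧ v.2 = i)) ∧
      ∀ γ ∈ Γ, ∃ ξ, s' ξ = some (γ, i) := by
  classical
  obtain ⟨θ0, hθ0⟩ := bdd_W1 _ hs
  have hinf : (Set.Ici θ0 : Set W1).Infinite := by
    intro hfin
    apply unc_W1
    refine ((cnt_Iio_W1 θ0).union hfin.countable).mono (fun x _ => ?_)
    rcases lt_or_ge x θ0 with h | h
    · exact Or.inl h
    · exact Or.inr h
  obtain ⟨u, hu, hu2⟩ : ∃ u : ℕ → W1, Function.Injective u ∧ ∀ n, θ0 ≤ u n :=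
    ⟨fun n => (hinf.natEmbedding _ n).1, fun a b h => (hinf.natEmbedding _).injective
      (Subtype.ext h), fun n => (hinf.natEmbedding _ n).2⟩
  obtain ⟨θ, hθ⟩ := bdd_W1 (Set.range u) (Set.countable_range u)
  obtain ⟨g, hg⟩ := hΓ.exists_eq_range hne
  have hθθ : θ0 < θ := (hu2 0).trans_lt (hθ _ ⟨0, rfl⟩)
  refine ⟨fun ξ => if s ξ ≠ none then s ξ else
    if ξ < θ then some (g (Function.invFun u ξ), i) else none, θ, ?_, ?_, ?_, ?_⟩
  · intro ξ v h
    have h1 : s ξ ≠ none := by rw [h]; exact Option.some_ne_none _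
    simp only [if_pos h1]
    exact h
  · intro ξ
    by_cases h1 : s ξ ≠ none
    · simp only [if_pos h1]
      exact ⟨fun _ => (hθ0 ξ h1).trans hθθ, fun _ => h1⟩
    · by_cases h2 : ξ < θ
      · simp only [if_neg h1, if_pos h2]
        exact ⟨fun _ => h2, fun _ => Option.some_ne_none _⟩
      · simp only [if_neg h1, if_neg h2]
        exact ⟨fun h => absurd rfl h, fun h => absurd h h2⟩
  · intro ξ v h
    by_cases h1 : s ξ ≠ none
    · simp only [if_pos h1] at h
      exact Or.inl h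
    · by_cases h2 : ξ < θ
      · simp only [if_neg h1, if_pos h2] at h
        rw [← Option.some.inj h]
        refine Or.inr ⟨?_, rfl⟩
        rw [hg]
        exact ⟨_, rfl⟩
      · simp only [if_neg h1, if_neg h2] at h
        exact absurd h (Option.some_ne_none _).symm
  · intro γ hγ
    rw [hg] at hγ
    obtain ⟨n, rfl⟩ := hγ
    refine ⟨u n, ?_⟩
    have h1 : ¬ s (u n) ≠ none := fun h => absurd (hθ0 _ h) (not_lt.2 (hu2 n))
    simp only [if_neg h1, if_pos (hθ _ ⟨n, rfl⟩), Function.leftInverse_invFun hu n]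

/-- Lower bounds of decreasing sequences. -/
theorem lim (p : ℕ → Cnd) (hp : ∀ n, p (n + 1) ≤ p n) :
    ∃ q : Cnd, (∀ n, q ≤ p n) ∧ ∀ t ξ v, q.1 t ξ = some v → ∃ n, (p n).1 t ξ = some v := by
  classical
  have hanti : ∀ m n, m ≤ n → p n ≤ p m := by
    intro m n hmn
    induction hmn with
    | refl => exact le_refl _
    | step _ ih => exact (hp _).trans ih
  have huniq : ∀ m n t ξ v v', (p m).1 t ξ = some v → (p n).1 t ξ = some v' → v = v' := by
    intro m n t ξ v v' h h'
    rcases le_total m n with hmn | hmn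
    · have := hanti m n hmn t ξ v h
      rw [this] at h'
      exact Option.some.inj h'
    · have := hanti n m hmn t ξ v' h'
      rw [this] at h
      exact (Option.some.inj h).symm
  let q : Ev := fun t ξ => if h : ∃ v n, (p n).1 t ξ = some v then some h.choose else none
  have hq : ∀ t ξ v, q t ξ = some v ↔ ∃ n, (p n).1 t ξ = some v := by
    intro t ξ v
    by_cases h : ∃ v n, (p n).1 t ξ = some v
    · simp only [q, dif_pos h]
      obtain ⟨n, hn⟩ := h.choose_spec
      constructor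
      · intro h1
        rw [Option.some.inj h1] at hn
        exact ⟨n, hn⟩
      · rintro ⟨m, hm⟩
        rw [huniq _ _ _ _ _ _ hn hm]
    · simp only [q, dif_neg h]
      constructor
      · intro h1
        exact absurd h1 (Option.some_ne_none _).symm
      · intro h1
        exact absurd ⟨v, h1⟩ h
  have hc : IsCnd q := by
    refine ⟨?_, ?_⟩
    · refine (Set.countable_iUnion (fun n => (p n).2.cnt)).mono ?_
      intro x hx
      obtain ⟨v, hv⟩ := Option.ne_none_iff_exists'.1 hx
      obtain ⟨n, hn⟩ := (hq _ _ _).1 hv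
      refine mem_iUnion.2 ⟨n, ?_⟩
      show (p n).1 x.1 x.2 ≠ none
      rw [hn]
      exact Option.some_ne_none _
    · intro t ξ v hv
      obtain ⟨n, hn⟩ := (hq _ _ _).1 hv
      exact (p n).2.bd t ξ v hn
  exact ⟨⟨q, hc⟩, fun n t ξ v h => (hq _ _ _).2 ⟨n, h⟩, fun t ξ v h => (hq _ _ _).1 h⟩

/-- A limit of conditions which are equal to `p` off `A` is equal to `p` off `A`. -/
theorem off_lim (A : Set Nd) (p : ℕ → Cnd) (r : Cnd) (h : ∀ n, Off A (p n) r) (q : Cnd)
    (hq : ∀ n, q ≤ p n) (hq' : ∀ t ξ v, q.1 t ξ = some v → ∃ n, (p n).1 t ξ = some v) :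
    Off A q r := by
  intro t ht
  funext ξ
  cases hv : q.1 t ξ with
  | some v =>
    obtain ⟨n, hn⟩ := hq' _ _ _ hv
    rw [← h n t ht, hn]
  | none =>
    cases hv' : r.1 t ξ with
    | none => rfl
    | some v =>
      rw [← h 0 t ht] at hv'
      have := hq 0 t ξ v hv'
      rw [hv] at this
      exact this

/-- Changing a condition at the nodes of a countable set. -/
theorem updCnd (p : Cnd) (A : Set Nd) (hA : A.Countable) (s : Nd → W1 → Option (Th × Bool))
    (h1 : ∀ t ∈ A, {ξ | s t ξ ≠ none}.Countable) (h2 : ∀ t ∈ A, ∀ ξ v, s t ξ = some v → v.1 < t.len)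
    (h3 : ∀ t ∈ A, ∀ ξ v, p.1 t ξ = some v → s t ξ = some v) :
    ∃ q ≤ p, Off A q p ∧ ∀ t ∈ A, q.1 t = s t := by
  classical
  let q : Ev := fun t => if t ∈ A then s t else p.1 t
  have hq1 : ∀ t ∈ A, q t = s t := fun t ht => if_pos ht
  have hq2 : ∀ t, t ∉ A → q t = p.1 t := fun t ht => if_neg ht
  have hc : IsCnd q := by
    refine ⟨?_, ?_⟩
    · refine (p.2.cnt.union (hA.biUnion (fun t ht => (h1 t ht).image (fun ξ => (t, ξ))))).mono ?_
      rintro ⟨t, ξ⟩ hx
      by_cases ht : t ∈ A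
      · refine Or.inr (mem_biUnion ht ⟨ξ, ?_, rfl⟩)
        have : q t ξ ≠ none := hx
        rw [hq1 t ht] at this
        exact this
      · refine Or.inl ?_
        have : q t ξ ≠ none := hx
        rw [hq2 t ht] at this
        exact this
    · intro t ξ v hv
      by_cases ht : t ∈ A
      · rw [hq1 t ht] at hv
        exact h2 t ht ξ v hv
      · rw [hq2 t ht] at hv
        exact p.2.bd t ξ v hv
  refine ⟨⟨q, hc⟩, ?_, hq2, hq1⟩
  intro t ξ v hv
  by_cases ht : t ∈ A
  · show q t ξ = some v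
    rw [hq1 t ht]
    exact h3 t ht ξ v hv
  · show q t ξ = some v
    rw [hq2 t ht]
    exact hv

/-- Fusion for countably many dense sets, with changes only at the nodes of `A`. -/
theorem fusion {ι : Type*} [Countable ι] (A : Set Nd) (D : ι → Cnd → Prop)
    (mono : ∀ i p q, q ≤ p → D i p → D i q) (dense : ∀ i p, ∃ q ≤ p, Off A q p ∧ D i q) (p : Cnd) :
    ∃ q ≤ p, Off A q p ∧ ∀ i, D i q := by
  rcases isEmpty_or_nonempty ι with hι | hι
  · exact ⟨p, le_refl _, Off.refl _ _, fun i => (hι.false i).elim⟩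
  obtain ⟨f, hf⟩ := exists_surjective_nat ι
  choose nx hx1 hx2 hx3 using dense
  let s : ℕ → Cnd := fun n => Nat.rec p (fun n q => nx (f n) q) n
  have hs : ∀ n, s (n + 1) = nx (f n) (s n) := fun n => rfl
  obtain ⟨q, hq, hq'⟩ := lim s (fun n => by rw [hs]; exact hx1 _ _)
  have hoff : ∀ n, Off A (s n) p := by
    intro n
    induction n with
    | zero => exact Off.refl _ _
    | succ n ih => rw [hs]; exact (hx2 _ _).trans ih
  refine ⟨q, hq 0, off_lim A s p hoff q hq hq', fun i => ?_⟩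
  obtain ⟨n, rfl⟩ := hf i
  refine mono _ _ _ (hq (n + 1)) ?_
  rw [hs]
  exact hx3 _ _

end Pool.Agent.CTD
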