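import Mathlib
import Pool.Agent.Helper94_CTD.Basic2

/-!
# Statements of the modules of the forcing part
-/

open Set

namespace Pool.Agent.CTD

/-! ## Group A: ordinals and sizes -/

/-- A1: closure points. -/
def A1Pt : Prop := ∀ (g : Th → Th) (ζ0 : Th), ∃ ζ, ζ0 < ζ ∧ (∀ x < ζ, g x < ζ) ∧
  ∀ C : Set Th, C.Countable → (∀ x ∈ C, x < ζ) → ∃ ζ' < ζ, ∀ x ∈ C, x < ζ'

/-- A2: bounding a small family. -/
def A2Bd : Prop := ∀ (ι : Type 1) [Small.{0} ι] (P : ι → Th → Prop),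
  (∀ i α β, α ≤ β → P i α → P i β) → (∀ i, ∃ α, P i α) → ∃ α, ∀ i, P i α

/-- A3: the enumeration of the nodes is a bijection and its initial parts are small. -/
def A3Ix : Prop := A3Nd ∧ (∀ t, xi (ix t) = t) ∧ (∀ α, ix (xi α) = α) ∧
  ∀ ζ, Small.{0} (T ζ)

/-- A4: there are few conditions with support in a small set, and few sets of patterns depending on
a small set. -/
def A4Sm : Prop := (∀ S : Set Nd, Small.{0} S → Small.{0} {s : Cnd | Spt S s}) ∧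
  ∀ S : Set Nd, Small.{0} S → Small.{0} {Z : Set (Nd → Bool) | Dep S Z}

/-! ## Group C: combinatorics of the conditions -/

/-- C7: if `t` and `r` split at `γ0` then after an extension at the nodes between (above `γ0`) the
value at `t` is determined for the branches which follow `r` on some countable set. -/
def C7Or : Prop := ∀ (p : Cnd) (t r : Nd) (γ0 : Th), γ0 < t.len → γ0 < r.len →
  t.res γ0 = r.res γ0 → t.fn γ0 ≠ r.fn γ0 →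
  ∃ q ≤ p, Off {t' | ∃ γ, γ0 < γ ∧ γ ≤ t.len ∧ t' = t.res γ} q p ∧
    ∃ Γ : Set Th, Γ.Countable ∧ (∀ γ ∈ Γ, γ ≤ γ0) ∧ ∃ i : Bool,
      Ent q {e | ∀ b, (∀ γ ∈ Γ, fv e b (r.res γ) = r.fn γ) → fv e b t = i}

/-- C2: the values can be decided. -/
def C2De : Prop := ∀ (p : Cnd) (b : Br) (D : Set Nd), D.Countable →
  ∃ q ≤ p, ∃ φ : Nd → Bool, Ent q {e | ∀ t ∈ D, fv e b t = φ t}

/-- C3: closing off, with additional required entries `R`. -/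
def C3Cl : Prop := ∀ (R : Nd → Set Th), (∀ t, (R t).Countable) → (∀ t, ∀ γ ∈ R t, γ < t.len) →
  ∀ (S : Set Nd), RC S → ∀ (F : Set Nd), F.Countable → ∀ p : Cnd,
  ∃ q ≤ p, ∃ F' : Set Nd, F ⊆ F' ∧ Clo q.1 S F' ∧ ∀ t ∈ F', t ∉ S → ∀ γ ∈ R t, ent q.1 t γ

/-- C4: the decided region, and the dependence of `dec`. -/
def C4Dr : Prop := ∀ (q : Ev) (S F : Set Nd), RC S → Clo q S F →
  (∀ e, Ext e q → ∀ b, ∀ t ∈ F, t ∉ S →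
    (∃ γ < exl S t, ent q t γ ∧ fv e b (t.res γ) ≠ t.fn γ) → fv e b t = dec q S (fv e b) t) ∧
  ∀ π π' : Nd → Bool, (∀ t ∈ F ∩ S, π t = π' t) → ∀ t ∈ F, dec q S π t = dec q S π' t

/-- C5: the pattern extension. -/
def C5Pa : Prop := ∀ (q : Cnd) (S F : Set Nd), RC S → Clo q.1 S F → ∀ (q' : Cnd), q' ≤ q →
  Off S q' q → ∀ (r : Nd) (e0 : Ev) (b0 : Br), Ext e0 q.1 → fv e0 b0 ∈ vr q.1 S F r →
  ∀ Γ : Set Th, Γ.Countable → (∀ γ ∈ Γ, γ < r.len) →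
  ∃ q'' ≤ q', Ent q'' {e | ∀ b, fv e b ∈ vr q.1 S F r → fv e b ∈ ur Γ r →
    ∀ t ∈ F, t ∉ S → exn S t = r → fv e b t = fv e0 b0 t}

/-- C6: density. -/
def C6Dn : Prop := ∀ (p : Cnd) (b : Br) (F : Set Nd), F.Countable →
  ∃ q ≤ p, ∃ b' ∈ D0, Ent q {e | ∀ t ∈ F, fv e b' t = fv e b t}

/-- C8: facts on exit lengths. -/
def C8Ex : Prop := ∀ S : Set Nd, RC S →
  (∀ t, t ∉ S → exl S t ≤ t.len ∧ exn S t ∉ S ∧ (∀ γ < exl S t, t.res γ ∈ S) ∧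
    ∀ γ, exl S t ≤ γ → γ ≤ t.len → t.res γ ∉ S ∧ exl S (t.res γ) = exl S t ∧
      exn S (t.res γ) = exn S t) ∧
  (∀ t t', t ∉ S → t' ∉ S → exn S t ≠ exn S t' →
    ∃ γ, γ < exl S t ∧ γ < exl S t' ∧ t.res γ = t'.res γ ∧ t.fn γ ≠ t'.fn γ) ∧
  (∀ r t, r ∉ S → (∀ γ < r.len, r.res γ ∈ S) → t ∈ S → (∃ γ < r.len, t = r.res γ) ∨
    ∃ γ, γ < t.len ∧ γ < r.len ∧ t.res γ = r.res γ ∧ t.fn γ ≠ r.fn γ)

/-- C10: amalgamation of a condition `q` and a condition `s` below it, taking the values of `s` on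
`S` and those of `q` off `S`. -/
def C10Am : Prop := ∀ (S : Set Nd) (q s : Cnd), s ≤ q → ∃ q' : Cnd, s ≤ q' ∧ q' ≤ q ∧ Off S q' q ∧
  (∀ s' : Cnd, Spt S s' → s ≤ s' → q' ≤ s')

/-! ## Group D: Boolean values -/

/-- D1: calculus of the Boolean values. -/
def D1Va : Prop := ∀ (B : Type 1) [CompleteBooleanAlgebra B] (io : Cnd → B), IsDenseEmb io →
  (∀ q A, Ent q A → io q ≤ val io A) ∧
  (∀ p A, io p ⊓ val io A ≠ ⊥ → ∃ q ≤ p, Ent q A) ∧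
  (∀ A A', val io (A ∩ A') = val io A ⊓ val io A') ∧
  (∀ q A A', Ent q {e | e ∈ A → e ∈ A'} → io q ⊓ val io A ≤ val io A') ∧
  (∀ A, (∀ p : Cnd, ∃ q ≤ p, Ent q A ∨ Ent q Aᶜ) → val io Aᶜ = (val io A)ᶜ) ∧
  val io Set.univ = ⊤ ∧ val io ∅ = ⊥

/-- D2: calculus of the values of sets of patterns. -/
def D2Cv : Prop := ∀ (B : Type 1) [CompleteBooleanAlgebra B] (io : Cnd → B), IsDenseEmb io →
  (∀ Z Z' b, cv io (Z ∩ Z') b = cv io Z b ⊓ cv io Z' b) ∧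
  (∀ Z b, Cd Set.univ Z → cv io Zᶜ b = (cv io Z b)ᶜ) ∧
  (∀ Z Z' q b, Ent q {e | fv e b ∈ Z → fv e b ∈ Z'} → io q ⊓ cv io Z b ≤ cv io Z' b) ∧
  (∀ b, cv io Set.univ b = ⊤) ∧
  (∀ (K : Finset Nd) φ b, cv io (Zf K φ) b = ⨅ t ∈ K, cv io {π | π t = φ t} b)

/-- D3: Boolean valued ultrafilters. -/
def D3Uf : Prop := ∀ (I : Type 1) (B : Type 1) [CompleteBooleanAlgebra B] [Nonempty I]
  (S : Set (I → B)) (b0 : B), (∀ s ∈ S, ∀ s' ∈ S, s ⊓ s' ∈ S) → (∀ s ∈ S, b0 ≤ ⨆ i, s i) →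
  ∃ μ : (I → B) → B, UF μ ∧ ∀ s ∈ S, b0 ≤ μ s

/-- D4: the compactness step. -/
def D4Co : Prop := ∀ (B : Type 1) [CompleteBooleanAlgebra B] (F : Br → Th → B) (y : Th → Th → B)
  (α : Th) (b0 : B), b0 ≤ (⨅ β, IsX F (y β)) →
  b0 ⊓ (⨆ z : Th → B, IsX F z ⊓ (⨅ K : Finset Th, ⨆ β, ⨆ _ : β < α, agr K z (y β)) ⊓
    (⨅ K : Finset Th, ⨆ β, ⨆ _ : α ≤ β, agr K z (y β))) = ⊥ →
  b0 ≤ ⨆ K : Finset Th, ⨅ β, ⨅ _ : β < α, ⨅ β', ⨅ _ : α ≤ β', (agr K (y β) (y β'))ᶜ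

/-- D5: antichains are bounded. -/
def D5An : Prop := ∀ A : Set Cnd, (∀ p ∈ A, ∀ q ∈ A, (∃ r : Cnd, r ≤ p ∧ r ≤ q) → p = q) →
  ∃ ζ, ∀ p ∈ A, Spt (T ζ) p

/-- D6: suprema are suprema of small subfamilies. -/
def D6Su : Prop := ∀ (B : Type 1) [CompleteBooleanAlgebra B] (io : Cnd → B), IsDenseEmb io →
  ∀ (ι : Type 1) (h : ι → B), ∃ J : Set ι, Small.{0} J ∧ (⨆ i ∈ J, h i) = ⨆ i, h i

/-- D7: good elements. -/
def D7Go : Prop := ∀ (B : Type 1) [CompleteBooleanAlgebra B] (io : Cnd → B), IsDenseEmb io →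
  (∀ S S' b, S ⊆ S' → Good io S b → Good io S' b) ∧
  (∀ S b, Good io S b ↔ ∀ p : Cnd, io p ⊓ b ≠ ⊥ → ∃ s : Cnd, Spt S s ∧ io s ≤ b ∧ io s ⊓ io p ≠ ⊥) ∧
  (∀ S b c, Good io S b → Good io S c → Good io S (b ⊓ c)) ∧
  (∀ S b c, Good io S b → Good io S c → Good io S (b ⊔ c)) ∧
  (∀ b, ∃ ζ, Good io (T ζ) b) ∧
  (∀ S : Set Nd, Small.{0} S → Small.{0} {b : B | Good io S b})

/-- D8: closure points for a sequence of ultrafilters. -/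
def D8Cp : Prop := ∀ (B : Type 1) [CompleteBooleanAlgebra B] (io : Cnd → B), IsDenseEmb io →
  ∀ μ : Th → (Br → B) → B, ∃ ζ, CP io μ ζ

/-- D9: facts on Boolean valued ultrafilters. -/
def D9Uf : Prop := ∀ (I : Type 1) (B : Type 1) [CompleteBooleanAlgebra B] (μ : (I → B) → B),
  UF μ → (∀ Φ Ψ : I → B, Φ ≤ Ψ → μ Φ ≤ μ Ψ) ∧ (∀ Φ, μ Φ ≤ ⨆ i, Φ i) ∧ (∀ Φ, (⨅ i, Φ i) ≤ μ Φ) ∧
  (∀ Φ Ψ : I → B, μ (fun i => Φ i ⊔ Ψ i) = μ Φ ⊔ μ Ψ) ∧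
  (∀ Φ Ψ : I → B, μ (fun i => bihimp (Φ i) (Ψ i)) = bihimp (μ Φ) (μ Ψ)) ∧
  (∀ (c : B) (Φ Ψ : I → B), (∀ i, c ⊓ Φ i ≤ Ψ i) → c ⊓ μ Φ ≤ μ Ψ) ∧
  (∀ (T : Type 1) (K : Finset T) (Φ : T → I → B), μ (fun i => ⨅ t ∈ K, Φ t i) = ⨅ t ∈ K, μ (Φ t)) ∧
  (∀ (T : Type 1) (K : Finset T) (Φ : T → I → B), μ (fun i => ⨆ t ∈ K, Φ t i) = ⨆ t ∈ K, μ (Φ t))

/-- D10: the core argument. -/
def D10Co : Prop := ∀ (B : Type 1) [CompleteBooleanAlgebra B] (io : Cnd → B), IsDenseEmb io →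
  ∀ (μ : Th → (Br → B) → B), (∀ β, UF (μ β)) → ∀ ζ, CP io μ ζ → ∀ (K : Finset Nd) (φ : Nd → Bool)
  (q0 : Cnd), io q0 ≤ μ ζ (cv io (Zf K φ)) → (∀ β < ζ, io q0 ⊓ μ β (cv io (Zf K φ)) = ⊥) → False

/-- D11: the property p7 of `Sys`. -/
def D11P7 : Prop := ∀ (B : Type 1) [CompleteBooleanAlgebra B] (io : Cnd → B), IsDenseEmb io →
  ∀ y : Th → Th → B, (⨅ β, IsX (Fb io) (y β)) ≤ ⨆ α : Th, ⨆ z : Th → B, IsX (Fb io) z ⊓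
    (⨅ K : Finset Th, ⨆ β, ⨆ _ : β < α, agr K z (y β)) ⊓
    (⨅ K : Finset Th, ⨆ β, ⨆ _ : α ≤ β, agr K z (y β))

/-- D12: the properties p1 and p2 of `Sys`. -/
def D12P2 : Prop := ∀ (B : Type 1) [CompleteBooleanAlgebra B] (io : Cnd → B), IsDenseEmb io →
  (∀ b b', b ≠ b' → ∃ α, bihimp (Fb io b α) (Fb io b' α) = ⊥) ∧
  ∃ (α0 : Th) (d : Th → Br), (∀ i < α0, ∀ j < α0, d i = d j → i = j) ∧
    ∀ b (K : Finset Th), (⨆ i, ⨆ _ : i < α0, agr K (Fb io b) (Fb io (d i))) = ⊤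

/-- D13: the collapse, properties j1, j2, j3 of `Sys`. -/
def D13Ja : Prop := ∀ (B : Type 1) [CompleteBooleanAlgebra B] (io : Cnd → B), IsDenseEmb io →
  ∃ J : Th → Th → Th → B, (∀ α, ∀ β < α, (⨆ ξ, ⨆ _ : ξ < o1, J α β ξ) = ⊤) ∧
    (∀ α β ξ ξ', ξ ≠ ξ' → J α β ξ ⊓ J α β ξ' = ⊥) ∧
    (∀ α β β' ξ, β ≠ β' → J α β ξ ⊓ J α β' ξ = ⊥)

/-- D14: `ω₁` is not collapsed. -/
def D14P4 : Prop := ∀ (B : Type 1) [CompleteBooleanAlgebra B] (io : Cnd → B), IsDenseEmb io →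
  NoInj B (fun ξ => ξ < o1) (fun n => n < Ordinal.omega0)

/-- D15: the set of ordinals is not collapsed to `ω₁`. -/
def D15P5 : Prop := ∀ (B : Type 1) [CompleteBooleanAlgebra B] (io : Cnd → B), IsDenseEmb io →
  NoInj B (fun _ => True) (fun ξ => ξ < o1)

/-- D16: counting. -/
def D16P6 : Prop := ∀ (B : Type 1) [CompleteBooleanAlgebra B] (io : Cnd → B), IsDenseEmb io →
  ∀ y : Br → Th → B, ∃ b b', b ≠ b' ∧ ∀ ξ < o1, y b ξ = y b' ξ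

/-- D17: the forcing part. -/
def D17Sy : Prop := ∃ (B : Type 1) (_ : CompleteBooleanAlgebra B) (F : Br → Th → B) (α0 : Th)
  (d : Th → Br) (J : Th → Th → Th → B), Sys B F α0 d J

end Pool.Agent.CTD
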