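import Mathlib
import Pool.Agent.Helper94_CTD.Stmts

/-!
# Module D10: the core argument
-/

open Set

namespace Pool.Agent.CTD.H94

/-! ## Countably supported sets of patterns -/

theorem Dep.mono {D D' : Set Nd} {Z : Set (Nd → Bool)} (h : Dep D Z) (hD : D ⊆ D') : Dep D' Z :=
  fun π π' h' => h π π' (fun t ht => h' t (hD ht))

theorem cd_inter {S : Set Nd} {Z Z' : Set (Nd → Bool)} (h : Cd S Z) (h' : Cd S Z') :
    Cd S (Z ∩ Z') := by
  obtain ⟨D, hD, hc, hd⟩ := h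
  obtain ⟨D', hD', hc', hd'⟩ := h'
  refine ⟨D ∪ D', union_subset hD hD', hc.union hc', fun π π' hp => ?_⟩
  exact and_congr (hd π π' (fun t ht => hp t (Or.inl ht))) (hd' π π' (fun t ht => hp t (Or.inr ht)))

theorem cd_compl {S : Set Nd} {Z : Set (Nd → Bool)} (h : Cd S Z) : Cd S Zᶜ := by
  obtain ⟨D, hD, hc, hd⟩ := h
  exact ⟨D, hD, hc, fun π π' hp => not_congr (hd π π' hp)⟩

theorem cd_mono {S S' : Set Nd} (hS : S ⊆ S') {Z : Set (Nd → Bool)} (h : Cd S Z) : Cd S' Z := by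
  obtain ⟨D, hD, hc, hd⟩ := h
  exact ⟨D, hD.trans hS, hc, hd⟩

theorem cd_one {S : Set Nd} {t : Nd} (ht : t ∈ S) (i : Bool) : Cd S {π | π t = i} :=
  ⟨{t}, singleton_subset_iff.2 ht, countable_singleton _, fun π π' h => by
    show π t = i ↔ π' t = i
    rw [h t rfl]⟩

theorem cd_forall {S : Set Nd} {ι : Type*} (K : Finset ι) (Z : ι → Set (Nd → Bool))
    (h : ∀ r ∈ K, Cd S (Z r)) : Cd S {π | ∀ r ∈ K, π ∈ Z r} := by
  classical
  induction K using Finset.induction_on with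
  | empty =>
    exact ⟨∅, empty_subset _, countable_empty, fun π π' _ => by simp⟩
  | insert a K ha ih =>
    have h1 := ih (fun r hr => h r (Finset.mem_insert_of_mem hr))
    have h2 : {π | ∀ r ∈ insert a K, π ∈ Z r} = Z a ∩ {π | ∀ r ∈ K, π ∈ Z r} := by
      ext π
      simp
    rw [h2]
    exact cd_inter (h a (Finset.mem_insert_self _ _)) h1

theorem cd_ur {S : Set Nd} {r : Nd} (hr : ∀ γ < r.len, r.res γ ∈ S) {Γ : Set Th}
    (hΓ : Γ.Countable) (hΓ' : ∀ γ ∈ Γ, γ < r.len) : Cd S (ur Γ r) := by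
  refine ⟨(fun γ => r.res γ) '' Γ, ?_, hΓ.image _, fun π π' h => ?_⟩
  · rintro _ ⟨γ, hγ, rfl⟩
    exact hr γ (hΓ' γ hγ)
  · refine exists_congr (fun γ => and_congr_right (fun hγ => ?_))
    rw [h (r.res γ) ⟨γ, hγ, rfl⟩]

theorem cnt_Gam (q : Cnd) (S : Set Nd) {F : Set Nd} (hF : F.Countable) (r : Nd) :
    (Gam q.1 S F r).Countable := by
  refine (hF.biUnion (fun t _ => cnt_ent q t)).mono ?_
  rintro γ ⟨-, t, ht, -, -, hγ⟩
  exact mem_biUnion ht hγ

theorem cd_vr (q : Cnd) {S F : Set Nd} (hF : F.Countable) {r : Nd}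
    (hr : ∀ γ < r.len, r.res γ ∈ S) : Cd S (vr q.1 S F r) := by
  refine ⟨(fun γ => r.res γ) '' (Gam q.1 S F r), ?_, (cnt_Gam q S hF r).image _, fun π π' h => ?_⟩
  · rintro _ ⟨γ, hγ, rfl⟩
    exact hr γ hγ.1
  · refine forall_congr' (fun γ => forall_congr' (fun hγ => ?_))
    rw [h (r.res γ) ⟨γ, hγ, rfl⟩]

/-! ## Boolean algebra -/

section ba

variable {B : Type 1} [CompleteBooleanAlgebra B]

theorem exists_of_le_iSup {ι : Sort*} {f : ι → B} {c : B} (hc : c ≠ ⊥) (h : c ≤ ⨆ i, f i) :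
    ∃ i, c ⊓ f i ≠ ⊥ := by
  by_contra hcon
  push Not at hcon
  apply hc
  rw [← inf_eq_left.2 h, inf_iSup_eq]
  exact iSup_eq_bot.2 hcon

theorem ne_bot_of_le {a b : B} (ha : a ≠ ⊥) (h : a ≤ b) : b ≠ ⊥ := fun hb => ha (le_bot_iff.1 (hb ▸ h))

theorem le_compl_of_inf {a b : B} (h : a ⊓ b = ⊥) : a ≤ bᶜ :=
  le_compl_iff_disjoint_right.2 (disjoint_iff.2 h)

theorem inf_bot_of_le_compl {a b : B} (h : a ≤ bᶜ) : a ⊓ b = ⊥ :=
  disjoint_iff.1 (le_compl_iff_disjoint_right.1 h)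

end ba

/-! ## The two key facts -/

/-- the decided region, first form -/
theorem key1 (h4 : C4Dr) {q : Cnd} {S F : Set Nd} (hS : RC S) (hc : Clo q.1 S F)
    {e : Ev} (he : Ext e q.1) {b : Br} {t : Nd} (ht : t ∈ F) (htS : t ∉ S)
    (hv : fv e b ∉ vr q.1 S F (exn S t)) : fv e b t = dec q.1 S (fv e b) t := by
  have h1 : ∃ γ ∈ Gam q.1 S F (exn S t), fv e b ((exn S t).res γ) ≠ (exn S t).fn γ := by
    by_contra hcon
    push Not at hcon
    exact hv hcon
  obtain ⟨γ, ⟨hγ, t', ht', htS', hex, hent⟩, hne⟩ := h1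
  have hγ' : γ < exl S t := hγ
  have hl : exl S t' = exl S t := congrArg Nd.len hex
  refine (h4 q.1 S F hS hc).1 e he b t ht htS ⟨γ, hγ', ?_, ?_⟩
  · exact hc.same t' ht' htS' t ht htS hex γ (by rw [hl]; exact hγ') hent
  · have e1 : (exn S t).res γ = t.res γ := res_res t hγ'.le
    have e2 : (exn S t).fn γ = t.fn γ := res_fn t hγ'
    rw [e1, e2] at hne
    exact hne

/-- the decided region, second form -/
theorem key2 (h4 : C4Dr) {q : Cnd} {S F : Set Nd} (hS : RC S) (hc : Clo q.1 S F)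
    {e : Ev} (he : Ext e q.1) {b : Br} {t t' : Nd} (ht : t ∈ F) (htS : t ∉ S) (ht' : t' ∈ F)
    (htS' : t' ∉ S) (hne : exn S t ≠ exn S t') (hv : fv e b ∈ vr q.1 S F (exn S t')) :
    fv e b t = dec q.1 S (fv e b) t := by
  obtain ⟨γ, h1, h2, h3, h5, h6⟩ := hc.diff t ht htS t' ht' htS' hne
  obtain ⟨γ', h1', h2', h3', h5', h6'⟩ := hc.diff t' ht' htS' t ht htS (Ne.symm hne)
  have hγ : γ' = γ := by
    rcases lt_trichotomy γ γ' with h | h | h
    · exact absurd (fn_eq_of_res h3' h).symm h5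
    · exact h.symm
    · exact absurd (fn_eq_of_res h3 h).symm h5'
  subst hγ
  have hG : γ' ∈ Gam q.1 S F (exn S t') := ⟨h1', t', ht', htS', rfl, h6'⟩
  have h7 := hv γ' hG
  have e1 : (exn S t').res γ' = t'.res γ' := res_res t' h1'.le
  have e2 : (exn S t').fn γ' = t'.fn γ' := res_fn t' h1'
  rw [e1, e2, ← h3] at h7
  refine (h4 q.1 S F hS hc).1 e he b t ht htS ⟨γ', h1, h6, ?_⟩
  rw [h7]
  exact Ne.symm h5

/-! ## The core argument -/

theorem d10 (h3 : C3Cl) (h4 : C4Dr) (h5 : C5Pa) (h7 : C7Or) (h8 : C8Ex) (h10 : C10Am) (hD2 : D2Cv)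
    (hD7 : D7Go) (hD9 : D9Uf) (hD1 : D1Va) : D10Co := by
  classical
  intro B _ io hio μ hμ ζ hζ K φ q0 hq0 hneg
  obtain ⟨hc1, hc2, hc3, hc4, hc5⟩ := hD2 B io hio
  have hRC := hζ.res
  obtain ⟨q, hq, F, hKF, hclo, -⟩ := h3 (fun _ => ∅) (fun _ => countable_empty)
    (fun _ _ h => h.elim) (T ζ) hRC (K : Set Nd) (Finset.countable_toSet K) q0
  set S := T ζ with hSdef
  obtain ⟨h8a, h8b, h8c⟩ := h8 S hRC
  have hKF' : ∀ t ∈ K, t ∈ F := fun t ht => hKF (Finset.mem_coe.2 ht)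
  -- transfer
  have tr : ∀ (β : Th) (q' : Cnd) (Z Z' : Set (Nd → Bool)),
      Ent q' {e | ∀ b, fv e b ∈ Z → fv e b ∈ Z'} →
      io q' ⊓ μ β (cv io Z) ≤ μ β (cv io Z') := by
    intro β q' Z Z' h
    exact (hD9 Br B (μ β) (hμ β)).2.2.2.2.2.1 (io q') _ _
      (fun b => hc3 Z Z' q' b (fun e he => h e he b))
  have mi : ∀ (β : Th) (Z Z' : Set (Nd → Bool)),
      μ β (cv io (Z ∩ Z')) = μ β (cv io Z) ⊓ μ β (cv io Z') := by
    intro β Z Z'
    rw [← (hμ β).inf]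
    congr 1
    funext b
    exact hc1 Z Z' b
  have mc : ∀ (β : Th) (Z : Set (Nd → Bool)), Cd S Z → μ β (cv io Zᶜ) = (μ β (cv io Z))ᶜ := by
    intro β Z hZ
    rw [← (hμ β).compl]
    congr 1
    funext b
    exact hc2 Z b (cd_mono (subset_univ _) hZ)
  have tr' : ∀ (β : Th) (q' : Cnd) (Z Z' : Set (Nd → Bool)),
      Ent q' {e | ∀ b, fv e b ∈ Z → fv e b ∈ Z'} → io q' ≤ μ β (cv io Z) →
      io q' ≤ μ β (cv io Z') := fun β q' Z Z' h h' =>
    (le_inf le_rfl h').trans (tr β q' Z Z' h)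
  have hioq : io q ≤ μ ζ (cv io (Zf K φ)) := (hio.mono _ _ hq).trans hq0
  -- a condition below q whose value meets the value at some β < ζ is impossible
  have hneg' : ∀ β < ζ, ∀ q' ≤ q, io q' ⊓ μ β (cv io (Zf K φ)) = ⊥ := by
    intro β hβ q' hq'
    refine le_bot_iff.1 ?_
    rw [← hneg β hβ]
    exact inf_le_inf_right _ (hio.mono _ _ (hq'.trans hq))
  have hexr : ∀ t ∈ K, t ∉ S → ∀ γ < (exn S t).len, (exn S t).res γ ∈ S := by
    intro t ht htS γ hγ
    have : (exn S t).res γ = t.res γ := res_res t (le_of_lt hγ)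
    rw [this]
    exact (h8a t htS).2.2.1 γ hγ
  set R : Finset Nd := (K.filter (fun t => t ∉ S)).image (exn S) with hR
  have hRmem : ∀ r ∈ R, ∃ t ∈ K, t ∉ S ∧ exn S t = r := by
    intro r hr
    obtain ⟨t, ht, rfl⟩ := Finset.mem_image.1 hr
    exact ⟨t, (Finset.mem_filter.1 ht).1, (Finset.mem_filter.1 ht).2, rfl⟩
  have hRcd : ∀ r ∈ R, Cd S (vr q.1 S F r) := by
    intro r hr
    obtain ⟨t, ht, htS, rfl⟩ := hRmem r hr
    exact cd_vr q hclo.cnt (hexr t ht htS)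
  have hdec : ∀ (P : Nd → Prop), Cd S {π | ∀ t ∈ K, P t → dec q.1 S π t = φ t} := by
    intro P
    refine ⟨F ∩ S, inter_subset_right, hclo.cnt.mono inter_subset_left, fun π π' h => ?_⟩
    refine forall_congr' (fun t => forall_congr' (fun ht => ?_))
    rw [(h4 q.1 S F hRC hclo).2 π π' h t (hKF' t ht)]
  by_cases hcase : ∃ r ∈ R, io q ⊓ μ ζ (cv io (vr q.1 S F r)) ≠ ⊥
  swap
  · -- case (a)
    push Not at hcase
    set W : Set (Nd → Bool) := {π | ∀ r ∈ R, π ∈ (vr q.1 S F r)ᶜ} with hW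
    set Z : Set (Nd → Bool) := W ∩ {π | ∀ t ∈ K, True → dec q.1 S π t = φ t} with hZ
    have hWcd : Cd S W := cd_forall R _ (fun r hr => cd_compl (hRcd r hr))
    have hZcd : Cd S Z := cd_inter hWcd (hdec _)
    have hqW : io q ≤ μ ζ (cv io W) := by
      have key : ∀ R' : Finset Nd, R' ⊆ R → io q ≤ μ ζ (cv io {π | ∀ r ∈ R', π ∈ (vr q.1 S F r)ᶜ}) := by
        intro R'
        induction R' using Finset.induction_on with
        | empty =>
          intro _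
          have e1 : {π : Nd → Bool | ∀ r ∈ (∅ : Finset Nd), π ∈ (vr q.1 S F r)ᶜ} = univ := by
            ext π; simp
          rw [e1]
          have e2 : cv io (univ : Set (Nd → Bool)) = fun _ => ⊤ := by
            funext b; exact hc4 b
          rw [e2, (hμ ζ).const]
          exact le_top
        | insert a R' ha ih =>
          intro hsub
          have e1 : {π : Nd → Bool | ∀ r ∈ insert a R', π ∈ (vr q.1 S F r)ᶜ} =
              (vr q.1 S F a)ᶜ ∩ {π | ∀ r ∈ R', π ∈ (vr q.1 S F r)ᶜ} := by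
            ext π; simp
          rw [e1, mi]
          have ha' : a ∈ R := hsub (Finset.mem_insert_self _ _)
          refine le_inf ?_ (ih (fun r hr => hsub (Finset.mem_insert_of_mem hr)))
          rw [mc ζ _ (hRcd a ha')]
          exact le_compl_of_inf (hcase a ha')
      exact key R (Finset.Subset.refl _)
    have hk : ∀ e, Ext e q.1 → ∀ b, fv e b ∈ W → ∀ t ∈ K, fv e b t = dec q.1 S (fv e b) t := by
      intro e he b hb t ht
      by_cases htS : t ∈ S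
      · rw [dec_in _ _ _ _ htS]
      · refine key1 h4 hRC hclo he (hKF' t ht) htS ?_
        exact hb _ (Finset.mem_image.2 ⟨t, Finset.mem_filter.2 ⟨ht, htS⟩, rfl⟩)
    have hqZ : io q ≤ μ ζ (cv io Z) := by
      refine tr' ζ q (W ∩ Zf K φ) Z (fun e he b hb => ⟨hb.1, fun t ht _ => ?_⟩) ?_
      · rw [← hk e he b hb.1 t ht]
        exact hb.2 t ht
      · rw [mi]
        exact le_inf hqW hioq
    obtain ⟨β, hβ⟩ := exists_of_le_iSup (hio.ne_bot q) (hqZ.trans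
      ((le_iSup (fun β => μ β (cv io Z)) ζ).trans (hζ.refl1 Z hZcd)))
    by_cases hβζ : β < ζ
    swap
    · apply hβ
      rw [iSup_neg hβζ, inf_bot_eq]
    rw [iSup_pos hβζ] at hβ
    refine hβ (le_bot_iff.1 ?_)
    rw [← hneg' β hβζ q le_rfl]
    refine le_inf inf_le_left (tr β q Z (Zf K φ) (fun e he b hb t ht => ?_))
    show fv e b t = φ t
    rw [hk e he b hb.1 t ht]
    exact hb.2 t ht trivial
  · -- case (b)
    obtain ⟨r, hrR, hne⟩ := hcase
    obtain ⟨tr0, htrK, htrS, htrx⟩ := hRmem r hrR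
    have hrlen : ∀ γ < r.len, r.res γ ∈ S := by
      rw [← htrx]
      exact hexr tr0 htrK htrS
    have hrS : r ∉ S := by
      rw [← htrx]
      exact (h8a tr0 htrS).2.1
    rw [inf_comm] at hne
    obtain ⟨q1, hq1, hq1v⟩ := hio.dense q _ hne
    set V : Set (Nd → Bool) := vr q.1 S F r with hV
    set Z : Set (Nd → Bool) := V ∩ {π | ∀ t ∈ K, (t ∈ S ∨ exn S t ≠ r) → dec q.1 S π t = φ t}
      with hZ
    have hVcd : Cd S V := hRcd r hrR
    have hZcd : Cd S Z := cd_inter hVcd (hdec _)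
    have hk : ∀ e, Ext e q.1 → ∀ b, fv e b ∈ V → ∀ t ∈ K, (t ∈ S ∨ exn S t ≠ r) →
        fv e b t = dec q.1 S (fv e b) t := by
      intro e he b hb t ht hor
      by_cases htS : t ∈ S
      · rw [dec_in _ _ _ _ htS]
      · rcases hor with h | h
        · exact absurd h htS
        · refine key2 h4 hRC hclo he (hKF' t ht) htS (hKF' tr0 htrK) htrS ?_ ?_
          · rw [htrx]; exact h
          · rw [htrx]; exact hb
    have hq1f : io q1 ≤ μ ζ (cv io (Zf K φ)) := (hio.mono _ _ hq1).trans hioq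
    have hq1VZ : io q1 ≤ μ ζ (cv io (V ∩ Zf K φ)) := by
      rw [mi]; exact le_inf hq1v hq1f
    have hq1Z : io q1 ≤ μ ζ (cv io Z) := by
      refine tr' ζ q1 (V ∩ Zf K φ) Z (fun e he b hb => ⟨hb.1, fun t ht hor => ?_⟩) hq1VZ
      rw [← hk e (he.trans hq1) b hb.1 t ht hor]
      exact hb.2 t ht
    -- the first index
    obtain ⟨β1, hβ1⟩ := exists_of_le_iSup (hio.ne_bot q1) (hq1Z.trans
      ((le_iSup (fun β => μ β (cv io Z)) ζ).trans (hζ.refl1 Z hZcd)))
    have hβ1ζ : β1 < ζ := by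
      by_contra h
      apply hβ1
      rw [iSup_neg h, inf_bot_eq]
    rw [iSup_pos hβ1ζ] at hβ1
    obtain ⟨hg1, hg2, hg3, hg4, -, -⟩ := hD7 B io hio
    obtain ⟨s1, hs1S, hs1v, hs1c⟩ := (hg2 S _).1 (hζ.good β1 hβ1ζ Z hZcd) q1 hβ1
    obtain ⟨q2, hq2s, hq2q⟩ := hio.compat s1 q1 hs1c
    -- the values of the points number ζ and β1 are different on K
    have hd1 : io q2 ≤ ⨆ β, ⨆ t : Nd, μ β (cv io Z) ⊓
        symmDiff (μ β (cv io {π | π t = true})) (μ β1 (cv io {π | π t = true})) := by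
      have e1 : io q2 ≤ μ ζ (cv io (Zf K φ)) := (hio.mono _ _ hq2q).trans hq1f
      have e2 : io q2 ≤ (μ β1 (cv io (Zf K φ)))ᶜ :=
        le_compl_of_inf (hneg' β1 hβ1ζ q2 (hq2q.trans hq1))
      have e3 : ∀ β, μ β (cv io (Zf K φ)) = ⨅ t ∈ K, μ β (cv io {π | π t = φ t}) := by
        intro β
        rw [← (hD9 Br B (μ β) (hμ β)).2.2.2.2.2.2.1 Nd K (fun t => cv io {π | π t = φ t})]
        congr 1
        funext b
        exact hc5 K φ b
      rw [e3] at e1 e2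
      rw [compl_iInf] at e2
      have e4 : io q2 ≤ ⨆ t ∈ K, symmDiff (μ ζ (cv io {π | π t = true}))
          (μ β1 (cv io {π | π t = true})) := by
        have e5 : io q2 ≤ (⨅ t ∈ K, μ ζ (cv io {π | π t = φ t})) ⊓
            ⨆ t, (⨅ _ : t ∈ K, μ β1 (cv io {π | π t = φ t}))ᶜ := le_inf e1 e2
        refine e5.trans ?_
        rw [inf_iSup_eq]
        refine iSup_le (fun t => ?_)
        rw [compl_iInf, inf_iSup_eq]
        refine iSup_le (fun ht => le_iSup_of_le t (le_iSup_of_le ht ?_))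
        refine (inf_le_inf_right _ (iInf₂_le t ht)).trans ?_
        cases hφ : φ t with
        | true =>
          rw [← _root_.sdiff_eq]
          exact le_sup_left
        | false =>
          have e6 : ∀ β, μ β (cv io {π | π t = false}) = (μ β (cv io {π | π t = true}))ᶜ := by
            intro β
            rw [← (hμ β).compl]
            congr 1
            funext b
            rw [← hc2 _ b (cd_one (mem_univ t) true)]
            congr 1
            ext π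
            simp
          rw [e6 ζ, e6 β1, compl_compl, inf_comm, ← _root_.sdiff_eq]
          exact le_sup_right
      refine (le_inf ((hio.mono _ _ hq2q).trans hq1Z) e4).trans ?_
      rw [inf_iSup_eq]
      refine iSup_le (fun t => ?_)
      rw [inf_iSup_eq]
      refine iSup_le (fun _ => ?_)
      exact le_iSup_of_le ζ (le_iSup_of_le t le_rfl)
    obtain ⟨β2, hβ2⟩ := exists_of_le_iSup (hio.ne_bot q2) (hd1.trans (hζ.refl2 Z hZcd β1 hβ1ζ))
    have hβ2ζ : β2 < ζ := by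
      by_contra h
      apply hβ2
      rw [iSup_neg h, inf_bot_eq]
    rw [iSup_pos hβ2ζ] at hβ2
    obtain ⟨t2, ht2⟩ := exists_of_le_iSup hβ2 inf_le_right
    have ht2S : t2 ∈ S := by
      by_contra h
      apply ht2
      rw [iSup_neg h, inf_bot_eq]
    rw [iSup_pos ht2S] at ht2
    set A2 : B := μ β2 (cv io {π | π t2 = true}) with hA2
    set A1 : B := μ β1 (cv io {π | π t2 = true}) with hA1
    have ht2' : io q2 ⊓ (μ β2 (cv io Z) ⊓ symmDiff A2 A1) ≠ ⊥ := by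
      refine ne_bot_of_le ht2 ?_
      exact inf_le_inf_right _ inf_le_left
    have hcompl : ∀ β, μ β (cv io {π | π t2 = false}) = (μ β (cv io {π | π t2 = true}))ᶜ := by
      intro β
      rw [← mc β _ (cd_one ht2S true)]
      congr 2
      ext π
      simp
    have hgood : Good io S (μ β2 (cv io Z) ⊓ symmDiff A2 A1) := by
      refine hg3 S _ _ (hζ.good β2 hβ2ζ Z hZcd) ?_
      refine hg4 S _ _ ?_ ?_
      · rw [_root_.sdiff_eq, hA1, ← hcompl β1]
        exact hg3 S _ _ (hζ.good β2 hβ2ζ _ (cd_one ht2S true))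
          (hζ.good β1 hβ1ζ _ (cd_one ht2S false))
      · rw [_root_.sdiff_eq, hA2, ← hcompl β2]
        exact hg3 S _ _ (hζ.good β1 hβ1ζ _ (cd_one ht2S true))
          (hζ.good β2 hβ2ζ _ (cd_one ht2S false))
    obtain ⟨s2, hs2S, hs2v, hs2c⟩ := (hg2 S _).1 hgood q2 ht2'
    obtain ⟨q3, hq3s, hq3q⟩ := hio.compat s2 q2 hs2c
    have hq3q' : q3 ≤ q := hq3q.trans (hq2q.trans hq1)
    obtain ⟨q', hq3', hq'q, hoff, hamal⟩ := h10 S q q3 hq3q'
    have hq's1 : q' ≤ s1 := hamal s1 hs1S (hq3q.trans hq2s)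
    have hq's2 : q' ≤ s2 := hamal s2 hs2S hq3s
    -- orthogonality
    obtain ⟨q'', hq'', hoff'', Γ, hΓc, hΓlt, i, hΓ⟩ : ∃ q'' ≤ q', Off S q'' q ∧ ∃ Γ : Set Th,
        Γ.Countable ∧ (∀ γ ∈ Γ, γ < r.len) ∧ ∃ i : Bool,
        Ent q'' {e | ∀ b, (∀ γ ∈ Γ, fv e b (r.res γ) = r.fn γ) → fv e b t2 = i} := by
      rcases h8c r t2 hrS hrlen ht2S with ⟨γ, hγ, rfl⟩ | ⟨γ, hγ1, hγ2, hγ3, hγ4⟩
      · refine ⟨q', le_rfl, hoff, {γ}, countable_singleton _, ?_, r.fn γ, ?_⟩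
        · rintro _ rfl; exact hγ
        · intro e _ b hb
          exact hb γ rfl
      · obtain ⟨q'', h1, h2, Γ, h3', h4', i, h5'⟩ := h7 q' t2 r γ hγ1 hγ2 hγ3 hγ4
        refine ⟨q'', h1, ?_, Γ, h3', fun γ' hγ' => (h4' γ' hγ').trans_lt hγ2, i, h5'⟩
        refine Off.trans (h2.mono ?_) hoff
        rintro _ ⟨γ', -, h6, rfl⟩
        exact hRC t2 ht2S γ' h6
    have hUcd : Cd S (ur Γ r) := cd_ur hrlen hΓc hΓlt
    have hval : ∀ β, io q'' ⊓ (μ β (cv io (ur Γ r)))ᶜ ≤ μ β (cv io {π | π t2 = i}) := by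
      intro β
      rw [← mc β _ hUcd]
      refine tr β q'' _ _ (fun e he b hb => ?_)
      refine hΓ e he b (fun γ hγ => ?_)
      by_contra hcon
      exact hb ⟨γ, hγ, hcon⟩
    have hU : io q'' ≤ μ β1 (cv io (ur Γ r)) ⊔ μ β2 (cv io (ur Γ r)) := by
      have e1 : io q'' ≤ symmDiff A2 A1 :=
        (hio.mono _ _ (hq''.trans hq's2)).trans (hs2v.trans inf_le_right)
      rw [← compl_compl (μ β1 (cv io (ur Γ r)) ⊔ μ β2 (cv io (ur Γ r))), compl_sup]
      refine le_compl_of_inf ?_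
      set c := io q'' ⊓ ((μ β1 (cv io (ur Γ r)))ᶜ ⊓ (μ β2 (cv io (ur Γ r)))ᶜ) with hc
      have c1 : c ≤ μ β1 (cv io {π | π t2 = i}) :=
        (inf_le_inf_left _ inf_le_left).trans (hval β1)
      have c2 : c ≤ μ β2 (cv io {π | π t2 = i}) :=
        (inf_le_inf_left _ inf_le_right).trans (hval β2)
      have c3 : c ≤ symmDiff A2 A1 := inf_le_left.trans e1
      cases i with
      | true =>
        have c4 : c ≤ A2 ⊓ A1 := le_inf c2 c1
        refine le_bot_iff.1 ((le_inf c3 c4).trans ?_)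
        rw [symmDiff_eq_sup_sdiff_inf]
        exact (disjoint_iff.1 disjoint_sdiff_self_left).le
      | false =>
        rw [hcompl β1] at c1
        rw [hcompl β2] at c2
        have c4 : c ≤ (A2 ⊔ A1)ᶜ := by rw [compl_sup]; exact le_inf c2 c1
        refine le_bot_iff.1 ((le_inf (c3.trans symmDiff_le_sup) c4).trans ?_)
        rw [inf_compl_self]
    -- the choice of the index
    obtain ⟨β, hβζ, sβ, hsβS, hsβv, hqsβ, hβne⟩ : ∃ β < ζ, ∃ sβ : Cnd, Spt S sβ ∧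
        io sβ ≤ μ β (cv io Z) ∧ q' ≤ sβ ∧ io q'' ⊓ μ β (cv io (ur Γ r)) ≠ ⊥ := by
      by_cases h1 : io q'' ⊓ μ β1 (cv io (ur Γ r)) ≠ ⊥
      · exact ⟨β1, hβ1ζ, s1, hs1S, hs1v, hq's1, h1⟩
      · refine ⟨β2, hβ2ζ, s2, hs2S, hs2v.trans inf_le_left, hq's2, fun h2 => ?_⟩
        apply hio.ne_bot q''
        push Not at h1
        rw [← inf_eq_left.2 hU, inf_sup_left, h1, h2, sup_bot_eq]
    obtain ⟨s3, hs3S, hs3v, hs3c⟩ := (hg2 S _).1 (hζ.good β hβζ _ hUcd) q'' hβne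
    obtain ⟨q4, hq4s, hq4q⟩ := hio.compat s3 q'' hs3c
    obtain ⟨q5, hq45, hq5q, hoff5, hamal5⟩ := h10 S q q4 (hq4q.trans (hq''.trans hq'q))
    have hq5s3 : q5 ≤ s3 := hamal5 s3 hs3S hq4s
    have hq5sβ : q5 ≤ sβ := hamal5 sβ hsβS (hq4q.trans (hq''.trans hqsβ))
    -- the pattern
    obtain ⟨b0, hb0⟩ := exists_of_le_iSup (hio.ne_bot q1)
      (hq1VZ.trans ((hD9 Br B (μ ζ) (hμ ζ)).2.1 _))
    obtain ⟨q6, hq6, hq6e⟩ := (hD1 B io hio).2.1 q1 _ hb0
    have hpat := Ent.self hq6e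
    obtain ⟨q7, hq7, hq7e⟩ := h5 q S F hRC hclo q5 hq5q hoff5 r q6.1 b0
      (hq6.trans hq1) hpat.1 Γ hΓc hΓlt
    have hfin : io q7 ≤ μ β (cv io (Zf K φ)) := by
      refine tr' β q7 (Z ∩ ur Γ r) (Zf K φ) (fun e he b hb t ht => ?_) ?_
      · have heq : Ext e q.1 := he.trans (hq7.trans hq5q)
        by_cases hor : t ∈ S ∨ exn S t ≠ r
        · rw [hk e heq b hb.1.1 t ht hor]
          exact hb.1.2 t ht hor
        · push Not at hor
          rw [hq7e e he b hb.1.1 hb.2 t (hKF' t ht) hor.1 hor.2]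
          exact hpat.2 t ht
      · rw [mi]
        exact le_inf ((hio.mono _ _ (hq7.trans hq5sβ)).trans hsβv)
          ((hio.mono _ _ (hq7.trans hq5s3)).trans hs3v)
    apply hio.ne_bot q7
    rw [← inf_eq_left.2 hfin]
    exact hneg' β hβζ q7 (hq7.trans hq5q)

end Pool.Agent.CTD.H94
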