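import Mathlib
import Pool.Agent.Helper94_CTD.Stmts
import Pool.Agent.Helper94_CTD.PA

/-!
# Module D17: assembly of the forcing part
-/

open Set

namespace Pool.Agent.CTD.H94

theorem d17 (h11 : D11P7) (h12 : D12P2) (h13 : D13Ja) (h14 : D14P4) (h15 : D15P5) (h16 : D16P6) :
    D17Sy := by
  obtain ⟨B, inst, io, hio⟩ := pro.{1} Cnd
  obtain ⟨hp1, α0, d, hd, hp2⟩ := h12 B io hio
  obtain ⟨J, hj1, hj2, hj3⟩ := h13 B io hio
  refine ⟨B, inst, Fb io, α0, d, J, ?_⟩
  exact
    { nt := by
        intro h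
        let q : Cnd := ⟨fun _ _ => none, ⟨by simp, fun _ _ _ h => by simp at h⟩⟩
        exact hio.ne_bot q (le_bot_iff.1 (le_top.trans h.symm.le))
      p1 := hp1
      p2 := hp2
      dinj := hd
      j1 := hj1
      j2 := hj2
      j3 := hj3
      p4 := h14 B io hio
      p5 := h15 B io hio
      p6 := h16 B io hio
      p7 := h11 B io hio }

end Pool.Agent.CTD.H94
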