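import Mathlib
import Pool.Agent.Helper94_CTD.EStmts

/-!
# Module E0: countable generic hulls
-/

open Set

namespace Pool.Agent.CTD.H94

theorem e0 : E0Hu := by
  classical
  intro W _ B _ V hB
  obtain ⟨w0⟩ := ‹Nonempty W›
  obtain ⟨T, hT⟩ := exists_surjective_nat (ℕ × List ℕ)
  let task : ℕ → ℕ × List ℕ := fun n => T n.unpair.2
  have htask : ∀ x N, ∃ n, N ≤ n ∧ task n = x := by
    intro x N
    obtain ⟨k, hk⟩ := hT x
    refine ⟨Nat.pair N k, Nat.left_le_pair N k, ?_⟩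
    simp only [task, Nat.unpair_pair]
    exact hk
  have step : ∀ (n : ℕ) (s : {b : B // b ≠ ⊥} × (ℕ → W)), ∃ s' : {b : B // b ≠ ⊥} × (ℕ → W),
      s'.1.1 ≤ s.1.1 ∧ (∀ k, k ≠ n → s'.2 k = s.2 k) ∧
      (s'.1.1 ≤ (⨆ w, V (task n).1 ((task n).2.map s.2) w)ᶜ ∨
        s'.1.1 ≤ V (task n).1 ((task n).2.map s.2) (s'.2 n)) := by
    intro n s
    by_cases h : s.1.1 ⊓ (⨆ w, V (task n).1 ((task n).2.map s.2) w) = ⊥
    · exact ⟨s, le_rfl, fun _ _ => rfl, Or.inl (le_compl_iff_disjoint_right.2 (disjoint_iff.2 h))⟩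
    · have h1 : ∃ w, s.1.1 ⊓ V (task n).1 ((task n).2.map s.2) w ≠ ⊥ := by
        by_contra hcon
        push Not at hcon
        apply h
        rw [inf_iSup_eq]
        exact iSup_eq_bot.2 hcon
      obtain ⟨w, hw⟩ := h1
      refine ⟨(⟨_, hw⟩, Function.update s.2 n w), inf_le_left, fun k hk => ?_, Or.inr ?_⟩
      · exact Function.update_of_ne hk _ _
      · simp only [Function.update_self]
        exact inf_le_right
  choose nx hnx1 hnx2 hnx3 using step
  let σ : ℕ → {b : B // b ≠ ⊥} × (ℕ → W) := fun n =>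
    Nat.rec (⟨⊤, Ne.symm hB⟩, fun _ => w0) (fun n s => nx n s) n
  have hσ : ∀ n, σ (n + 1) = nx n (σ n) := fun n => rfl
  have hanti : ∀ m n, m ≤ n → (σ n).1.1 ≤ (σ m).1.1 := by
    intro m n hmn
    induction hmn with
    | refl => exact le_rfl
    | step _ ih => rw [hσ]; exact (hnx1 _ _).trans ih
  have hst : ∀ k m, k < m → (σ m).2 k = (σ (k + 1)).2 k := by
    intro k m hkm
    induction hkm with
    | refl => rfl
    | step h ih =>
      rw [hσ, hnx2 _ _ _ (by have : k < _ := h; omega), ih]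
  set h : ℕ → W := fun k => (σ (k + 1)).2 k with hh
  refine ⟨Set.range h, {c | ∃ n, (σ n).1.1 ≤ c}, Set.countable_range h, ⟨h 0, 0, rfl⟩, ?_, ?_⟩
  · refine ⟨?_, ?_, ?_, ?_⟩
    · rintro b ⟨n, hn⟩ c hc
      exact ⟨n, hn.trans hc⟩
    · rintro b ⟨n, hn⟩ c ⟨m, hm⟩
      exact ⟨max n m, le_inf ((hanti _ _ (le_max_left _ _)).trans hn)
        ((hanti _ _ (le_max_right _ _)).trans hm)⟩
    · rintro ⟨n, hn⟩
      exact (σ n).1.2 (le_bot_iff.1 hn)
    · exact ⟨0, le_top⟩
  · intro i l hl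
    have hidx : ∃ idx : List ℕ, l = idx.map h := by
      induction l with
      | nil => exact ⟨[], rfl⟩
      | cons a l ih =>
        obtain ⟨idx, hidx⟩ := ih (fun x hx => hl x (List.mem_cons_of_mem _ hx))
        obtain ⟨k, hk⟩ := hl a List.mem_cons_self
        exact ⟨k :: idx, by rw [List.map_cons, hk, ← hidx]⟩
    obtain ⟨idx, rfl⟩ := hidx
    have hbd : ∃ N, ∀ k ∈ idx, k < N := by
      clear hl
      induction idx with
      | nil => exact ⟨0, fun _ h => by simp at h⟩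
      | cons a l ih =>
        obtain ⟨N, hN⟩ := ih
        refine ⟨max (a + 1) N, fun k hk => ?_⟩
        rcases List.mem_cons.1 hk with rfl | hk
        · exact (Nat.lt_succ_self _).trans_le (le_max_left _ _)
        · exact (hN k hk).trans_le (le_max_right _ _)
    obtain ⟨N, hN⟩ := hbd
    obtain ⟨n, hn, htn⟩ := htask (i, idx) N
    have hmap : idx.map (σ n).2 = idx.map h :=
      List.map_congr_left (fun k hk => hst k n ((hN k hk).trans_le hn))
    have h3 := hnx3 n (σ n)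
    rw [htn] at h3
    simp only at h3
    rw [hmap, ← hσ] at h3
    rcases h3 with h3 | h3
    · exact Or.inl ⟨n + 1, h3⟩
    · exact Or.inr ⟨h n, ⟨n, rfl⟩, n + 1, h3⟩

end Pool.Agent.CTD.H94
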