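import Mathlib
import Pool.Agent.Helper94_CTD.Stmts
import Pool.Agent.Helper94_CTD.EStmts

/-!
# Module E13: assembly
-/

open Set

namespace Pool.Agent.CTD.H94

open Pool.Agent.FL

theorem e13 (hs : D17Sy) (h0 : E0Hu) (h2 : E2Ba) (h8 : E8Al) (h9 : E9Cl) (h10 : E10Dn)
    (h11 : E11Fr) (h12 : E12Ca) :
    ∃ (M : Type) (E : M → M → Prop), IsZFC E ∧ OmegaStd E ∧
      ∃ w1 w2 X : M, IsExample E w1 w2 X := by
  obtain ⟨B, inst, F, α0, d, J, S⟩ := hs
  obtain ⟨V2, hV2⟩ := h2 B
  obtain ⟨V8, hV8⟩ := h8 B F α0 d J S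
  obtain ⟨V9, hV9⟩ := h9 B F
  obtain ⟨V10, hV10⟩ := h10 B F α0 d J S
  obtain ⟨V11, hV11⟩ := h11 B F α0 d J S
  obtain ⟨V12, hV12⟩ := h12 B F α0 d J S
  let V : ℕ → List (Wd B) → Wd B → B := fun n =>
    match n.unpair.1 with
    | 0 => V2 n.unpair.2
    | 1 => V8 n.unpair.2
    | 2 => V9 n.unpair.2
    | 3 => V10 n.unpair.2
    | 4 => V11 n.unpair.2
    | _ => V12 n.unpair.2
  have hV : ∀ k n, V (Nat.pair k n) = match k with
    | 0 => V2 n
    | 1 => V8 n
    | 2 => V9 n
    | 3 => V10 n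
    | 4 => V11 n
    | _ => V12 n := by
    intro k n
    simp only [V, Nat.unpair_pair]
  have hne : Nonempty (Wd B) := ⟨⟨W2n, 0, fun _ => false, fun _ => ⊥, ∅⟩⟩
  obtain ⟨H, G, hHc, hHn, hG, hgen⟩ := h0 (Wd B) B V S.nt
  have g2 : Gen V2 H G := fun n l hl => by
    have := hgen (Nat.pair 0 n) l hl
    rw [hV 0 n] at this
    exact this
  have g8 : Gen V8 H G := fun n l hl => by
    have := hgen (Nat.pair 1 n) l hl
    rw [hV 1 n] at this
    exact this
  have g9 : Gen V9 H G := fun n l hl => by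
    have := hgen (Nat.pair 2 n) l hl
    rw [hV 2 n] at this
    exact this
  have g10 : Gen V10 H G := fun n l hl => by
    have := hgen (Nat.pair 3 n) l hl
    rw [hV 3 n] at this
    exact this
  have g11 : Gen V11 H G := fun n l hl => by
    have := hgen (Nat.pair 4 n) l hl
    rw [hV 4 n] at this
    exact this
  have g12 : Gen V12 H G := fun n l hl => by
    have := hgen (Nat.pair 5 n) l hl
    rw [hV 5 n] at this
    exact this
  obtain ⟨M, E, π, hbase⟩ := hV2 H G hHc hHn hG g2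
  have r8 := hV8 H G M E π hbase g8
  have r9 := hV9 H G M E π hbase g9
  have r10 := hV10 H G M E π hbase g10
  have r11 := hV11 H G M E π hbase g11
  have r12 := hV12 H G M E π hbase g12
  refine ⟨M, E, hbase.zfc, hbase.std, π (chk o1), π W2n, π (Xn F), ?_⟩
  exact
    { aleph1 := r8.1
      aleph2 := r8.2
      sub := r9.1
      closed := r9.2
      density := r10
      free := r11
      card := r12 }

end Pool.Agent.CTD.H94
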