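import Mathlib
import Pool.Agent.Helper94_CTD.EStmts
import Pool.Agent.Helper94_CTD.PA
import Pool.Agent.Helper93_FL.FmlFacts

/-!
# Module E2: the basic properties of the model
-/

open Set

namespace Pool.Agent.CTD.H94

open Pool.Agent.FL

section

variable {B : Type 1} [CompleteBooleanAlgebra B]

/-- a default element -/
noncomputable def wd0 : Wd B := ⟨om B, 0, fun _ => false, fun _ => ⊥, ∅⟩

/-- the assignment given by a list -/
noncomputable def asg (l : List (Wd B)) : ℕ → BSet B := fun k => (l.getD k wd0).nm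

/-- parameters -/
noncomputable def p0 (l : List (Wd B)) : Wd B := l.getD 0 wd0
/-- parameters -/
noncomputable def p1 (l : List (Wd B)) : Wd B := l.getD 1 wd0

open Classical in
/-- truth value of a proposition -/
noncomputable def tv (p : Prop) : B := if p then ⊤ else ⊥

theorem tv_true {p : Prop} (h : p) : (tv p : B) = ⊤ := if_pos h
theorem tv_false {p : Prop} (h : ¬ p) : (tv p : B) = ⊥ := if_neg h

/-- the families -/
noncomputable def VE2 (x : (Fml × ℕ) × ℕ) (l : List (Wd B)) (w : Wd B) : B :=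
  match x.2 with
  | 0 => x.1.1.val (asg l)
  | 1 => x.1.1.val (Function.update (asg l) x.1.2 w.nm)
  | 2 => tv (w.nm = om B)
  | 3 => tv (w.nm = nn B x.1.2)
  | 4 => tv (w.nm = chk (p0 l).th)
  | 5 => tv (w.nm = W2n)
  | 6 => tv (w.th = o1)
  | 7 => tv (w.th = Ordinal.omega0)
  | 8 => tv (w.th = (x.1.2 : Th))
  | 9 => tv (w.nm = upr (p0 l).nm (p1 l).nm)
  | 10 => ⨆ n : ℕ, tv (w.th = (n : Th)) ⊓ beq (p0 l).nm (nn B n)
  | 11 => beq (p0 l).nm (chk w.th)
  | 12 => tv (w.th < (p1 l).th) ⊓ beq (p0 l).nm (chk w.th)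
  | _ => ⊥

/-- an operation -/
theorem op_of {ι W : Type*} {V : ι → List W → W → B} {H : Set W} {G : Set B} (hG : Flt G)
    (hgen : Gen V H G) (i : ι) (l : List W) (hl : ∀ x ∈ l, x ∈ H) (P : W → Prop)
    (hV : ∀ w, V i l w = tv (P w)) (hP : ∃ w, P w) : ∃ w ∈ H, P w := by
  rcases hgen i l hl with h | ⟨w, hw, h⟩
  · exfalso
    obtain ⟨w, hw⟩ := hP
    apply hG.bot
    have h1 : (⨆ w, V i l w) = ⊤ := by
      rw [eq_top_iff]
      refine le_iSup_of_le w ?_
      rw [hV, tv_true hw]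
    rw [h1, compl_top] at h
    exact h
  · refine ⟨w, hw, ?_⟩
    by_contra hcon
    rw [hV, tv_false hcon] at h
    exact hG.bot h

theorem wit_of {ι W : Type*} {V : ι → List W → W → B} {H : Set W} {G : Set B} (hG : Flt G)
    (hgen : Gen V H G) (i : ι) (l : List W) (hl : ∀ x ∈ l, x ∈ H) (c : B)
    (hc : c ∈ G) (hV : c ≤ ⨆ w, V i l w) : ∃ w ∈ H, V i l w ∈ G := by
  rcases hgen i l hl with h | h
  · exfalso
    apply hG.bot
    have h1 := hG.inf _ (hG.up _ hc _ hV) _ h
    rw [inf_compl_self] at h1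
    exact h1
  · exact h

theorem dec_of {ι W : Type*} [Nonempty W] {V : ι → List W → W → B} {H : Set W} {G : Set B}
    (hgen : Gen V H G) (i : ι) (l : List W) (hl : ∀ x ∈ l, x ∈ H) (c : B)
    (hV : ∀ w, V i l w = c) : c ∈ G ∨ cᶜ ∈ G := by
  rcases hgen i l hl with h | ⟨w, _, h⟩
  · right
    have h1 : (⨆ w, V i l w) = c := by simp only [hV, iSup_const]
    rw [h1] at h
    exact h
  · left
    rw [hV] at h
    exact h

instance : Nonempty (Wd B) := ⟨wd0⟩

end

theorem nm_surj {B : Type 1} [CompleteBooleanAlgebra B] (a : BSet B) : ∃ w : Wd B, w.nm = a :=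
  ⟨{ wd0 with nm := a }, rfl⟩

theorem th_surj {B : Type 1} [CompleteBooleanAlgebra B] (α : Th) : ∃ w : Wd B, w.th = α :=
  ⟨{ wd0 with th := α }, rfl⟩

theorem e2 (h1 : E1Nm) : E2Ba := by
  classical
  intro B _
  obtain ⟨n1, n2, n3, n4, n5, n6, -, -, -, -, -, -⟩ := h1 B
  obtain ⟨a1, a2, a3, a4, a5, a6, a7, a8⟩ := pa1 B
  have : Nonempty ((Fml × ℕ) × ℕ) := ⟨((.bot, 0), 0)⟩
  obtain ⟨T, hT⟩ := exists_surjective_nat ((Fml × ℕ) × ℕ)
  refine ⟨fun n => VE2 (T n), ?_⟩
  intro H G hHc hHn hG hgen0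
  have hgen : Gen (VE2 (B := B)) H G := by
    intro x l hl
    obtain ⟨n, rfl⟩ := hT x
    exact hgen0 n l hl
  clear hgen0
  set N : Set (BSet B) := Wd.nm '' H with hN
  have hNN : ∀ a, a ∈ N ↔ HN H a := fun a => Iff.rfl
  have hlist0 : ∀ x ∈ ([] : List (Wd B)), x ∈ H := fun x hx => by simp at hx
  have hlist1 : ∀ w ∈ H, ∀ x ∈ [w], x ∈ H := fun w hw x hx => by
    rw [List.mem_singleton.1 hx]; exact hw
  have hlist2 : ∀ w ∈ H, ∀ v ∈ H, ∀ x ∈ [w, v], x ∈ H := fun w hw v hv x hx => by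
    rcases List.mem_cons.1 hx with rfl | hx
    · exact hw
    · rw [List.mem_singleton.1 hx]; exact hv
  -- assignments
  have hasg : ∀ (k : ℕ) (s : ℕ → BSet B), (∀ i, s i ∈ N) → ∃ l : List (Wd B),
      (∀ x ∈ l, x ∈ H) ∧ ∀ i < k, asg l i = s i := by
    intro k s hs
    choose W hW1 hW2 using hs
    refine ⟨(List.range k).map W, ?_, ?_⟩
    · intro x hx
      obtain ⟨i, -, rfl⟩ := List.mem_map.1 hx
      exact hW1 i
    · intro i hi
      unfold asg
      rw [List.getD_eq_getElem _ _ (by simpa using hi)]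
      simp [hW2]
  have hdec : ∀ (φ : Fml) (s : ℕ → BSet B), (∀ i, s i ∈ N) → φ.val s ∈ G ∨ (φ.val s)ᶜ ∈ G := by
    intro φ s hs
    obtain ⟨l, hl, hls⟩ := hasg (P9.bd φ) s hs
    have := dec_of hgen ((φ, 0), 0) l hl (φ.val (asg l)) (fun w => rfl)
    rwa [P9.val_bd φ _ _ hls] at this
  have hwit : ∀ (φ : Fml) (s : ℕ → BSet B) (i : ℕ), (∀ j, s j ∈ N) →
      (⨆ a : BSet B, φ.val (Function.update s i a)) ∈ G →
      ∃ a ∈ N, φ.val (Function.update s i a) ∈ G := by
    intro φ s i hs h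
    obtain ⟨l, hl, hls⟩ := hasg (P9.bd φ) s hs
    have hup : ∀ a, φ.val (Function.update (asg l) i a) = φ.val (Function.update s i a) := by
      intro a
      refine P9.val_bd φ _ _ (fun j hj => ?_)
      by_cases hji : j = i
      · subst hji; simp
      · rw [Function.update_of_ne hji, Function.update_of_ne hji, hls j hj]
    obtain ⟨w, hw, hwv⟩ := wit_of hG hgen ((φ, i), 1) l hl _ h (by
      refine iSup_le (fun a => ?_)
      obtain ⟨w, rfl⟩ := nm_surj a
      refine le_iSup_of_le w ?_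
      show _ ≤ φ.val (Function.update (asg l) i w.nm)
      rw [hup])
    refine ⟨w.nm, ⟨w, hw, rfl⟩, ?_⟩
    rw [← hup]
    exact hwv
  have hom : om B ∈ N := by
    obtain ⟨w, hw, h⟩ := op_of hG hgen ((.bot, 0), 2) [] hlist0 (fun w => w.nm = om B)
      (fun w => rfl) (nm_surj _)
    exact ⟨w, hw, h⟩
  have hnn : ∀ n, nn B n ∈ N := by
    intro n
    obtain ⟨w, hw, h⟩ := op_of hG hgen ((.bot, n), 3) [] hlist0 (fun w => w.nm = nn B n)
      (fun w => rfl) (nm_surj _)
    exact ⟨w, hw, h⟩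
  have hst : ∀ a ∈ N, bmem a (om B) ∈ G → ∃ n, beq a (nn B n) ∈ G := by
    rintro _ ⟨v, hv, rfl⟩ h
    rw [om, (pa3 B).2.2.2.2] at h
    obtain ⟨w, hw, hwv⟩ := wit_of hG hgen ((.bot, 0), 10) [v] (hlist1 v hv) _ h (by
      refine iSup_le (fun n => ?_)
      obtain ⟨w, hw⟩ := th_surj (B := B) (n : Th)
      refine le_iSup_of_le w ?_
      show _ ≤ ⨆ n : ℕ, tv (w.th = (n : Th)) ⊓ beq (p0 [v]).nm (nn B n)
      refine le_iSup_of_le n ?_
      rw [tv_true hw]
      exact le_rfl)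
    have hwv' : (⨆ n : ℕ, tv (w.th = (n : Th)) ⊓ beq v.nm (nn B n)) ∈ G := hwv
    by_cases hn : ∃ n : ℕ, w.th = (n : Th)
    · obtain ⟨n, hn⟩ := hn
      refine ⟨n, hG.up _ hwv' _ (iSup_le (fun m => ?_))⟩
      by_cases hm : w.th = (m : Th)
      · have : m = n := by
          rw [hn] at hm
          exact_mod_cast hm.symm
        subst this
        exact inf_le_right
      · rw [tv_false hm, bot_inf_eq]
        exact bot_le
    · exfalso
      push Not at hn
      apply hG.bot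
      refine hG.up _ hwv' _ (iSup_le (fun m => ?_))
      rw [tv_false (hn m), bot_inf_eq]
  obtain ⟨M, E, π, hz, hs, hsurj, heqv, hmem, hnum⟩ := pmodel B N G (hHc.image _) hom hnn
    hG.up hG.inf hG.bot hdec hwit hst
  have hchk : ∀ α, HT H α → HN H (chk α) := by
    rintro _ ⟨w, hw, rfl⟩
    obtain ⟨v, hv, h⟩ := op_of hG hgen ((.bot, 0), 4) [w] (hlist1 w hw)
      (fun v => v.nm = chk w.th) (fun _ => rfl) (nm_surj _)
    exact ⟨v, hv, h⟩
  have hw2 : HN H (W2n : BSet B) := by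
    obtain ⟨v, hv, h⟩ := op_of hG hgen ((.bot, 0), 5) [] hlist0
      (fun v => v.nm = W2n) (fun _ => rfl) (nm_surj _)
    exact ⟨v, hv, h⟩
  have ho1 : HT H o1 := by
    obtain ⟨v, hv, h⟩ := op_of hG hgen ((.bot, 0), 6) [] hlist0
      (fun v => v.th = o1) (fun _ => rfl) (th_surj _)
    exact ⟨v, hv, h⟩
  have homg : HT H Ordinal.omega0 := by
    obtain ⟨v, hv, h⟩ := op_of hG hgen ((.bot, 0), 7) [] hlist0
      (fun v => v.th = Ordinal.omega0) (fun _ => rfl) (th_surj _)
    exact ⟨v, hv, h⟩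
  have hnat : ∀ n : ℕ, HT H (n : Th) := by
    intro n
    obtain ⟨v, hv, h⟩ := op_of hG hgen ((.bot, n), 8) [] hlist0
      (fun v => v.th = (n : Th)) (fun _ => rfl) (th_surj _)
    exact ⟨v, hv, h⟩
  have hupr : ∀ a b, HN H a → HN H b → HN H (upr a b) := by
    rintro _ _ ⟨w, hw, rfl⟩ ⟨v, hv, rfl⟩
    obtain ⟨u, hu, h⟩ := op_of hG hgen ((.bot, 0), 9) [w, v] (hlist2 w hw v hv)
      (fun u => u.nm = upr w.nm v.nm) (fun _ => rfl) (nm_surj _)
    exact ⟨u, hu, h⟩
  have hdece : ∀ a b, HN H a → HN H b → beq a b ∈ G ∨ (beq a b)ᶜ ∈ G := by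
    intro a b ha hb
    have := hdec (.eq 0 1) (fun i => if i = 0 then a else b) (fun i => by
      by_cases hi : i = 0
      · rw [if_pos hi]; exact ha
      · rw [if_neg hi]; exact hb)
    exact this
  have hdecm : ∀ a b, HN H a → HN H b → bmem a b ∈ G ∨ (bmem a b)ᶜ ∈ G := by
    intro a b ha hb
    have := hdec (.mem 0 1) (fun i => if i = 0 then a else b) (fun i => by
      by_cases hi : i = 0
      · rw [if_pos hi]; exact ha
      · rw [if_neg hi]; exact hb)
    exact this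
  have hmemW2 : ∀ m, E m (π W2n) ↔ ∃ α, HT H α ∧ m = π (chk α) := by
    intro m
    obtain ⟨a, ha, rfl⟩ := hsurj m
    rw [hmem a ha _ hw2, n2]
    obtain ⟨w, hw, rfl⟩ := ha
    constructor
    · intro h
      obtain ⟨v, hv, hvv⟩ := wit_of hG hgen ((.bot, 0), 11) [w] (hlist1 w hw) _ h (by
        refine iSup_le (fun β => ?_)
        obtain ⟨v, rfl⟩ := th_surj (B := B) β
        exact le_iSup_of_le v le_rfl)
      exact ⟨v.th, ⟨v, hv, rfl⟩, (heqv _ ⟨w, hw, rfl⟩ _ (hchk _ ⟨v, hv, rfl⟩)).2 hvv⟩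
    · rintro ⟨α, hα, h⟩
      have h2 := (heqv _ ⟨w, hw, rfl⟩ _ (hchk _ hα)).1 h
      exact hG.up _ h2 _ (le_iSup (fun β => beq w.nm (chk β)) α)
  have hmemchk : ∀ β, HT H β → ∀ m, E m (π (chk β)) ↔ ∃ α, HT H α ∧ α < β ∧ m = π (chk α) := by
    intro β hβ m
    obtain ⟨a, ha, rfl⟩ := hsurj m
    rw [hmem a ha _ (hchk β hβ), n1]
    obtain ⟨w, hw, rfl⟩ := ha
    obtain ⟨u, hu, rfl⟩ := hβ
    constructor
    · intro h
      obtain ⟨v, hv, hvv⟩ := wit_of hG hgen ((.bot, 0), 12) [w, u] (hlist2 w hw u hu) _ h (by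
        refine iSup_le (fun β => iSup_le (fun hβ => ?_))
        obtain ⟨v, rfl⟩ := th_surj (B := B) β
        refine le_iSup_of_le v ?_
        show _ ≤ tv (v.th < u.th) ⊓ beq w.nm (chk v.th)
        rw [tv_true hβ, top_inf_eq])
      have hvv' : tv (v.th < u.th) ⊓ beq w.nm (chk v.th) ∈ G := hvv
      by_cases hlt : v.th < u.th
      · exact ⟨v.th, ⟨v, hv, rfl⟩, hlt, (heqv _ ⟨w, hw, rfl⟩ _ (hchk _ ⟨v, hv, rfl⟩)).2
          (hG.up _ hvv' _ inf_le_right)⟩
      · exfalso
        rw [tv_false hlt, bot_inf_eq] at hvv'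
        exact hG.bot hvv'
    · rintro ⟨α, hα, hlt, h⟩
      have h2 := (heqv _ ⟨w, hw, rfl⟩ _ (hchk _ hα)).1 h
      exact hG.up _ h2 _ (le_iSup_of_le α (le_iSup_of_le hlt le_rfl))
  have hinj : ∀ α β, HT H α → HT H β → π (chk α) = π (chk β) → α = β := by
    intro α β hα hβ h
    by_contra hne
    have h2 := (heqv _ (hchk α hα) _ (hchk β hβ)).1 h
    rw [n3 α β hne] at h2
    exact hG.bot h2
  have hext : ∀ a b : M, (∀ x, E x a ↔ E x b) → a = b := hz.ext
  have hisnum : ∀ n : ℕ, IsNum E n (π (chk (n : Th))) := by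
    intro n
    induction n with
    | zero =>
      intro y hy
      obtain ⟨α, -, hα, -⟩ := (hmemchk _ (hnat 0) y).1 hy
      simp at hα
    | succ n ih =>
      refine ⟨_, ih, fun z => ?_⟩
      rw [hmemchk _ (hnat (n + 1)) z, hmemchk _ (hnat n) z]
      constructor
      · rintro ⟨α, hα, hlt, rfl⟩
        have hlt' : α ≤ (n : Th) := by
          have e1 : ((n + 1 : ℕ) : Th) = Order.succ (n : Th) := by
            rw [Nat.cast_add, Nat.cast_one, Order.succ_eq_add_one]
          rw [e1] at hlt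
          exact Order.lt_succ_iff.1 hlt
        rcases hlt'.lt_or_eq with h | h
        · exact Or.inl ⟨α, hα, h, rfl⟩
        · right; rw [h]
      · rintro (⟨α, hα, hlt, rfl⟩ | rfl)
        · exact ⟨α, hα, hlt.trans (by exact_mod_cast Nat.lt_succ_self n), rfl⟩
        · exact ⟨_, hnat n, by exact_mod_cast Nat.lt_succ_self n, rfl⟩
  have hisnum' : ∀ (n : ℕ) (x : M), IsNum E n x → x = π (chk (n : Th)) := by
    intro n
    induction n with
    | zero =>
      intro x hx
      exact hext _ _ (fun c => ⟨fun h => (hx c h).elim, fun h => (hisnum 0 c h).elim⟩)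
    | succ n ih =>
      rintro x ⟨y, hy, hx⟩
      obtain ⟨y', hy', hx'⟩ := hisnum (n + 1)
      rw [ih y hy] at hx
      rw [ih y' hy'] at hx'
      exact hext _ _ (fun c => (hx c).trans (hx' c).symm)
  have homega : IsOmega E (π (chk Ordinal.omega0)) := by
    intro x
    rw [hmemchk _ homg]
    constructor
    · rintro ⟨α, -, hα, rfl⟩
      obtain ⟨n, rfl⟩ := Ordinal.lt_omega0.1 hα
      exact ⟨n, hisnum n⟩
    · rintro ⟨n, hn⟩
      exact ⟨n, hnat n, Ordinal.natCast_lt_omega0 n, hisnum' n x hn⟩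
  have hmemupr : ∀ a b, HN H a → HN H b → ∀ m, E m (π (upr a b)) ↔ m = π a ∨ m = π b := by
    intro a b ha hb m
    obtain ⟨c, hc, rfl⟩ := hsurj m
    rw [hmem c hc _ (hupr a b ha hb), n6, heqv c hc a ha, heqv c hc b hb]
    constructor
    · intro h
      rcases hdece c a hc ha with h1 | h1
      · exact Or.inl h1
      · refine Or.inr (hG.up _ (hG.inf _ h _ h1) _ ?_)
        rw [inf_sup_right, inf_compl_self, bot_sup_eq]
        exact inf_le_left
    · rintro (h | h)
      · exact hG.up _ h _ le_sup_left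
      · exact hG.up _ h _ le_sup_right
  have hopr : ∀ a b, HN H a → HN H b → HN H (opr a b) := fun a b ha hb =>
    hupr _ _ (hupr a a ha ha) (hupr a b ha hb)
  have hpair : ∀ a b, HN H a → HN H b → IsPair E (π (opr a b)) (π a) (π b) := by
    intro a b ha hb z
    have e1 := hmemupr _ _ (hupr a a ha ha) (hupr a b ha hb) z
    have e2 : z = π (upr a a) ↔ ∀ u, E u z ↔ u = π a := by
      constructor
      · rintro rfl u
        rw [hmemupr a a ha ha, or_self]
      · intro h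
        refine hext _ _ (fun u => ?_)
        rw [h u, hmemupr a a ha ha, or_self]
    have e3 : z = π (upr a b) ↔ ∀ u, E u z ↔ u = π a ∨ u = π b := by
      constructor
      · rintro rfl u
        rw [hmemupr a b ha hb]
      · intro h
        refine hext _ _ (fun u => ?_)
        rw [h u, hmemupr a b ha hb]
    rw [← e2, ← e3]
    exact e1
  exact ⟨M, E, π,
    { flt := hG
      zfc := hz
      std := hs
      surj := fun m => by
        obtain ⟨a, ha, h⟩ := hsurj m
        exact ⟨a, ha, h⟩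
      eqv := fun a b ha hb => heqv a ha b hb
      mem := fun a b ha hb => hmem a ha b hb
      dece := hdece
      decm := hdecm
      chk := hchk
      w2 := hw2
      o1 := ho1
      om := homg
      memW2 := hmemW2
      memchk := hmemchk
      inj := hinj
      omega := homega
      opr := hopr
      pair := hpair }⟩

end Pool.Agent.CTD.H94
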