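import Pool.Agent.Helper94_CTD.PStmts

/-!
# Module A2a (helper76): foundation, pairing, union, power set in the Boolean valued universe
-/

namespace Pool.Agent.CTD.P76

open Pool.Agent.FL

universe u

variable {B : Type u} [CompleteBooleanAlgebra B]

/-- elimination of a supremum -/
theorem sup_elim {ι : Sort*} {f : ι → B} {r q : B} (h : r ≤ ⨆ i, f i)
    (k : ∀ i (r' : B), r' ≤ r → r' ≤ f i → r' ≤ q) : r ≤ q := by
  have h1 : r = r ⊓ ⨆ i, f i := (inf_eq_left.2 h).symm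
  rw [h1, inf_iSup_eq]
  exact iSup_le fun i => k i _ inf_le_left inf_le_right

theorem or_elim {a b r q : B} (h : r ≤ a ⊔ b) (k1 : ∀ r' ≤ r, r' ≤ a → r' ≤ q)
    (k2 : ∀ r' ≤ r, r' ≤ b → r' ≤ q) : r ≤ q := by
  have h1 : r = r ⊓ (a ⊔ b) := (inf_eq_left.2 h).symm
  rw [h1, inf_sup_left]
  exact sup_le (k1 _ inf_le_left inf_le_right) (k2 _ inf_le_left inf_le_right)

theorem em_elim (a : B) {r q : B} (k1 : ∀ r' ≤ r, r' ≤ a → r' ≤ q)
    (k2 : ∀ r' ≤ r, r' ≤ aᶜ → r' ≤ q) : r ≤ q :=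
  or_elim (a := a) (b := aᶜ) (by rw [sup_compl_eq_top]; exact le_top) k1 k2

theorem himp_intro {a b r : B} (k : ∀ r' ≤ r, r' ≤ a → r' ≤ b) : r ≤ a ⇨ b :=
  le_himp_iff.2 (k _ inf_le_left inf_le_right)

theorem himp_elim {a b r : B} (h : r ≤ a ⇨ b) (h' : r ≤ a) : r ≤ b := by
  have h1 := le_himp_iff.1 h
  rwa [inf_eq_left.2 h'] at h1

theorem compl_intro {a r : B} (k : ∀ r' ≤ r, r' ≤ a → r' ≤ ⊥) : r ≤ aᶜ := by
  rw [← himp_bot]
  exact himp_intro k

theorem compl_elim {a r q : B} (h : r ≤ aᶜ) (h' : r ≤ a) : r ≤ q := by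
  rw [← himp_bot] at h
  exact (himp_elim h h').trans bot_le

/-- the index type of a name -/
def idx : BSet B → Type u
  | .mk α _ _ => α

/-- the elements of a name -/
def elt : (x : BSet B) → idx x → BSet B
  | .mk _ A _ => A

/-- the values of a name -/
def wt : (x : BSet B) → idx x → B
  | .mk _ _ b => b

theorem mk_eta (x : BSet B) : BSet.mk (idx x) (elt x) (wt x) = x := by
  cases x
  rfl

theorem bmem_eq (y x : BSet B) : bmem y x = ⨆ i : idx x, wt x i ⊓ beq y (elt x i) := by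
  cases x
  rfl

/-- the facts from A1 -/
structure Fx (B : Type u) [CompleteBooleanAlgebra B] : Prop where
  refl : ∀ x : BSet B, beq x x = ⊤
  symm : ∀ x y : BSet B, beq x y = beq y x
  trans : ∀ x y z : BSet B, beq x y ⊓ beq y z ≤ beq x z
  cl : ∀ x y z : BSet B, beq x y ⊓ bmem x z ≤ bmem y z
  cr : ∀ x y z : BSet B, beq y z ⊓ bmem x y ≤ bmem x z
  ext : ∀ a b : BSet B,
    (⨅ c : BSet B, ((bmem c a ⇨ bmem c b) ⊓ (bmem c b ⇨ bmem c a))) ≤ beq a b
  bsup : ∀ (α : Type u) (A : α → BSet B) (b : α → B) (f : BSet B → B),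
    (∀ a a', beq a a' ⊓ f a ≤ f a') →
    (⨆ a : BSet B, bmem a (.mk α A b) ⊓ f a) = ⨆ i, b i ⊓ f (A i)

theorem fx (h : A1Stmt.{u}) (B : Type u) [CompleteBooleanAlgebra B] : Fx B := by
  obtain ⟨h1, h2, h3, h4, h5, -, h7, h8⟩ := h B
  exact ⟨h1, h2, h3, h4, h5, h7, h8⟩

theorem Fx.bsup' (F : Fx B) (x : BSet B) (f : BSet B → B)
    (hf : ∀ a a', beq a a' ⊓ f a ≤ f a') :
    (⨆ a : BSet B, bmem a x ⊓ f a) = ⨆ i : idx x, wt x i ⊓ f (elt x i) := by
  have := F.bsup (idx x) (elt x) (wt x) f hf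
  rwa [mk_eta] at this

/-- elements of names -/
theorem Fx.elt_mem (F : Fx B) (x : BSet B) (i : idx x) : wt x i ≤ bmem (elt x i) x := by
  rw [bmem_eq]
  refine le_trans ?_ (le_iSup (fun j : idx x => wt x j ⊓ beq (elt x i) (elt x j)) i)
  rw [F.refl, inf_top_eq]

theorem Fx.mem_l (F : Fx B) {r : B} {x y z : BSet B} (h : r ≤ beq x y) (h' : r ≤ bmem x z) :
    r ≤ bmem y z := (le_inf h h').trans (F.cl x y z)

theorem Fx.mem_r (F : Fx B) {r : B} {x y z : BSet B} (h : r ≤ beq y z) (h' : r ≤ bmem x y) :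
    r ≤ bmem x z := (le_inf h h').trans (F.cr x y z)

theorem Fx.sym (F : Fx B) {r : B} {x y : BSet B} (h : r ≤ beq x y) : r ≤ beq y x := by
  rwa [F.symm]

theorem Fx.tr (F : Fx B) {r : B} {x y z : BSet B} (h : r ≤ beq x y) (h' : r ≤ beq y z) :
    r ≤ beq x z := (le_inf h h').trans (F.trans x y z)

theorem foundation (F : Fx B) (a : BSet B) : (⨆ c : BSet B, bmem c a) ≤
    ⨆ c : BSet B, bmem c a ⊓ ⨅ d : BSet B, (bmem d c ⇨ (bmem d a)ᶜ) := by
  have key : ∀ c : BSet B, bmem c a ≤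
      ⨆ c : BSet B, bmem c a ⊓ ⨅ d : BSet B, (bmem d c ⇨ (bmem d a)ᶜ) := by
    intro c
    induction c with
    | mk α A b ih =>
      refine em_elim (⨅ d : BSet B, (bmem d (BSet.mk α A b) ⇨ (bmem d a)ᶜ)) ?_ ?_
      · intro r' h1 h2
        exact (le_inf h1 h2).trans (le_iSup (fun c : BSet B => bmem c a ⊓
          ⨅ d : BSet B, (bmem d c ⇨ (bmem d a)ᶜ)) (BSet.mk α A b))
      · intro r' _ h2
        have h3 : (⨅ d : BSet B, (bmem d (BSet.mk α A b) ⇨ (bmem d a)ᶜ))ᶜ =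
            ⨆ d : BSet B, bmem d (BSet.mk α A b) ⊓ bmem d a := by
          rw [compl_iInf]
          congr 1
          funext d
          rw [himp_eq, compl_sup, compl_compl, compl_compl, inf_comm]
        rw [h3, F.bsup α A b (fun d => bmem d a) (fun x y => F.cl x y a)] at h2
        refine sup_elim h2 fun i r'' _ h4 => ?_
        exact (h4.trans inf_le_right).trans (ih i)
  exact iSup_le key

theorem pairing (a b : BSet B) :
    ∃ c : BSet B, ∀ d, bmem d c = beq d a ⊔ beq d b := by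
  refine ⟨BSet.mk (ULift Bool) (fun i => if i.down then a else b) (fun _ => ⊤), fun d => ?_⟩
  show (⨆ i : ULift Bool, ⊤ ⊓ beq d (if i.down then a else b)) = _
  refine (Equiv.ulift.iSup_comp (g := fun i : Bool => ⊤ ⊓ beq d (if i then a else b))).trans ?_
  rw [iSup_bool_eq]
  simp

theorem union (F : Fx B) (a : BSet B) :
    ∃ b : BSet B, ∀ d, bmem d b = ⨆ c : BSet B, bmem c a ⊓ bmem d c := by
  refine ⟨BSet.mk (Σ i : idx a, idx (elt a i)) (fun p => elt (elt a p.1) p.2)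
    (fun p => wt a p.1 ⊓ wt (elt a p.1) p.2), fun d => ?_⟩
  rw [F.bsup' a (fun c => bmem d c) (fun x y => F.cr d x y)]
  show (⨆ p : (Σ i : idx a, idx (elt a i)), (wt a p.1 ⊓ wt (elt a p.1) p.2) ⊓
    beq d (elt (elt a p.1) p.2)) = _
  rw [iSup_sigma]
  congr 1
  funext i
  rw [bmem_eq d (elt a i), inf_iSup_eq]
  congr 1
  funext k
  rw [inf_assoc]

theorem power (F : Fx B) (a : BSet B) :
    ∃ b : BSet B, ∀ d, bmem d b = ⨅ c : BSet B, (bmem c d ⇨ bmem c a) := by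
  refine ⟨BSet.mk (idx a → B) (fun χ => BSet.mk (idx a) (elt a) χ)
    (fun χ => ⨅ c : BSet B, (bmem c (BSet.mk (idx a) (elt a) χ) ⇨ bmem c a)), fun d => ?_⟩
  show (⨆ χ : idx a → B, (⨅ c : BSet B, (bmem c (BSet.mk (idx a) (elt a) χ) ⇨ bmem c a)) ⊓
    beq d (BSet.mk (idx a) (elt a) χ)) = _
  apply le_antisymm
  · refine iSup_le fun χ => le_iInf fun c => himp_intro fun r h1 h2 => ?_
    have h3 : r ≤ bmem c (BSet.mk (idx a) (elt a) χ) :=
      F.mem_r (h1.trans inf_le_right) h2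
    have h4 : r ≤ (bmem c (BSet.mk (idx a) (elt a) χ) ⇨ bmem c a) :=
      (h1.trans inf_le_left).trans (iInf_le _ c)
    exact himp_elim h4 h3
  · set S := ⨅ c : BSet B, (bmem c d ⇨ bmem c a) with hS
    let χ : idx a → B := fun i => bmem (elt a i) d
    have hχ : ∀ c : BSet B, bmem c (BSet.mk (idx a) (elt a) χ) ≤ bmem c d := by
      intro c
      show (⨆ i : idx a, bmem (elt a i) d ⊓ beq c (elt a i)) ≤ _
      refine iSup_le fun i => ?_
      exact F.mem_l (F.sym inf_le_right) inf_le_left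
    refine le_trans ?_ (le_iSup (fun χ : idx a → B =>
      (⨅ c : BSet B, (bmem c (BSet.mk (idx a) (elt a) χ) ⇨ bmem c a)) ⊓
        beq d (BSet.mk (idx a) (elt a) χ)) χ)
    refine le_inf ?_ ?_
    · refine le_iInf fun c => himp_intro fun r h1 h2 => ?_
      exact himp_elim (h1.trans (iInf_le _ c)) (h2.trans (hχ c))
    · refine le_trans ?_ (F.ext _ _)
      refine le_iInf fun c => le_inf ?_ ?_
      · refine himp_intro fun r h1 h2 => ?_
        have h3 : r ≤ bmem c a := himp_elim (h1.trans (iInf_le _ c)) h2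
        rw [bmem_eq] at h3
        refine sup_elim h3 fun i r' h4 h5 => ?_
        show r' ≤ ⨆ i : idx a, bmem (elt a i) d ⊓ beq c (elt a i)
        refine le_trans (le_inf ?_ ?_) (le_iSup (fun i : idx a =>
          bmem (elt a i) d ⊓ beq c (elt a i)) i)
        · exact F.mem_l (h5.trans inf_le_right) (h4.trans h2)
        · exact h5.trans inf_le_right
      · refine himp_intro fun r _ h2 => ?_
        exact h2.trans (hχ c)

theorem a2a (h1 : A1Stmt.{u}) : A2aStmt.{u} := by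
  intro B _
  have F := fx h1 B
  exact ⟨foundation F, pairing, union F, power F⟩

end Pool.Agent.CTD.P76
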